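import Pool.Agent.SYS.BK.Bal

/-!
# SYSS-BLK-AbsA: the exploration of a path

`e` a dart of a hidden face at hidden-dual distance `≤ r` of the face behind `x`, glued to a dart of `S.R`.  There is a sequence of at most `r + 1` turns such that the exploration which only follows this path consists of steps `T` and ends with the gate `e`.

PLAN.  `N = nw S (ofTri T) = {d | d ∉ S.R}`.
* Take `r` minimal with `e ∈ bal S (ofTri T) x r`.  By `bl_succ` (downwards): faces with representatives `c_i`, `i ≤ r`, `c_r = e`, `c_i ∈ bal i \ bal (i-1)`, and `T.a (some dart of the face of c_(i+1)) ` in the face of `c_i`.  So there are darts `g_0 = x`, `g_(i+1)` in the face of `T.a g_i`, `g_(i+1) ≠ T.a g_i`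
  (otherwise `T.a g_(i+1) = g_i` is in a face nearer to `x`, resp. in `S.R`, not in `bal (i+1) \ bal i`), `i < r`, face of `T.a g_i` = face number `i`; the last one is `g_(r+1) = e` in the face of `T.a g_r` (number `r`), `e ≠ T.a g_r` because `T.a e ∈ S.R` and `g_r ∉ S.R` for `r ≥ 1`; for `r = 0`: `g_0 = x`,
  `e = T.a x` would give `T.a e = x ∈ S.R`!  So the hypothesis is `T.a e ≠ x` for this case (`hb'`).
* By induction on `m ≤ r`: the run with the turns `τ` of `g_1, .., g_m` reaches `S_m`, gate `g_m`, with `S_m.R = S.R ∪ faces number 0, .., m-1`; `T.a g_m` is in face number `m`, so not in `S_m.R` (the faces are different: different distance): a step `T` (`face_le`, `T.f` preserves `S_m.R`), `z = t1 = T.f (T.a g_m)`, `t2 = T.f t1`;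
  `g_(m+1) ∈ {t1, t2}`; `S_(m+1).nx t1 = t2` (`hw_face`).  Use `Rch` with an appended step (`rch_append`).
* Hole word: `hw_face`, `hw_rot`: `hw g_m = g_m :: (u ++ (t ++ v))` gives `hw t1 = t1 :: t2 :: (u ++ t ++ v)`: for `g = t1`: `u' = t2 :: u`, `v' = v`; for `g = t2` (rotate): `hw t2 = t2 :: (u ++ t ++ v ++ [t1])`.
* `HConn`: `hc_face` (as in `st_hconn`, but in the other direction; see the proof of `alt`, case `T`).
-/

namespace SYS.BK

open Classical SST SYS.Part

variable {D : Type} [Finite D] {S : Part D} {x e : D} {T : Tri D}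

private theorem rch_congr {ρ ρ' : List Stp → ℕ} {S S' : Part D} {x x' : D} {w h : List Stp}
    (hρ : ∀ h' : List Stp, h'.length ≤ h.length + w.length → ρ h' = ρ' h') (hr : Rch ρ h S x w S' x') : Rch ρ' h S x w S' x' := by
  induction w generalizing h S x with
  | nil => exact hr
  | cons s w ih =>
    obtain ⟨S₁, z, h1, h2⟩ := hr
    refine ⟨S₁, z, h1, ?_⟩
    rw [← hρ (h ++ [s]) (by simp)]
    refine ih (fun h' hl => hρ h' ?_) h2
    simp only [List.length_append, List.length_cons, List.length_nil] at hl ⊢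
    omega

private theorem tr_upd (τ : ℕ → Bool) (j : ℕ) (b : Bool) (h : List Stp) (hl : h.length ≤ j) :
    tr τ h = tr (Function.update τ (j + 1) b) h := by
  unfold tr
  rw [Function.update_of_ne (by omega)]

private theorem x_mono {S S' : Part D} (h : S.Sub S') {d : D} (hd : d ∈ S'.X) : d ∈ S.X := by
  by_contra hn
  have h1 : d ∈ S.R := by
    by_contra h1
    exact hn (Or.inl h1)
  have h2 : d ∉ S.B := fun h2 => hn (Or.inr h2)
  have h3 : S.a d ≠ d := fun h3 => h2 ⟨h1, h3⟩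
  have h4 : S'.a d = S.a d := h.2 d h3
  rcases hd with hd | hd
  · exact hd (h.R_sub h1)
  · exact h3 (h4 ▸ hd.2)

/-- The state after `m` steps. -/
private def St8 (S : Part D) (x : D) (T : Tri D) (t : List D) (m : ℕ) (τ : ℕ → Bool) (S' : Part D) (g : D) : Prop :=
  Rch (tr τ) [] S x (List.replicate m Stp.T) S' g ∧ S'.Le T ∧ (S.HConn T → S'.HConn T) ∧ g ∈ S'.B ∧
    ∃ u v, S'.hw g = g :: (u ++ (t ++ v)) ∧ u.length + v.length = m

private theorem st8_step {S S' : Part D} {x g e : D} {T : Tri D} {t : List D} {m : ℕ} {τ : ℕ → Bool} (h : St8 S x T t m τ S' g)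
    (hg : T.a g ∉ S'.R) (he : e = T.f (T.a g) ∨ e = T.f (T.f (T.a g))) :
    ∃ τ' S'', St8 S x T t (m + 1) τ' S'' e ∧ S''.R = S'.R ∪ {T.a g, T.f (T.a g), T.f (T.f (T.a g))} := by
  obtain ⟨h1, h2, h3, h4, u, v, h5, h6⟩ := h
  have k1 : T.f (T.a g) ∉ S'.R := fun h => hg ((le_f_mem h2 _).1 h)
  have k2 : T.f (T.f (T.a g)) ∉ S'.R := fun h => k1 ((le_f_mem h2 _).1 h)
  have hle := face_le S' h2 h4 hg k1 k2 (tri_ne T _).1 (tri_ne T _).2.1 (tri_ne T _).2.2
  have hsub := face_sub S' h4 hg k1 k2 (tri_ne T (T.a g)).1 (tri_ne T _).2.1 (tri_ne T _).2.2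
  have hw := hw_face S' h4 hg k1 k2 (tri_ne T (T.a g)).1 (tri_ne T _).2.1 (tri_ne T _).2.2 h5
  have hR := face_R S' h4 hg k1 k2 (tri_ne T (T.a g)).1 (tri_ne T _).2.1 (tri_ne T _).2.2
  have hB := face_B S' h4 hg k1 k2 (tri_ne T (T.a g)).1 (tri_ne T _).2.1 (tri_ne T _).2.2
  obtain ⟨S'', hS''⟩ : ∃ S'', S'' = S'.face g (T.a g) (T.f (T.a g)) (T.f (T.f (T.a g))) h4 hg k1 k2 (tri_ne T _).1
    (tri_ne T _).2.1 (tri_ne T _).2.2 := ⟨_, rfl⟩
  rw [← hS''] at hle hsub hw hR hB
  have hst : S'.St g Stp.T S'' (T.f (T.a g)) := ⟨T.a g, T.f (T.a g), T.f (T.f (T.a g)), h4, hg, k1, k2, (tri_ne T _).1,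
    (tri_ne T _).2.1, (tri_ne T _).2.2, hS'', rfl⟩
  have hc : S.HConn T → S''.HConn T := by
    intro hc d hd e he
    rw [hc_face h2 h4 hg k1 k2 hS'' hd he]
    exact h3 hc d (x_mono hsub hd) e (x_mono hsub he)
  have b1 : T.f (T.a g) ∈ S''.B := by
    rw [hB]
    exact Or.inr (Or.inl rfl)
  have b2 : T.f (T.f (T.a g)) ∈ S''.B := by
    rw [hB]
    exact Or.inr (Or.inr rfl)
  have hrep : List.replicate (m + 1) Stp.T = List.replicate m Stp.T ++ [Stp.T] := List.replicate_succ'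
  have hnx : S''.nx (T.f (T.a g)) = T.f (T.f (T.a g)) := by
    have h := S''.hw_chain b1
    rw [hw] at h
    exact (List.isChain_cons_cons.1 h).1
  have key : ∀ b : Bool, e = (S''.nx ^ (if b then 1 else 0)) (T.f (T.a g)) →
      Rch (tr (Function.update τ (m + 1) b)) [] S x (List.replicate (m + 1) Stp.T) S'' e := by
    intro b hb
    rw [hrep, rch_append]
    refine ⟨S', g, rch_congr (ρ := tr τ) (fun h' hl => tr_upd τ m b h' ?_) h1, S'', T.f (T.a g), hst, rfl, ?_⟩
    · simp only [List.length_nil, List.length_replicate, Nat.zero_add] at hl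
      exact hl
    · rw [hb]
      unfold tr
      simp
  rcases he with he | he
  · refine ⟨Function.update τ (m + 1) false, S'', ⟨key false (by rw [he]; rfl), hle, hc, by rw [he]; exact b1,
      T.f (T.f (T.a g)) :: u, v, by rw [he, hw]; rfl, ?_⟩, hR⟩
    rw [List.length_cons]
    omega
  · refine ⟨Function.update τ (m + 1) true, S'', ⟨key true (by rw [he]; exact hnx.symm), hle, hc, by rw [he]; exact b2,
      u, v ++ [T.f (T.a g)], ?_, ?_⟩, hR⟩
    · have h7 := S''.hw_rot b1 (u := [T.f (T.a g)]) (v := u ++ (t ++ v)) (y := T.f (T.f (T.a g))) (by rw [hw]; rfl)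
      rw [he, h7]
      simp
    · rw [List.length_append, List.length_singleton]
      omega

private theorem fc_three {f : Equiv.Perm D} (hF : ∀ d, f (f (f d)) = d) {y d : D} (h : d ∈ fc f y) : y ∈ fc f d := by
  rcases h with h | h | h
  · rw [h]
    exact Or.inl rfl
  · right; right
    rw [h, hF]
    rfl
  · right; left
    rw [h, hF]

private theorem fc_R {T : Tri D} {S : Part D} (h : S.Le T) {y d : D} (hd : d ∈ fc T.f y) : d ∈ S.R ↔ y ∈ S.R := by
  rcases hd with hd | hd | hd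
  · rw [hd]
  · rw [hd, le_f_mem h]
  · rw [hd, le_f_mem h, le_f_mem h]

private theorem fc_bal {T : Tri D} {S : Part D} (h : S.Le T) {x y d : D} (hd : d ∈ fc T.f y) (j : ℕ) :
    d ∈ bal S (ofTri T) x j ↔ y ∈ bal S (ofTri T) x j := by
  have h1 := bal_fs (x := x) ((le_iff_sub S T).1 h) j
  have h2 : ∀ d, T.f d ∈ bal S (ofTri T) x j ↔ d ∈ bal S (ofTri T) x j := h1
  rcases hd with hd | hd | hd
  · rw [hd]
  · rw [hd, h2]
  · rw [hd, h2, h2]

private theorem abs_aux (h : S.Le T) (hx : x ∈ S.B) {t : List D} (ht : S.hw x = x :: t) (j : ℕ) :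
    ∀ c : D, c ∈ bal S (ofTri T) x j → (∀ i < j, c ∉ bal S (ofTri T) x i) →
    ∃ τ S' g, St8 S x T t j τ S' g ∧ c ∈ fc T.f (T.a g) ∧ (∀ d ∈ S'.R, d ∈ S.R ∨ ∃ i < j, d ∈ bal S (ofTri T) x i) ∧
      (g = x ∧ j = 0 ∨ g ∉ S.R) := by
  induction j with
  | zero =>
    intro c hc _
    refine ⟨fun _ => false, S, x, ⟨⟨rfl, rfl⟩, h, fun h => h, hx, [], [], by rw [ht]; simp, rfl⟩, hc.2, fun d hd => Or.inl hd,
      Or.inl ⟨rfl, rfl⟩⟩
  | succ j ih =>
    intro c hc hci
    have hcj : c ∉ bal S (ofTri T) x j := hci j (Nat.lt_succ_self j)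
    rcases bl_succ hc with h1 | ⟨e, he, h1⟩
    · exact absurd h1 hcj
    have he' : e ∈ fc T.f c := he
    have h1' : T.a e ∈ bal S (ofTri T) x j := h1
    have hcN : c ∉ S.R := (bal_sub (j + 1) hc).2
    have heN : e ∉ S.R := fun h2 => hcN ((fc_R h he').1 h2)
    have hei : ∀ i < j + 1, e ∉ bal S (ofTri T) x i := fun i hi h2 => hci i hi ((fc_bal h he' i).1 h2)
    have hce : ∀ i < j, T.a e ∉ bal S (ofTri T) x i := by
      intro i hi h2
      have h3 : e ∈ nw S (ofTri T) := ⟨T.fne e, heN⟩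
      exact hei (i + 1) (by omega) (bal_adj h3 h2)
    obtain ⟨τ, S', g, h2, h3, h4, h5⟩ := ih (T.a e) h1' hce
    have hc'N : T.a e ∉ S.R := (bal_sub j h1').2
    have hg : T.a g ∉ S'.R := by
      intro h6
      rcases h4 _ h6 with h7 | ⟨i, hi, h7⟩
      · exact hc'N ((fc_R h h3).2 h7)
      · exact hce i hi ((fc_bal h h3 i).2 h7)
    have hge : T.a e ≠ T.a g := by
      intro h6
      have h7 : e = g := T.a.injective h6
      rcases h5 with ⟨h8, h9⟩ | h8
      · exact heN (by rw [h7, h8]; exact hx.1)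
      · have h9 : g ∈ S'.R := h2.2.2.2.1.1
        rcases h4 g h9 with h10 | ⟨i, hi, h10⟩
        · exact h8 h10
        · exact hei i (by omega) (by rw [h7]; exact h10)
    have h6 : T.a e = T.f (T.a g) ∨ T.a e = T.f (T.f (T.a g)) := by
      rcases h3 with h3 | h3 | h3
      · exact absurd h3 hge
      · exact Or.inl h3
      · exact Or.inr h3
    obtain ⟨τ', S'', h7, h8⟩ := st8_step h2 hg h6
    refine ⟨τ', S'', T.a e, h7, ?_, ?_, Or.inr hc'N⟩
    · rw [T.aa]
      exact fc_three T.fff he'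
    · intro d hd
      rw [h8] at hd
      have h9 : ∀ d, d ∈ fc T.f (T.a g) → d ∈ bal S (ofTri T) x j := by
        intro d hd
        rw [fc_bal h hd j, ← fc_bal h h3 j]
        exact h1'
      rcases hd with hd | hd
      · rcases h4 d hd with h10 | ⟨i, hi, h10⟩
        · exact Or.inl h10
        · exact Or.inr ⟨i, by omega, h10⟩
      · exact Or.inr ⟨j, Nat.lt_succ_self j, h9 d hd⟩

theorem abs_path (h : S.Le T) (hx : x ∈ S.B) {r : ℕ} (he : e ∈ bal S (ofTri T) x r) (hb : T.a e ∈ S.R) (hb' : T.a e ≠ x) {t : List D}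
    (ht : S.hw x = x :: t) :
    ∃ (m : ℕ) (τ : ℕ → Bool) (S' : Part D) (u v : List D), 1 ≤ m ∧ m ≤ r + 1 ∧ Rch (tr τ) [] S x (List.replicate m Stp.T) S' e ∧
      S'.Le T ∧ (S.HConn T → S'.HConn T) ∧ S'.hw e = e :: (u ++ (t ++ v)) ∧ u.length + v.length = m := by
  have hex : ∃ j, e ∈ bal S (ofTri T) x j := ⟨r, he⟩
  have hj := Nat.find_spec hex
  have hr : Nat.find hex ≤ r := Nat.find_min' hex he
  have hlt : ∀ i < Nat.find hex, e ∉ bal S (ofTri T) x i := fun i hi => Nat.find_min hex hi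
  obtain ⟨τ, S', g, h2, h3, h4, h5⟩ := abs_aux h hx ht (Nat.find hex) e hj hlt
  have heN : e ∉ S.R := (bal_sub _ hj).2
  have hg : T.a g ∉ S'.R := by
    intro h6
    rcases h4 _ h6 with h7 | ⟨i, hi, h7⟩
    · exact heN ((fc_R h h3).2 h7)
    · exact hlt i hi ((fc_bal h h3 i).2 h7)
  have hge : e ≠ T.a g := by
    intro h6
    have h7 : T.a e = g := by rw [h6, T.aa]
    rcases h5 with ⟨h8, -⟩ | h8
    · exact hb' (h7.trans h8)
    · exact h8 (h7 ▸ hb)
  have h6 : e = T.f (T.a g) ∨ e = T.f (T.f (T.a g)) := by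
    rcases h3 with h3 | h3 | h3
    · exact absurd h3 hge
    · exact Or.inl h3
    · exact Or.inr h3
  obtain ⟨τ', S'', ⟨k1, k2, k3, -, u, v, k4, k5⟩, -⟩ := st8_step h2 hg h6
  exact ⟨Nat.find hex + 1, τ', S'', u, v, by omega, by omega, k1, k2, k3, k4, k5⟩

end SYS.BK
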