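import Pool.Agent.SYS.BK.Nbr

/-!
# SYSS-BLK-AbsB: the last absorbed dart on each side is glued to an inner face
-/

namespace SYS.BK

open Classical SST SYS.Part

variable {D : Type} [Finite D] {P : Prm} {S S' : Part D} {x x' : D} {w : List Stp}

private theorem nd_uniq {α : Type} {c : α} : ∀ {A A' B B' : List α}, A ++ c :: B = A' ++ c :: B' →
    (A ++ c :: B).Nodup → A = A' ∧ B = B' := by
  intro A
  induction A with
  | nil =>
    intro A' B B' h hn
    cases A' with
    | nil =>
      rw [List.nil_append, List.nil_append] at h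
      exact ⟨rfl, (List.cons.inj h).2⟩
    | cons e A' =>
      rw [List.nil_append, List.cons_append] at h
      obtain ⟨h1, h2⟩ := List.cons.inj h
      rw [List.nil_append, List.nodup_cons] at hn
      refine absurd ?_ hn.1
      rw [h2]
      simp
  | cons e A ih =>
    intro A' B B' h hn
    cases A' with
    | nil =>
      rw [List.nil_append, List.cons_append] at h
      obtain ⟨h1, h2⟩ := List.cons.inj h
      rw [List.cons_append, List.nodup_cons] at hn
      refine absurd ?_ hn.1
      rw [h1]
      simp
    | cons e' A' =>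
      rw [List.cons_append, List.cons_append] at h
      obtain ⟨h1, h2⟩ := List.cons.inj h
      rw [List.cons_append, List.nodup_cons] at hn
      obtain ⟨h3, h4⟩ := ih h2 hn.2
      exact ⟨by rw [h1, h3], h4⟩

/-- If the last element of `o` is in `R` and no element of `u'` is, then `u'` is empty. -/
private theorem last_nil {α : Type} {R : Set α} {u o p u' : List α} (h : u ++ o = p ++ u')
    (ho : o ≠ []) (hR : ∀ e ∈ o, e ∈ R) (hu : ∀ e ∈ u', e ∉ R) : u' = [] := by
  rcases List.eq_nil_or_concat u' with h1 | ⟨u1, e, h1⟩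
  · exact h1
  · rcases List.eq_nil_or_concat o with h2 | ⟨o1, b, h2⟩
    · exact absurd h2 ho
    · rw [List.concat_eq_append] at h1 h2
      rw [h1, h2, ← List.append_assoc, ← List.append_assoc] at h
      have h3 := (List.append_inj' h rfl).2
      have h4 : b = e := by
        injection h3
      refine absurd (hR b (by rw [h2]; simp)) ?_
      rw [h4]
      exact hu e (by rw [h1]; simp)

private theorem head_nil {α : Type} {R : Set α} {o v v' q : List α} (h : o ++ v = v' ++ q)
    (ho : o ≠ []) (hR : ∀ e ∈ o, e ∈ R) (hv : ∀ e ∈ v', e ∉ R) : v' = [] := by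
  cases v' with
  | nil => rfl
  | cons e v' =>
    cases o with
    | nil => exact absurd rfl ho
    | cons b o =>
      rw [List.cons_append, List.cons_append] at h
      have h1 := (List.cons.inj h).1
      refine absurd (hR b List.mem_cons_self) ?_
      rw [h1]
      exact hv e List.mem_cons_self

private theorem glue_y {S : Part D} {d y : D} (hx : d ∈ S.B) (hy : y ∈ S.B) :
    (S.glue d y hx hy).a y = d := by
  show (S.a * Equiv.swap d y) y = d
  rw [Equiv.Perm.mul_apply, Equiv.swap_apply_right]
  exact hx.2

private theorem df_sub {S₁ S₂ : Part D} {m : List D} {a : ℕ} (h : S₁.DiscFill S₂ m a) :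
    S₁.Sub S₂ := by
  rcases h with ⟨_, _, rfl⟩ | ⟨_, V, _, hf⟩
  · exact sub_refl _
  · exact hf.sub

/-- What a step absorbs. -/
private theorem step_abs {S₁ S₂ : Part D} {d z : D} {s : Stp} (hst : S₁.St d s S₂ z)
    {R : Set D} (hR : R ⊆ S₁.R) {u o1 o' o2 v u' v' : List D}
    (h1 : S₁.hw d = u ++ ((o1 ++ (o' ++ o2)) ++ v)) (h2 : S₂.hw z = u' ++ (o' ++ v')) (hne : o' ≠ [])
    (ho : ∀ e ∈ o1 ++ (o' ++ o2), e ∈ R) (hu : ∀ e ∈ u', e ∉ R) (hv : ∀ e ∈ v', e ∉ R) :
    (o1 = [] ∨ o1 = [d] ∨ ∃ b t, o1 = t ++ [b] ∧ S₂.a b = d) ∧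
      (o2 = [] ∨ ∃ b t, o2 = b :: t ∧ S₂.a b = d) := by
  have hd : d ∈ S₁.B := (st_sub hst).2.1
  have hn := S₁.hw_nodup hd
  have ho1 : ∀ e ∈ o1, e ∈ R := fun e he => ho e (List.mem_append_left _ he)
  have ho2 : ∀ e ∈ o2, e ∈ R := fun e he => ho e (List.mem_append_right _ (List.mem_append_right _ he))
  obtain ⟨c, o'', rfl⟩ := List.exists_cons_of_ne_nil hne
  have hc : c ∈ R := ho c (List.mem_append_right _ (List.mem_append_left _ List.mem_cons_self))
  have e1 : S₁.hw d = (u ++ o1) ++ c :: (o'' ++ (o2 ++ v)) := by
    rw [h1]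
    simp
  have e2 : S₂.hw z = u' ++ c :: (o'' ++ v') := by
    rw [h2]
    simp
  cases s with
  | T =>
    obtain ⟨t0, t1, t2, hx, g0, g1, g2, g01, g12, g20, rfl, rfl⟩ := hst
    obtain ⟨r, hr⟩ := S₁.hw_cons hd
    have e3 := hw_face S₁ hx g0 g1 g2 g01 g12 g20 hr
    rw [e2] at e3
    cases u' with
    | nil =>
      rw [List.nil_append] at e3
      exact absurd (hR hc) (by rw [(List.cons.inj e3).1]; exact g1)
    | cons a1 u' =>
      rw [List.cons_append] at e3
      obtain ⟨_, e4⟩ := List.cons.inj e3
      cases u' with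
      | nil =>
        rw [List.nil_append] at e4
        exact absurd (hR hc) (by rw [(List.cons.inj e4).1]; exact g2)
      | cons a2 u' =>
        rw [List.cons_append] at e4
        obtain ⟨_, e5⟩ := List.cons.inj e4
        have e6 : (u ++ o1) ++ c :: (o'' ++ (o2 ++ v)) = (d :: u') ++ c :: (o'' ++ v') := by
          rw [← e1, hr, ← e5, List.cons_append]
        obtain ⟨e7, e8⟩ := nd_uniq e6 (by rw [← e1]; exact hn)
        have e9 : o2 ++ v = v' ++ [] := by
          rw [List.append_nil]
          exact List.append_cancel_left e8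
        constructor
        · by_cases h3 : o1 = []
          · exact Or.inl h3
          · refine Or.inr (Or.inl ?_)
            have h4 : u' = [] := last_nil (p := [d]) (e7.trans rfl) h3 ho1
              (fun e he => hu e (List.mem_cons_of_mem _ (List.mem_cons_of_mem _ he)))
            rw [h4] at e7
            rcases List.append_eq_singleton_iff.1 e7 with ⟨_, h5⟩ | ⟨_, h5⟩
            · exact h5
            · exact absurd h5 h3
        · by_cases h3 : o2 = []
          · exact Or.inl h3
          · exfalso
            have h4 := head_nil e9 h3 ho2 hv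
            rw [h4, List.nil_append, List.append_eq_nil_iff] at e9
            exact h3 e9.1
  | R k a =>
    obtain ⟨y1, u1, v1, f1, f2, f3⟩ := st_word_R hst
    obtain ⟨y, u0, v0, w0, hx, hy, f4, f5, f6, f7⟩ := hst
    have f8 : u1 ++ y1 :: v1 = u0 ++ y :: v0 := (List.cons.inj (f1.symm.trans f4)).2
    obtain ⟨f9, f10⟩ := List.append_inj f8 (by rw [f2, f5])
    obtain ⟨_, f11⟩ := List.cons.inj f10
    subst f11
    have f12 : y ≠ d := by
      rintro rfl
      rw [f4, List.nodup_cons] at hn
      exact hn.1 (by simp)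
    have f13 : S₂.a y = d := by
      have g1 := glue_y hx hy
      rw [(df_sub f7).2 y (by rw [g1]; exact f12.symm), g1]
    have e6 : (u ++ o1) ++ c :: (o'' ++ (o2 ++ v)) =
        ((d :: u0 ++ [y]) ++ u') ++ c :: (o'' ++ v') := by
      rw [← e1, f4, ← f3, e2]
      simp
    obtain ⟨e7, e8⟩ := nd_uniq e6 (by rw [← e1]; exact hn)
    have e9 : o2 ++ v = v' ++ [] := by
      rw [List.append_nil]
      exact List.append_cancel_left e8
    constructor
    · by_cases h3 : o1 = []
      · exact Or.inl h3
      · refine Or.inr (Or.inr ?_)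
        have h4 : u' = [] := last_nil e7 h3 ho1 hu
        rw [h4, List.append_nil] at e7
        rcases List.eq_nil_or_concat o1 with h5 | ⟨t, b, h5⟩
        · exact absurd h5 h3
        · rw [List.concat_eq_append] at h5
          rw [h5, ← List.append_assoc] at e7
          have h6 := (List.append_inj' e7 rfl).2
          have h7 : b = y := by
            injection h6
          exact ⟨b, t, h5, by rw [h7]; exact f13⟩
    · by_cases h3 : o2 = []
      · exact Or.inl h3
      · exfalso
        have h4 := head_nil e9 h3 ho2 hv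
        rw [h4, List.nil_append, List.append_eq_nil_iff] at e9
        exact h3 e9.1
  | L k a =>
    obtain ⟨y1, u1, v1, f1, f2, f3⟩ := st_word_L hst
    obtain ⟨y, u0, v0, w0, hx, hy, f4, f5, f6, f7⟩ := hst
    have f8 : u1 ++ y1 :: v1 = u0 ++ y :: v0 := (List.cons.inj (f1.symm.trans f4)).2
    obtain ⟨f9, f10⟩ := List.append_inj' f8 (by rw [List.length_cons, List.length_cons, f2, f5])
    subst f9
    have f12 : y ≠ d := by
      rintro rfl
      rw [f4, List.nodup_cons] at hn
      exact hn.1 (by simp)
    have f13 : S₂.a y = d := by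
      have g1 := glue_y hx hy
      rw [(df_sub f7).2 y (by rw [g1]; exact f12.symm), g1]
    have e6 : (u ++ o1) ++ c :: (o'' ++ (o2 ++ v)) =
        (d :: u') ++ c :: (o'' ++ (v' ++ y :: v0)) := by
      rw [← e1, f4, ← f3, e2]
      simp
    obtain ⟨e7, e8⟩ := nd_uniq e6 (by rw [← e1]; exact hn)
    have e9 : o2 ++ v = v' ++ y :: v0 := List.append_cancel_left e8
    constructor
    · by_cases h3 : o1 = []
      · exact Or.inl h3
      · refine Or.inr (Or.inl ?_)
        have h4 : u' = [] := last_nil (p := [d]) (e7.trans rfl) h3 ho1 hu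
        rw [h4] at e7
        rcases List.append_eq_singleton_iff.1 e7 with ⟨_, h5⟩ | ⟨_, h5⟩
        · exact h5
        · exact absurd h5 h3
    · by_cases h3 : o2 = []
      · exact Or.inl h3
      · refine Or.inr ?_
        have h4 := head_nil e9 h3 ho2 hv
        rw [h4, List.nil_append] at e9
        obtain ⟨b, t, rfl⟩ := List.exists_cons_of_ne_nil h3
        rw [List.cons_append] at e9
        exact ⟨b, t, rfl, by rw [(List.cons.inj e9).1]; exact f13⟩

private theorem sub_R' {S S₁ : Part D} (h : S.Sub S₁) : S.R ⊆ S₁.R := by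
  intro e he
  have h1 : S.f e ≠ e := he
  show S₁.f e ≠ e
  rw [h.1 e h1]
  exact h1

theorem abs_last (hP : P.Ok) (hx : x ∈ S.B) (h : Rn P S x w S' x') (hw : w ≠ []) :
    ∃ u o v t t2, Arc S S' x x' u o v (x :: t) t2 ∧ (o ≠ [] →
      (∀ b t', t = t' ++ [b] → S'.a b = x ∨ S'.a b ∈ bal S S' x (P.A + P.q)) ∧
      (∀ b t', t2 = b :: t' → S'.a b = x ∨ S'.a b ∈ bal S S' x (P.A + P.q))) := by
  revert hw
  induction h with
  | root => exact fun hw => absurd rfl hw
  | @step w S₁ d s S₂ z h hnd hst ih =>
    intro _
    have hs : S.Sub S₁ := rn_sub h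
    have hs12 : S₁.Sub S₂ := (st_sub hst).1
    have hzB : z ∈ S₂.B := (st_sub hst).2.2
    -- it is enough to treat the gate `z`
    suffices key : ∃ u o v t t2, Arc S S₂ x z u o v (x :: t) t2 ∧ (o ≠ [] →
        (∀ b t', t = t' ++ [b] → S₂.a b = x ∨ S₂.a b ∈ bal S S₂ x (P.A + P.q)) ∧
        (∀ b t', t2 = b :: t' → S₂.a b = x ∨ S₂.a b ∈ bal S S₂ x (P.A + P.q))) by
      obtain ⟨u, o, v, t, t2, k1, k2⟩ := key
      have hp : brul P S x (w ++ [s]) S₂ z = pick S S₂ z (tgt P S S₂ x) := rfl
      rw [hp]
      rcases pick_new (S := S) (S₁ := S₂) (z := z) (G := tgt P S S₂ x) with k3 | ⟨k3, _⟩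
      · rw [k3]
        exact ⟨u, o, v, t, t2, k1, k2⟩
      · have k4 := (pick_mem (S := S) (G := tgt P S S₂ x) hzB).1
        have k5 := k1.2.2.2.2 _ k4 k3.2
        obtain ⟨u', v', k6, _⟩ := arc_rot k1 hzB k5
        exact ⟨_, o, v', t, t2, k6, k2⟩
    -- transport of the old statements
    have tr : ∀ b, b ∈ S.hw x → b ≠ x → (S₁.a b = x ∨ S₁.a b ∈ bal S S₁ x (P.A + P.q)) →
        (S₂.a b = x ∨ S₂.a b ∈ bal S S₂ x (P.A + P.q)) := by
      intro b hb hbx hab
      have hbB : b ∈ S.B := ((mem_hw S hx).1 hb).1
      rcases hab with hab | hab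
      · have k1 : S₁.a b ≠ b := by
          rw [hab]
          exact hbx.symm
        rw [hs12.2 b k1]
        exact Or.inl hab
      · have k1 : S₁.a b ≠ b := by
          intro k2
          rw [k2] at hab
          exact (bal_sub _ hab).2 (S.B_sub_R hbB)
        rw [hs12.2 b k1]
        exact Or.inr (bal_mono hs hs12 hx _ hab)
    by_cases hw0 : w = []
    · subst hw0
      have h0 := rn_rchg h
      have e1 : S₁ = S := h0.1
      have e2 : d = x := h0.2
      subst e1
      subst e2
      obtain ⟨u', o', v', o1, o2, a1, a2, _, a4⟩ := arc_st hs hst (arc_root hx)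
      rw [List.nil_append, List.append_nil] at a1
      obtain ⟨r, hr⟩ := S₁.hw_cons hx
      have a5 : d ∈ o1 := a4 (by rw [hr]; exact List.mem_cons_self)
      obtain ⟨c, t, a6⟩ := List.exists_cons_of_ne_nil (List.ne_nil_of_mem a5)
      have a7 : c = d := by
        rw [a2, a6, List.cons_append] at hr
        exact (List.cons.inj hr).1
      rw [a7] at a6
      rw [a6] at a1
      refine ⟨u', o', v', t, o2, a1, fun hne => ?_⟩
      obtain ⟨b1, b2⟩ := step_abs hst (R := S₁.R) subset_rfl (u := []) (v := [])
        (by rw [List.nil_append, List.append_nil]; exact a2) a1.1 hne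
        (fun e he => S₁.B_sub_R ((mem_hw S₁ hx).1 (by rw [a2]; exact he)).1) a1.2.2.1 a1.2.2.2.1
      constructor
      · intro b t' hb
        rcases b1 with b1 | b1 | ⟨b', t'', b1, b3⟩
        · rw [a6] at b1
          exact absurd b1 (List.cons_ne_nil _ _)
        · rw [a6] at b1
          have b4 : t = [] := (List.cons.inj b1).2
          rw [hb] at b4
          exact absurd b4 (by simp)
        · rw [a6, hb, ← List.cons_append] at b1
          have b4 := (List.append_inj' b1 rfl).2
          have b5 : b = b' := by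
            injection b4
          rw [b5]
          exact Or.inl b3
      · intro b t' hb
        rcases b2 with b2 | ⟨b', t'', b2, b3⟩
        · rw [b2] at hb
          exact absurd hb (by simp)
        · rw [b2] at hb
          rw [← (List.cons.inj hb).1]
          exact Or.inl b3
    · obtain ⟨u, o, v, t, t2, a0, a0'⟩ := ih hw0
      have hdt : d ∈ tgt P S S₁ x := rn_gate hx h hw0 hnd
      have hdn : d ∉ S.R := (tgt_sub hs hdt).2.2
      have hdb : d ∈ bal S S₁ x (P.A + P.q) := tgt_bal hP hs hdt
      obtain ⟨u', o', v', o1, o2, a1, a2, _, _⟩ := arc_st hs hst a0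
      have hhw : ∀ e ∈ o, e ∈ S.hw x := by
        intro e he
        rw [a0.2.1]
        exact List.mem_append_right _ (List.mem_append_left _ he)
      have hoR : ∀ e ∈ o, e ∈ S.R := fun e he => S.B_sub_R ((mem_hw S hx).1 (hhw e he)).1
      refine ⟨u', o', v', t ++ o1, o2 ++ t2, ?_, fun hne => ?_⟩
      · rw [← List.cons_append]
        exact a1
      · have hone : o ≠ [] := by
          rw [a2]
          intro k
          rw [List.append_eq_nil_iff, List.append_eq_nil_iff] at k
          exact hne k.2.1
        obtain ⟨i1, i2⟩ := a0' hone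
        obtain ⟨b1, b2⟩ := step_abs hst (R := S.R) (sub_R' hs) (by rw [← a2]; exact a0.1) a1.1 hne
          (by rw [← a2]; exact hoR) a1.2.2.1 a1.2.2.2.1
        have hnx := S.hw_nodup hx
        have hnew : ∀ b, S₂.a b = d → (S₂.a b = x ∨ S₂.a b ∈ bal S S₂ x (P.A + P.q)) := by
          intro b hb
          rw [hb]
          exact Or.inr (bal_mono hs hs12 hx _ hdb)
        have hx1 : ∀ b, b ∈ t → b ≠ x := by
          intro b hb hbx
          rw [a0.2.1, List.cons_append, List.nodup_cons] at hnx
          apply hnx.1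
          rw [← hbx]
          exact List.mem_append_left _ hb
        have hx2 : ∀ b, b ∈ t2 → b ≠ x := by
          intro b hb hbx
          rw [a0.2.1, List.cons_append, List.nodup_cons] at hnx
          apply hnx.1
          rw [← hbx]
          exact List.mem_append_right _ (List.mem_append_right _ hb)
        have hm1 : ∀ b, b ∈ t → b ∈ S.hw x := by
          intro b hb
          rw [a0.2.1]
          exact List.mem_append_left _ (List.mem_cons_of_mem _ hb)
        have hm2 : ∀ b, b ∈ t2 → b ∈ S.hw x := by
          intro b hb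
          rw [a0.2.1]
          exact List.mem_append_right _ (List.mem_append_right _ hb)
        constructor
        · intro b t' hb
          rcases b1 with b1 | b1 | ⟨b', t'', b1, b3⟩
          · rw [b1, List.append_nil] at hb
            have hbt : b ∈ t := by rw [hb]; simp
            exact tr b (hm1 b hbt) (hx1 b hbt) (i1 b t' hb)
          · refine absurd (hoR d ?_) hdn
            rw [a2, b1]
            simp
          · rw [b1, ← List.append_assoc] at hb
            have b4 := (List.append_inj' hb rfl).2
            have b5 : b' = b := by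
              injection b4
            rw [← b5]
            exact hnew b' b3
        · intro b t' hb
          rcases b2 with b2 | ⟨b', t'', b2, b3⟩
          · rw [b2, List.nil_append] at hb
            have hbt : b ∈ t2 := by rw [hb]; simp
            exact tr b (hm2 b hbt) (hx2 b hbt) (i2 b t' hb)
          · rw [b2, List.cons_append] at hb
            rw [← (List.cons.inj hb).1]
            exact hnew b' b3

end SYS.BK
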