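import Pool.Agent.SYS.BK.RunB
import Pool.Agent.SYS.BK.LenB

/-!
# SYSS-BLK-AbsC: every gate of a block is reached by the exploration of a path (region level)

`abs_pathU`: the version of `abs_path` (`BK/AbsA`) with a region `U` in the place of the triangulation.  `gate_path`: every gate `d ≠ x` of the run of a block is the end of a run with
`m ≤ R₀` steps `T` under the rule `tr τ`, inside the region of the node.
-/

namespace SYS.BK

open Classical SST SYS.Part

variable {D : Type} [Finite D] {S U : Part D} {x e : D}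

private theorem rch_congr {ρ ρ' : List Stp → ℕ} {S S' : Part D} {x x' : D} {w h : List Stp}
    (hρ : ∀ h' : List Stp, h'.length ≤ h.length + w.length → ρ h' = ρ' h') (hr : Rch ρ h S x w S' x') : Rch ρ' h S x w S' x' := by
  induction w generalizing h S x with
  | nil => exact hr
  | cons s w ih =>
    obtain ⟨S₁, z, h1, h2⟩ := hr
    refine ⟨S₁, z, h1, ?_⟩
    rw [← hρ (h ++ [s]) (by simp)]
    refine ih (fun h' hl => hρ h' ?_) h2
    simp only [List.length_append, List.length_cons, List.length_nil] at hl ⊢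
    omega

private theorem tr_upd (τ : ℕ → Bool) (j : ℕ) (b : Bool) (h : List Stp) (hl : h.length ≤ j) :
    tr τ h = tr (Function.update τ (j + 1) b) h := by
  unfold tr
  rw [Function.update_of_ne (by omega)]

/-- `U.f` respects the revealed darts of a smaller region. -/
private theorem sub_f_mem {S U : Part D} (h : S.Sub U) (d : D) : U.f d ∈ S.R ↔ d ∈ S.R := by
  have key : ∀ e, e ∈ S.R → U.f e ∈ S.R := by
    intro e he
    rw [h.1 e he, mem_R_f]
    exact he
  constructor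
  · intro hd
    have h1 := key _ (key _ hd)
    rw [U.fff] at h1
    exact h1
  · exact key d

private theorem part_ne {U : Part D} {d : D} (hd : d ∈ U.R) : d ≠ U.f d ∧ U.f d ≠ U.f (U.f d) ∧ U.f (U.f d) ≠ d := by
  refine ⟨fun h => hd h.symm, fun h => ?_, fun h => ?_⟩
  · have h1 := U.f.injective h
    exact hd h1.symm
  · have h1 := U.fff d
    rw [h] at h1
    exact hd h1

private theorem cy0 {t0 t1 t2 : D} (h01 : t0 ≠ t1) (h20 : t2 ≠ t0) : cyc3 t0 t1 t2 t0 = t1 := by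
  rw [cyc3, Equiv.Perm.mul_apply, Equiv.swap_apply_of_ne_of_ne h01 h20.symm, Equiv.swap_apply_left]

private theorem cy1 {t0 t1 t2 : D} (h12 : t1 ≠ t2) (h20 : t2 ≠ t0) : cyc3 t0 t1 t2 t1 = t2 := by
  rw [cyc3, Equiv.Perm.mul_apply, Equiv.swap_apply_left, Equiv.swap_apply_of_ne_of_ne h20 h12.symm]

private theorem cy2 {t0 t1 t2 : D} : cyc3 t0 t1 t2 t2 = t0 := by
  rw [cyc3, Equiv.Perm.mul_apply, Equiv.swap_apply_right, Equiv.swap_apply_right]

private theorem cyn {t0 t1 t2 d : D} (h0 : d ≠ t0) (h1 : d ≠ t1) (h2 : d ≠ t2) : cyc3 t0 t1 t2 d = d := by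
  rw [cyc3, Equiv.Perm.mul_apply, Equiv.swap_apply_of_ne_of_ne h1 h2, Equiv.swap_apply_of_ne_of_ne h0 h1]

private theorem face_subU {S U : Part D} (h : S.Sub U) {x t0 t1 t2 : D} (hx : x ∈ S.B) (h0 : t0 ∉ S.R) (h1 : t1 ∉ S.R) (h2 : t2 ∉ S.R)
    (h01 : t0 ≠ t1) (h12 : t1 ≠ t2) (h20 : t2 ≠ t0) (ha : U.a x = t0) (hf1 : U.f t0 = t1) (hf2 : U.f t1 = t2) :
    (S.face x t0 t1 t2 hx h0 h1 h2 h01 h12 h20).Sub U := by
  have e0 : S.f t0 = t0 := not_not.1 h0
  have e1 : S.f t1 = t1 := not_not.1 h1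
  have e2 : S.f t2 = t2 := not_not.1 h2
  have hf3 : U.f t2 = t0 := by rw [← hf2, ← hf1, U.fff]
  refine ⟨fun d hd => ?_, fun d hd => ?_⟩
  · change (S.f * cyc3 t0 t1 t2) d ≠ d at hd
    show U.f d = (S.f * cyc3 t0 t1 t2) d
    rw [Equiv.Perm.mul_apply] at hd ⊢
    by_cases c0 : d = t0
    · rw [c0, cy0 h01 h20, e1, hf1]
    · by_cases c1 : d = t1
      · rw [c1, cy1 h12 h20, e2, hf2]
      · by_cases c2 : d = t2
        · rw [c2, cy2, e0, hf3]
        · rw [cyn c0 c1 c2] at hd ⊢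
          exact h.1 d hd
  · change (S.a * Equiv.swap x t0) d ≠ d at hd
    show U.a d = (S.a * Equiv.swap x t0) d
    rw [Equiv.Perm.mul_apply] at hd ⊢
    by_cases c0 : d = x
    · rw [c0, Equiv.swap_apply_left, S.af t0 e0, ha]
    · by_cases c1 : d = t0
      · rw [c1, Equiv.swap_apply_right, hx.2, ← ha, U.aa]
      · rw [Equiv.swap_apply_of_ne_of_ne c0 c1] at hd ⊢
        exact h.2 d hd

/-- The state after `m` steps. -/
private def St9 (S : Part D) (x : D) (U : Part D) (t : List D) (m : ℕ) (τ : ℕ → Bool) (S' : Part D) (g : D) : Prop :=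
  Rch (tr τ) [] S x (List.replicate m Stp.T) S' g ∧ S'.Sub U ∧ g ∈ S'.B ∧
    ∃ u v, S'.hw g = g :: (u ++ (t ++ v)) ∧ u.length + v.length = m

private theorem st9_step {S S' : Part D} {x g e : D} {U : Part D} {t : List D} {m : ℕ} {τ : ℕ → Bool} (h : St9 S x U t m τ S' g)
    (hg : U.a g ∉ S'.R) (hgU : U.a g ∈ U.R) (he : e = U.f (U.a g) ∨ e = U.f (U.f (U.a g))) :
    ∃ τ' S'', St9 S x U t (m + 1) τ' S'' e ∧ S''.R = S'.R ∪ {U.a g, U.f (U.a g), U.f (U.f (U.a g))} := by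
  obtain ⟨h1, h2, h4, u, v, h5, h6⟩ := h
  have k1 : U.f (U.a g) ∉ S'.R := fun h => hg ((sub_f_mem h2 _).1 h)
  have k2 : U.f (U.f (U.a g)) ∉ S'.R := fun h => k1 ((sub_f_mem h2 _).1 h)
  obtain ⟨n1, n2, n3⟩ := part_ne hgU
  have hle := face_subU h2 h4 hg k1 k2 n1 n2 n3 rfl rfl rfl
  have hw := hw_face S' h4 hg k1 k2 n1 n2 n3 h5
  have hR := face_R S' h4 hg k1 k2 n1 n2 n3
  have hB := face_B S' h4 hg k1 k2 n1 n2 n3
  obtain ⟨S'', hS''⟩ : ∃ S'', S'' = S'.face g (U.a g) (U.f (U.a g)) (U.f (U.f (U.a g))) h4 hg k1 k2 n1 n2 n3 := ⟨_, rfl⟩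
  rw [← hS''] at hle hw hR hB
  have hst : S'.St g Stp.T S'' (U.f (U.a g)) := ⟨U.a g, U.f (U.a g), U.f (U.f (U.a g)), h4, hg, k1, k2, n1, n2, n3, hS'', rfl⟩
  have b1 : U.f (U.a g) ∈ S''.B := by
    rw [hB]
    exact Or.inr (Or.inl rfl)
  have b2 : U.f (U.f (U.a g)) ∈ S''.B := by
    rw [hB]
    exact Or.inr (Or.inr rfl)
  have hrep : List.replicate (m + 1) Stp.T = List.replicate m Stp.T ++ [Stp.T] := List.replicate_succ'
  have hnx : S''.nx (U.f (U.a g)) = U.f (U.f (U.a g)) := by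
    have h := S''.hw_chain b1
    rw [hw] at h
    exact (List.isChain_cons_cons.1 h).1
  have key : ∀ b : Bool, e = (S''.nx ^ (if b then 1 else 0)) (U.f (U.a g)) →
      Rch (tr (Function.update τ (m + 1) b)) [] S x (List.replicate (m + 1) Stp.T) S'' e := by
    intro b hb
    rw [hrep, rch_append]
    refine ⟨S', g, rch_congr (ρ := tr τ) (fun h' hl => tr_upd τ m b h' ?_) h1, S'', U.f (U.a g), hst, rfl, ?_⟩
    · simp only [List.length_nil, List.length_replicate, Nat.zero_add] at hl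
      exact hl
    · rw [hb]
      unfold tr
      simp
  rcases he with he | he
  · refine ⟨Function.update τ (m + 1) false, S'', ⟨key false (by rw [he]; rfl), hle, by rw [he]; exact b1,
      U.f (U.f (U.a g)) :: u, v, by rw [he, hw]; rfl, ?_⟩, hR⟩
    rw [List.length_cons]
    omega
  · refine ⟨Function.update τ (m + 1) true, S'', ⟨key true (by rw [he]; exact hnx.symm), hle, by rw [he]; exact b2,
      u, v ++ [U.f (U.a g)], ?_, ?_⟩, hR⟩
    · have h7 := S''.hw_rot b1 (u := [U.f (U.a g)]) (v := u ++ (t ++ v)) (y := U.f (U.f (U.a g))) (by rw [hw]; rfl)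
      rw [he, h7]
      simp
    · rw [List.length_append, List.length_singleton]
      omega

private theorem fc_threeU {f : Equiv.Perm D} (hF : ∀ d, f (f (f d)) = d) {y d : D} (h : d ∈ fc f y) : y ∈ fc f d := by
  rcases h with h | h | h
  · rw [h]
    exact Or.inl rfl
  · right; right
    rw [h, hF]
    rfl
  · right; left
    rw [h, hF]

private theorem fc_RU {U S : Part D} (h : S.Sub U) {y d : D} (hd : d ∈ fc U.f y) : d ∈ S.R ↔ y ∈ S.R := by
  rcases hd with hd | hd | hd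
  · rw [hd]
  · rw [hd, sub_f_mem h]
  · rw [hd, sub_f_mem h, sub_f_mem h]

private theorem fc_balU {U S : Part D} (h : S.Sub U) {x y d : D} (hd : d ∈ fc U.f y) (j : ℕ) :
    d ∈ bal S U x j ↔ y ∈ bal S U x j := by
  have h2 : ∀ d, U.f d ∈ bal S U x j ↔ d ∈ bal S U x j := bal_fs (x := x) h j
  rcases hd with hd | hd | hd
  · rw [hd]
  · rw [hd, h2]
  · rw [hd, h2, h2]

private theorem absU_aux (h : S.Sub U) (hx : x ∈ S.B) {t : List D} (ht : S.hw x = x :: t) (j : ℕ) :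
    ∀ c : D, c ∈ bal S U x j → (∀ i < j, c ∉ bal S U x i) →
    ∃ τ S' g, St9 S x U t j τ S' g ∧ c ∈ fc U.f (U.a g) ∧ (∀ d ∈ S'.R, d ∈ S.R ∨ ∃ i < j, d ∈ bal S U x i) ∧
      (g = x ∧ j = 0 ∨ (g ∉ S.R ∧ U.a g ≠ g)) := by
  induction j with
  | zero =>
    intro c hc _
    refine ⟨fun _ => false, S, x, ⟨⟨rfl, rfl⟩, h, hx, [], [], by rw [ht]; simp, rfl⟩, hc.2, fun d hd => Or.inl hd,
      Or.inl ⟨rfl, rfl⟩⟩
  | succ j ih =>
    intro c hc hci
    have hcj : c ∉ bal S U x j := hci j (Nat.lt_succ_self j)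
    rcases bl_succ hc with h1 | ⟨e, he, h1⟩
    · exact absurd h1 hcj
    have he' : e ∈ fc U.f c := he
    have h1' : U.a e ∈ bal S U x j := h1
    have hcN : c ∉ S.R := (bal_sub (j + 1) hc).2
    have hcU : c ∈ U.R := (bal_sub (j + 1) hc).1
    have heN : e ∉ S.R := fun h2 => hcN ((fc_RU h he').1 h2)
    have heU : e ∈ U.R := (fc_RU (sub_refl U) he').2 hcU
    have hei : ∀ i < j + 1, e ∉ bal S U x i := fun i hi h2 => hci i hi ((fc_balU h he' i).1 h2)
    have hne : U.a e ≠ e := by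
      intro h2
      rw [h2] at h1'
      exact hei j (Nat.lt_succ_self j) h1'
    have hce : ∀ i < j, U.a e ∉ bal S U x i := by
      intro i hi h2
      have h3 : e ∈ nw S U := ⟨heU, heN⟩
      exact hei (i + 1) (by omega) (bal_adj h3 h2)
    obtain ⟨τ, S', g, h2, h3, h4, h5⟩ := ih (U.a e) h1' hce
    have hc'N : U.a e ∉ S.R := (bal_sub j h1').2
    have hc'U : U.a e ∈ U.R := (bal_sub j h1').1
    have hg : U.a g ∉ S'.R := by
      intro h6
      rcases h4 _ h6 with h7 | ⟨i, hi, h7⟩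
      · exact hc'N ((fc_RU h h3).2 h7)
      · exact hce i hi ((fc_balU h h3 i).2 h7)
    have hgU : U.a g ∈ U.R := (fc_RU (sub_refl U) h3).1 hc'U
    have hge : U.a e ≠ U.a g := by
      intro h6
      have h7 : e = g := U.a.injective h6
      rcases h5 with ⟨h8, h9⟩ | ⟨h8, -⟩
      · exact heN (by rw [h7, h8]; exact hx.1)
      · have h9 : g ∈ S'.R := h2.2.2.1.1
        rcases h4 g h9 with h10 | ⟨i, hi, h10⟩
        · exact h8 h10
        · exact hei i (by omega) (by rw [h7]; exact h10)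
    have h6 : U.a e = U.f (U.a g) ∨ U.a e = U.f (U.f (U.a g)) := by
      rcases h3 with h3 | h3 | h3
      · exact absurd h3 hge
      · exact Or.inl h3
      · exact Or.inr h3
    obtain ⟨τ', S'', h7, h8⟩ := st9_step h2 hg hgU h6
    refine ⟨τ', S'', U.a e, h7, ?_, ?_, Or.inr ⟨hc'N, ?_⟩⟩
    · rw [U.aa]
      exact fc_threeU U.fff he'
    · intro d hd
      rw [h8] at hd
      have h9 : ∀ d, d ∈ fc U.f (U.a g) → d ∈ bal S U x j := by
        intro d hd
        rw [fc_balU h hd j, ← fc_balU h h3 j]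
        exact h1'
      rcases hd with hd | hd
      · rcases h4 d hd with h10 | ⟨i, hi, h10⟩
        · exact Or.inl h10
        · exact Or.inr ⟨i, by omega, h10⟩
      · exact Or.inr ⟨j, Nat.lt_succ_self j, h9 d hd⟩
    · rw [U.aa]
      exact hne.symm

theorem abs_pathU (h : S.Sub U) (hx : x ∈ S.B) {r : ℕ} (he : e ∈ bal S U x r) (hb : U.a e = e ∨ (U.a e ∈ S.R ∧ U.a e ≠ x)) {t : List D}
    (ht : S.hw x = x :: t) :
    ∃ (m : ℕ) (τ : ℕ → Bool) (S' : Part D) (u v : List D), 1 ≤ m ∧ m ≤ r + 1 ∧ Rch (tr τ) [] S x (List.replicate m Stp.T) S' e ∧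
      S'.Sub U ∧ S'.hw e = e :: (u ++ (t ++ v)) ∧ u.length + v.length = m := by
  have hex : ∃ j, e ∈ bal S U x j := ⟨r, he⟩
  have hj := Nat.find_spec hex
  have hr : Nat.find hex ≤ r := Nat.find_min' hex he
  have hlt : ∀ i < Nat.find hex, e ∉ bal S U x i := fun i hi => Nat.find_min hex hi
  obtain ⟨τ, S', g, h2, h3, h4, h5⟩ := absU_aux h hx ht (Nat.find hex) e hj hlt
  have heN : e ∉ S.R := (bal_sub _ hj).2
  have heU : e ∈ U.R := (bal_sub _ hj).1
  have hg : U.a g ∉ S'.R := by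
    intro h6
    rcases h4 _ h6 with h7 | ⟨i, hi, h7⟩
    · exact heN ((fc_RU h h3).2 h7)
    · exact hlt i hi ((fc_balU h h3 i).2 h7)
  have hgU : U.a g ∈ U.R := (fc_RU (sub_refl U) h3).1 heU
  have hge : e ≠ U.a g := by
    intro h6
    have h7 : U.a e = g := by rw [h6, U.aa]
    rcases h5 with ⟨h8, -⟩ | ⟨h8, h9⟩
    · rcases hb with hb | hb
      · rw [hb] at h7
        exact heN (by rw [h7, h8]; exact hx.1)
      · exact hb.2 (h7.trans h8)
    · rcases hb with hb | hb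
      · rw [hb] at h7
        rw [h7] at h6
        exact h9 h6.symm
      · exact h8 (h7 ▸ hb.1)
  have h6 : e = U.f (U.a g) ∨ e = U.f (U.f (U.a g)) := by
    rcases h3 with h3 | h3 | h3
    · exact absurd h3 hge
    · exact Or.inl h3
    · exact Or.inr h3
  obtain ⟨τ', S'', ⟨k1, k2, -, u, v, k4, k5⟩, -⟩ := st9_step h2 hg hgU h6
  exact ⟨Nat.find hex + 1, τ', S'', u, v, by omega, by omega, k1, k2, k4, k5⟩

/-- Every gate `d ≠ x` of a block is the end of a path exploration inside the region of the node. -/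
theorem gate_path {P : Prm} (hP : P.Ok) {w : List Stp} {Z : Part D} {z d : D} (hx : x ∈ S.B) (h : BR (nxt P S x) S x w Z z)
    (hd : nxt P S x Z = some d) (hw : w ≠ []) {t : List D} (ht : S.hw x = x :: t) :
    ∃ (m : ℕ) (τ : ℕ → Bool) (Y : Part D) (u v : List D), 1 ≤ m ∧ m ≤ P.R0 ∧ Rch (tr τ) [] S x (List.replicate m Stp.T) Y d ∧
      Y.Sub Z ∧ Y.hw d = d :: (u ++ (t ++ v)) ∧ u.length + v.length = m := by
  obtain ⟨h1, -, h2⟩ := node_gate hx h hd
  rcases h2 with ⟨h3, -, -⟩ | ⟨-, h3⟩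
  · exact absurd h3 hw
  have hs := br_sub h
  have h4 := tgt_balk hP hs h3
  obtain ⟨m, τ, Y, u, v, k1, k2, k3⟩ := abs_pathU hs hx h4 (Or.inl h1.2) ht
  exact ⟨m, τ, Y, u, v, k1, by unfold Prm.R0; omega, k3⟩

end SYS.BK
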