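import Pool.Agent.SYS.BK.Len

/-!
# SYSS-BLK-Alt: the run of a block in a triangulation: finished, or a closing

`run_alt`: the planar steps of `T` (`alt`) are followed until the block is done or there is a closing; the length
of the run is bounded (`rn_len`).  `run_excl`: the words of two nodes of the same triangulation are comparable
(`rchg_cmp`), the node of a closing is a proper ancestor of the finished block, so its next step is planar
(`stt_not`).
-/

namespace SYS.BK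

open Classical SST SYS.Part

variable {n g : ℕ} {P : Prm} {S : Part (Fin (6 * n))} {x : Fin (6 * n)} {l : List (Fin (6 * n))} {p F κ : ℕ}
    {Q : List ℕ} {T : Tri (Fin (6 * n))}

/-- A closing at the gate `d`. -/
def Clo (S : Part (Fin (6 * n))) (T : Tri (Fin (6 * n))) (d : Fin (6 * n)) : Prop :=
  (∃ u v, S.NSt T d u v) ∨ (∃ u v, S.Sep T d u v) ∨ S.Mrg T d

theorem rn_typ (hS : S.Typ (x :: l) (p :: Q) F κ) {w : List Stp} {S' : Part (Fin (6 * n))} {x' : Fin (6 * n)} (h : Rn P S x w S' x') :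
    WOk p w ∧ ∃ F', F' + wvol w = F ∧ S'.Typ (x' :: l) (wend p w :: Q) F' κ :=
  rchg_typ (brul_rul P S x) hS (rn_rchg h)

theorem run_alt (hP : P.Ok) (hS : S.Typ (x :: l) (p :: Q) F κ) (hT : T ∈ S.Ext g) (hc : S.HConn T) (ho : κ < g ∨ l ≠ []) :
    (∃ w S' x', Blk P S x w S' x' ∧ S'.Le T ∧ S'.HConn T) ∨
      ∃ w S₁ d, Rn P S x w S₁ d ∧ ¬ Done P S S₁ x ∧ S₁.Le T ∧ S₁.HConn T ∧ Clo S₁ T d := by
  have hx : x ∈ S.B := hS.hl.1 x List.mem_cons_self
  have key : ∀ m : ℕ, (∃ w S' x', Blk P S x w S' x' ∧ S'.Le T ∧ S'.HConn T) ∨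
      (∃ w S₁ d, Rn P S x w S₁ d ∧ ¬ Done P S S₁ x ∧ S₁.Le T ∧ S₁.HConn T ∧ Clo S₁ T d) ∨
      ∃ w S₁ d, w.length = m ∧ Rn P S x w S₁ d ∧ ¬ Done P S S₁ x ∧ S₁.Le T ∧ S₁.HConn T := by
    intro m
    induction m with
    | zero =>
      right; right
      exact ⟨[], S, x, rfl, Rn.root, fun h => h.1 hx.2, hT.2, hc⟩
    | succ m ih =>
      rcases ih with ih | ih | ⟨w, S₁, d, hw, hr, hnd, hle, hc1⟩
      · exact Or.inl ih
      · exact Or.inr (Or.inl ih)
      · obtain ⟨-, F', -, ht⟩ := rn_typ hS hr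
        rcases alt ht (⟨hT.1, hle⟩ : T ∈ S₁.Ext g) hc1 ho with ⟨s, S₂, z, hst, hle2, hc2⟩ | h2
        · have hr2 := Rn.step hr hnd hst
          by_cases hd : Done P S S₂ x
          · exact Or.inl ⟨_, _, _, ⟨hr2, hd⟩, hle2, hc2⟩
          · refine Or.inr (Or.inr ⟨_, _, _, ?_, hr2, hd, hle2, hc2⟩)
            rw [List.length_append, hw]
            rfl
        · exact Or.inr (Or.inl ⟨w, S₁, d, hr, hnd, hle, hc1, h2⟩)
  rcases key (P.K + 1) with h | h | ⟨w, S₁, d, hw, hr, -⟩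
  · exact Or.inl h
  · exact Or.inr h
  · exfalso
    have := rn_len hP hx hr
    omega

theorem run_excl (hS : S.Typ (x :: l) (p :: Q) F κ) (hT : T ∈ S.Ext g) (ho : κ < g ∨ l ≠ []) {w w' : List Stp}
    {S' S₁ : Part (Fin (6 * n))} {x' d : Fin (6 * n)} (h : Blk P S x w S' x') (hL : S'.Le T) (hc : S'.HConn T)
    (h1 : Rn P S x w' S₁ d) (hd : ¬ Done P S S₁ x) (hL1 : S₁.Le T) (hc1 : S₁.HConn T) : ¬ Clo S₁ T d := by
  intro hclo
  have hsame : w = w' → False := by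
    rintro rfl
    obtain ⟨h2, -⟩ := rchg_unique (rn_rchg h.1) (rn_rchg h1) ((le_iff_sub _ T).1 hL) ((le_iff_sub _ T).1 hL1)
    rw [← h2] at hd
    exact hd h.2
  rcases rchg_cmp (brul_rul P S x) hS hT ho (rn_rchg h.1) (rn_rchg h1) hL hL1 hc hc1 with ⟨v, hv⟩ | ⟨v, hv⟩
  · subst hv
    have hv : v ≠ [] := by
      rintro rfl
      exact hsame (List.append_nil w).symm
    obtain ⟨S₂, d₂, h2, h3⟩ := rn_split h1
    have hL2 := sub_le (rchg_sub h3) hL1
    obtain ⟨h4, -⟩ := rchg_unique (rn_rchg h.1) (rn_rchg h2) ((le_iff_sub _ T).1 hL) ((le_iff_sub _ T).1 hL2)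
    have h5 := (rn_anc h1 (rn_rchg h2) h3).2 hv
    rw [← h4] at h5
    exact h5 h.2
  · subst hv
    obtain ⟨S₂, d₂, h2, h3⟩ := rn_split h.1
    have hL2 := sub_le (rchg_sub h3) hL
    obtain ⟨h4, h5⟩ := rchg_unique (rn_rchg h2) (rn_rchg h1) ((le_iff_sub _ T).1 hL2) ((le_iff_sub _ T).1 hL1)
    rw [h4, h5] at h3
    cases v with
    | nil => exact hsame (List.append_nil w')
    | cons s v =>
      obtain ⟨S₃, z, hst, h6⟩ := h3
      have hL3 := sub_le (rchg_sub h6) hL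
      have hc3 := rchg_hconn h6 hL hc
      obtain ⟨-, F', -, ht⟩ := rn_typ hS h1
      obtain ⟨k1, k2, k3⟩ := stt_not ht (⟨hT.1, hL1⟩ : T ∈ S₁.Ext g) ho ⟨S₃, z, hst, hL3, hc3⟩
      rcases hclo with ⟨a, b, hab⟩ | ⟨a, b, hab⟩ | hm
      · exact k1 a b hab
      · exact k2 a b hab
      · exact k3 hm

end SYS.BK
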