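import Pool.Agent.SYS.BK.LenB

/-!
# SYSS-BLK-AltB: the run of a block in a triangulation: finished, or a closing

`b` any rule whose gates are in the hole of the run and whose runs have less than `K` steps (for `b = nxt P S x`: `node_gate`, `node_len`).

`br_alt`: the planar steps of `T` are followed until the end or a closing.  `br_excl`: the two words are comparable.
-/

namespace SYS.BK

open Classical SST SYS.Part

variable {n g : ℕ} {b : Part (Fin (6 * n)) → Option (Fin (6 * n))} {S : Part (Fin (6 * n))} {x : Fin (6 * n)}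
    {l : List (Fin (6 * n))} {p F κ K : ℕ} {Q : List ℕ} {T : Tri (Fin (6 * n))}

theorem br_alt (hlen : ∀ w Z z d, BR b S x w Z z → b Z = some d → w.length < K)
    (hgate : ∀ w Z z d, BR b S x w Z z → b Z = some d → d ∈ Z.B ∧ Z.s.SameCycle z d)
    (hS : S.Typ (x :: l) (p :: Q) F κ) (hT : T ∈ S.Ext g) (hc : S.HConn T) (ho : κ < g ∨ l ≠ []) :
    (∃ w S' z', BEnd b S x (w, S', z') ∧ S'.Le T ∧ S'.HConn T) ∨
      ∃ w S₁ z d, BR b S x w S₁ z ∧ b S₁ = some d ∧ d ∈ S₁.B ∧ S₁.s.SameCycle z d ∧ S₁.Le T ∧ S₁.HConn T ∧ Closing S₁ T d := by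
  have key : ∀ m : ℕ, ((∃ w S' z', BEnd b S x (w, S', z') ∧ S'.Le T ∧ S'.HConn T) ∨
      ∃ w S₁ z d, BR b S x w S₁ z ∧ b S₁ = some d ∧ d ∈ S₁.B ∧ S₁.s.SameCycle z d ∧ S₁.Le T ∧ S₁.HConn T ∧ Closing S₁ T d) ∨
      ∃ w S₁ z d, w.length = m ∧ BR b S x w S₁ z ∧ b S₁ = some d ∧ S₁.Le T ∧ S₁.HConn T := by
    intro m
    induction m with
    | zero =>
      cases hb : b S with
      | none => exact Or.inl (Or.inl ⟨[], S, x, ⟨⟨rfl, rfl⟩, hb⟩, hT.2, hc⟩)
      | some d => exact Or.inr ⟨[], S, x, d, rfl, ⟨rfl, rfl⟩, hb, hT.2, hc⟩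
    | succ m ih =>
      rcases ih with ih | ⟨w, S₁, z, d, hw, hr, hb, hle, hc1⟩
      · exact Or.inl ih
      · obtain ⟨hd, hz⟩ := hgate w S₁ z d hr hb
        obtain ⟨-, F', -, ht⟩ := br_typ hS hr
        rcases alt (typ_repl ht hd hz) (⟨hT.1, hle⟩ : T ∈ S₁.Ext g) hc1 ho with ⟨s, S₂, z₂, hst, hle2, hc2⟩ | h2
        · have hr2 : BR b S x (w ++ [s]) S₂ z₂ := br_append.2 ⟨S₁, z, hr, d, S₂, z₂, hb, hd, hz, hst, rfl, rfl⟩
          cases hb2 : b S₂ with
          | none => exact Or.inl (Or.inl ⟨_, _, _, ⟨hr2, hb2⟩, hle2, hc2⟩)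
          | some d₂ =>
            refine Or.inr ⟨_, _, _, d₂, ?_, hr2, hb2, hle2, hc2⟩
            rw [List.length_append, hw]
            rfl
        · exact Or.inl (Or.inr ⟨w, S₁, z, d, hr, hb, hd, hz, hle, hc1, h2⟩)
  rcases key K with h | ⟨w, S₁, z, d, hw, hr, hb, -⟩
  · exact h
  · exfalso
    have := hlen w S₁ z d hr hb
    omega

theorem br_excl (hS : S.Typ (x :: l) (p :: Q) F κ) (hT : T ∈ S.Ext g) (ho : κ < g ∨ l ≠ []) {w w' : List Stp}
    {S' S₁ : Part (Fin (6 * n))} {z' z d : Fin (6 * n)} (h : BEnd b S x (w, S', z')) (hL : S'.Le T) (hc : S'.HConn T)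
    (h1 : BR b S x w' S₁ z) (hd : b S₁ = some d) (hL1 : S₁.Le T) (hc1 : S₁.HConn T) : ¬ Closing S₁ T d := by
  intro hclo
  obtain ⟨h0, hn⟩ := h
  have h0' : BR b S x w S' z' := h0
  have hn' : b S' = none := hn
  have hx : x ∈ S.B := hS.hl.1 x List.mem_cons_self
  obtain ⟨g1, g2⟩ := rb_rul b [] S x hx
  have hne : S' ≠ S₁ := by
    intro he
    rw [he, hd] at hn'
    exact absurd hn' (by simp)
  have hr0 := br_rchg (h := []) h0'
  have hr1 := br_rchg (h := []) h1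
  rcases rchg_cmp (rb_rul b) (typ_repl hS g1 g2) hT ho hr0 hr1 hL hL1 hc hc1 with ⟨v, hv⟩ | ⟨v, hv⟩
  · subst hv
    obtain ⟨Z, z₂, h2, h3⟩ := br_append.1 h1
    have hL2 := sub_le (br_sub h3) hL1
    obtain ⟨h4, -⟩ := rchg_unique hr0 (br_rchg (h := []) h2) ((le_iff_sub _ T).1 hL) ((le_iff_sub _ T).1 hL2)
    subst h4
    cases v with
    | nil => exact hne h3.1.symm
    | cons s v =>
      obtain ⟨e, Z₁, z₁, hb, -⟩ := h3
      rw [hn'] at hb
      exact absurd hb (by simp)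
  · subst hv
    obtain ⟨Z, z₂, h2, h3⟩ := br_append.1 h0'
    have hL2 := sub_le (br_sub h3) hL
    obtain ⟨h4, -⟩ := rchg_unique (br_rchg (h := []) h2) hr1 ((le_iff_sub _ T).1 hL2) ((le_iff_sub _ T).1 hL1)
    subst h4
    cases v with
    | nil => exact hne h3.1
    | cons s v =>
      obtain ⟨e, Z₁, z₁, hb, he, hz, hst, h5⟩ := h3
      have h6 : e = d := Option.some.inj (hb.symm.trans hd)
      subst h6
      have hL3 := sub_le (br_sub h5) hL
      have hc3 := rchg_hconn (br_rchg (h := []) h5) hL hc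
      obtain ⟨-, F', -, ht⟩ := br_typ hS h2
      obtain ⟨k1, k2, k3⟩ := stt_not (typ_repl ht he hz) (⟨hT.1, hL1⟩ : T ∈ Z.Ext g) ho ⟨Z₁, z₁, hst, hL3, hc3⟩
      rcases hclo with ⟨a, c, hac⟩ | ⟨a, c, hac⟩ | hm
      · exact k1 a c hac
      · exact k2 a c hac
      · exact k3 hm

end SYS.BK
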