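import Pool.Agent.SYS.BK.Defs

/-!
# SYSS-BLK-Arc: the new boundary darts are one arc of the hole

PLAN.
* `arc_root`: `Arc S S x x [] (S.hw x) [] [] []`; a boundary dart of `S` is in `S.R`.
* `arc_rot`: `S₁.hw z = u ++ (o ++ v)`; `d ∈ u`: `u = u1 ++ d :: u2`, `hw_rot`: `hw d = d :: (u2 ++ o ++ v ++ u1)`.  `d ∈ v`: `v = v1 ++ d :: v2`: `hw d = d :: v2 ++ u ++ o ++ v1`.
* `arc_st`: `T`: `hw_face`: `hw t1 = t1 :: t2 :: r` if `hw d = d :: r`; `face_B`, `face_R`.  `d` is the head of `u ++ (o ++ v)`: if it is the head of `u` then `u' = t1 :: t2 :: u.tail`; if `u = []` and it is the head of `o`: `o' = o.tail`, `t1' = t1 ++ [d]` (`o1 = [d]`);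
  if `u = o = []` it is the head of `v`: `u' = [t1, t2]`, `v' = v.tail` .  `L`, `R`: `hw d = d :: (u0 ++ y :: v0)`, the new word of `z` is `v0` resp. `u0` (`hw_glue_split_right / left`, `fil_hw`; see `st_R_aux`, `st_L_aux` in `Lib/St.lean`): an infix of
  `u ++ (o ++ v)`; an infix of `u ++ (o ++ v)` is `u' ++ (o' ++ v')` with `u'`, `o'`, `v'` infixes (general list lemma: `List.append_eq_append_iff`; prove it for `drop` and for `take`).  `o = o1 ++ (o' ++ o2)`.
  Boundary darts of `S₂`: `glue_B`, `FillBy.B` (swallowed darts are removed): they are boundary darts of `S₁`, not `d`, not `y`, not in the swallowed word.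
  `u'.length + v'.length + o'.length + cs s = ...` is `st_typ`'s perimeter; we only need `o.length ≤ o'.length + cs s`, and `u.length + v.length ≤ u'.length + v'.length + cs s`.
* `arc_pick`: an element `e` of `G` is in `u` or `v` (not in `S.R`).  If some element is in `u`: `e = nx^i z` with `i < |u|` and all `nx^m z`, `m ≤ i`, in `u`: `fw`, so the first case of `pick`.  Otherwise `e ∈ v`: `e = nx⁻¹^(m+1) z` with `m < |v|` (position from the end; copy `hw_pos`, `hw_neg` from `Reg/Loc.lean`).
-/

namespace SYS.BK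

open Classical SST SYS.Part

variable {D : Type} [Finite D] {S S₁ S₂ : Part D} {x d z : D} {u o v t1 t2 : List D} {s : Stp}

/-! ### Lists -/

/-- drop -/
private theorem li_drop {α : Type} {X w u o v : List α} (h : X ++ w = u ++ (o ++ v)) :
    ∃ x1 u' o1 o' x3 v', X = x1 ++ (o1 ++ x3) ∧ u = x1 ++ u' ∧ o = o1 ++ o' ∧ v = x3 ++ v' ∧ w = u' ++ (o' ++ v') := by
  rcases List.append_eq_append_iff.1 h with ⟨r, h1, h2⟩ | ⟨r, h1, h2⟩
  · exact ⟨X, r, [], o, [], v, by simp, h1, rfl, rfl, h2⟩
  · rcases List.append_eq_append_iff.1 h2 with ⟨r', h3, h4⟩ | ⟨r', h3, h4⟩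
    · refine ⟨u, [], o, [], r', w, ?_, by simp, by simp, h4, by simp⟩
      rw [h1, h3]
    · exact ⟨u, [], r, r', [], v, by rw [h1]; simp, by simp, h3, rfl, by rw [h4]; simp⟩

/-- take -/
private theorem li_take {α : Type} {Y w u o v : List α} (h : w ++ Y = u ++ (o ++ v)) :
    ∃ u' y1 o' o2 v' y3, Y = y1 ++ (o2 ++ y3) ∧ u = u' ++ y1 ∧ o = o' ++ o2 ∧ v = v' ++ y3 ∧ w = u' ++ (o' ++ v') := by
  have h' : Y.reverse ++ w.reverse = v.reverse ++ (o.reverse ++ u.reverse) := by
    rw [← List.reverse_append, h]
    simp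
  obtain ⟨x1, u', o1, o', x3, v', h1, h2, h3, h4, h5⟩ := li_drop h'
  refine ⟨v'.reverse, x3.reverse, o'.reverse, o1.reverse, u'.reverse, x1.reverse, ?_, ?_, ?_, ?_, ?_⟩
  · rw [← List.reverse_reverse Y, h1]
    simp
  · rw [← List.reverse_reverse u, h4]
    simp
  · rw [← List.reverse_reverse o, h3]
    simp
  · rw [← List.reverse_reverse v, h2]
    simp
  · rw [← List.reverse_reverse w, h5]
    simp

private theorem disc_B {G S₂ : Part D} {u : List D} {a : ℕ} (h : G.DiscFill S₂ u a) : S₂.B = G.B \ {d | d ∈ u} := by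
  rcases h with ⟨h1, -, h2⟩ | ⟨-, V, -, hf⟩
  · rw [h2, h1]
    simp
  · exact hf.B

private theorem ne_xy {S : Part D} {x y : D} (hx : x ∈ S.B) {u v : List D} (hw : S.hw x = x :: (u ++ y :: v)) : x ≠ y := by
  have h := S.hw_nodup hx
  rw [hw, List.nodup_cons] at h
  intro h1
  apply h.1
  rw [← h1]
  simp

theorem arc_root (hx : x ∈ S.B) : Arc S S x x [] (S.hw x) [] [] [] := by
  refine ⟨by simp, by simp, by simp, by simp, ?_⟩
  intro d hd hd'
  exact absurd (S.B_sub_R hd) hd'

theorem arc_rot (ha : Arc S S₁ x z u o v t1 t2) (hz : z ∈ S₁.B) (hd : d ∈ u ∨ d ∈ v) :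
    ∃ u' v', Arc S S₁ x d (d :: u') o v' t1 t2 ∧ u'.length + 1 + v'.length = u.length + v.length := by
  obtain ⟨a1, a2, a3, a4, a5⟩ := ha
  rcases hd with hd | hd
  · obtain ⟨u1, u2, rfl⟩ := List.append_of_mem hd
    have h1 : S₁.hw z = u1 ++ d :: (u2 ++ (o ++ v)) := by
      rw [a1]
      simp
    have h2 := S₁.hw_rot hz h1
    refine ⟨u2, v ++ u1, ⟨by rw [h2]; simp, a2, ?_, ?_, ?_⟩, ?_⟩
    · intro e he
      exact a3 e (List.mem_append_right _ he)
    · intro e he
      rcases List.mem_append.1 he with he | he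
      · exact a4 e he
      · exact a3 e (List.mem_append_left _ he)
    · intro e he he'
      rcases a5 e he he' with h3 | h3
      · rcases List.mem_append.1 h3 with h3 | h3
        · exact Or.inr (List.mem_append_right _ h3)
        · exact Or.inl h3
      · exact Or.inr (List.mem_append_left _ h3)
    · simp only [List.length_append, List.length_cons]
      omega
  · obtain ⟨v1, v2, rfl⟩ := List.append_of_mem hd
    have h1 : S₁.hw z = (u ++ (o ++ v1)) ++ d :: v2 := by
      rw [a1]
      simp
    have h2 := S₁.hw_rot hz h1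
    refine ⟨v2 ++ u, v1, ⟨by rw [h2]; simp, a2, ?_, ?_, ?_⟩, ?_⟩
    · intro e he
      rw [← List.cons_append] at he
      rcases List.mem_append.1 he with he | he
      · exact a4 e (List.mem_append_right _ he)
      · exact a3 e he
    · intro e he
      exact a4 e (List.mem_append_left _ he)
    · intro e he he'
      rw [← List.cons_append]
      rcases a5 e he he' with h3 | h3
      · exact Or.inl (List.mem_append_right _ h3)
      · rcases List.mem_append.1 h3 with h3 | h3
        · exact Or.inr h3
        · exact Or.inl (List.mem_append_left _ h3)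
    · simp only [List.length_append, List.length_cons]
      omega

/-- the new word is an infix of the old word -/
private theorem arc_infix (hd : d ∈ S₁.B) (ha : Arc S S₁ x d u o v t1 t2) {X W Y : List D}
    (h : S₁.hw d = X ++ (W ++ Y)) (hdX : d ∈ X) (hW : S₂.hw z = W) (hB : ∀ e ∈ S₂.B, e ∈ S₁.B ∧ e ∉ X ∧ e ∉ Y)
    {n : ℕ} (hn : X.length + Y.length ≤ n) :
    ∃ u' o' v' o1 o2, Arc S S₂ x z u' o' v' (t1 ++ o1) (o2 ++ t2) ∧ o = o1 ++ (o' ++ o2) ∧ o1.length + o2.length ≤ n ∧
      (d ∈ o → d ∈ o1) := by
  obtain ⟨a1, a2, a3, a4, a5⟩ := ha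
  have hnd := S₁.hw_nodup hd
  obtain ⟨x1, u', o1, o', x3, v', b1, b2, b3, b4, b5⟩ := li_drop (h.symm.trans a1)
  obtain ⟨u'', y1, o'', o2, v'', y3, c1, c2, c3, c4, c5⟩ := li_take b5
  refine ⟨u'', o'', v'', o1, o2, ⟨hW.trans c5, ?_, ?_, ?_, ?_⟩, ?_, ?_, ?_⟩
  · rw [a2, b3, c3]
    simp
  · intro e he
    apply a3
    rw [b2, c2]
    simp [he]
  · intro e he
    apply a4
    rw [b4, c4]
    simp [he]
  · intro e he he'
    obtain ⟨h1, h2, h3⟩ := hB e he
    rcases a5 e h1 he' with h4 | h4
    · rw [b2, c2, List.mem_append, List.mem_append] at h4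
      rcases h4 with h4 | h4 | h4
      · exact absurd (by rw [b1]; exact List.mem_append_left _ h4) h2
      · exact Or.inl h4
      · exact absurd (by rw [c1]; exact List.mem_append_left _ h4) h3
    · rw [b4, c4, List.mem_append, List.mem_append] at h4
      rcases h4 with h4 | h4 | h4
      · exact absurd (by rw [b1]; exact List.mem_append_right _ (List.mem_append_right _ h4)) h2
      · exact Or.inr h4
      · exact absurd (by rw [c1]; exact List.mem_append_right _ (List.mem_append_right _ h4)) h3
  · rw [b3, c3]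
  · have e1 := congrArg List.length b1
    have e2 := congrArg List.length c1
    simp only [List.length_append] at e1 e2
    omega
  · intro hdo
    rw [b3] at hdo
    rcases List.mem_append.1 hdo with h1 | h1
    · exact h1
    · exfalso
      rw [h, b5] at hnd
      exact (List.nodup_append.1 hnd).2.2 d hdX d
        (List.mem_append_right _ (List.mem_append_left _ h1)) rfl

theorem arc_st (hs : S.Sub S₁) (hst : S₁.St d s S₂ z) (ha : Arc S S₁ x d u o v t1 t2) :
    ∃ u' o' v' o1 o2, Arc S S₂ x z u' o' v' (t1 ++ o1) (o2 ++ t2) ∧ o = o1 ++ (o' ++ o2) ∧ o1.length + o2.length ≤ cs s ∧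
      (d ∈ o → d ∈ o1) := by
  cases s with
  | T =>
    obtain ⟨r, t, hw, hw'⟩ := st_word_T hst
    obtain ⟨t0, t1', t2', hd, h0, h1, h2, h01, h12, h20, rfl, rfl⟩ := hst
    have hface := hw_face S₁ hd h0 h1 h2 h01 h12 h20 hw
    have e1 : t = t2' := by
      rw [hw'] at hface
      simpa using hface
    subst e1
    obtain ⟨a1, a2, a3, a4, a5⟩ := ha
    have hnd := S₁.hw_nodup hd
    have hr : [d] ++ r = u ++ (o ++ v) := hw.symm.trans a1
    obtain ⟨x1, u', o1, o', x3, v', b1, b2, b3, b4, b5⟩ := li_drop hr
    have hz1 : z ∉ S.R := fun h => h1 (hs.R_sub h)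
    have hz2 : t ∉ S.R := fun h => h2 (hs.R_sub h)
    refine ⟨z :: t :: u', o', v', o1, [], ⟨?_, ?_, ?_, ?_, ?_⟩, ?_, ?_, ?_⟩
    · rw [hw', b5]
      simp
    · rw [a2, b3]
      simp
    · intro e he
      rw [List.mem_cons, List.mem_cons] at he
      rcases he with rfl | rfl | he
      · exact hz1
      · exact hz2
      · exact a3 e (by rw [b2]; exact List.mem_append_right _ he)
    · intro e he
      exact a4 e (by rw [b4]; exact List.mem_append_right _ he)
    · intro e he he'
      rw [face_B] at he
      rcases he with ⟨he, hed⟩ | he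
      · have hed' : e ≠ d := hed
        rcases a5 e he he' with h4 | h4
        · rw [b2, List.mem_append] at h4
          rcases h4 with h4 | h4
          · exfalso
            have h5 : e ∈ [d] := by
              rw [b1]
              exact List.mem_append_left _ h4
            exact hed' (List.mem_singleton.1 h5)
          · exact Or.inl (List.mem_cons_of_mem _ (List.mem_cons_of_mem _ h4))
        · rw [b4, List.mem_append] at h4
          rcases h4 with h4 | h4
          · exfalso
            have h5 : e ∈ [d] := by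
              rw [b1]
              exact List.mem_append_right _ (List.mem_append_right _ h4)
            exact hed' (List.mem_singleton.1 h5)
          · exact Or.inr h4
      · rcases he with rfl | he
        · exact Or.inl List.mem_cons_self
        · rw [Set.mem_singleton_iff] at he
          subst he
          exact Or.inl (List.mem_cons_of_mem _ List.mem_cons_self)
    · rw [b3]
      simp
    · have e2 := congrArg List.length b1
      simp only [List.length_append, List.length_cons, List.length_nil] at e2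
      show o1.length + 0 ≤ 1
      omega
    · intro hdo
      rw [b3] at hdo
      rcases List.mem_append.1 hdo with h4 | h4
      · exact h4
      · exfalso
        rw [hw, List.nodup_cons, b5] at hnd
        exact hnd.1 (List.mem_append_right _ (List.mem_append_left _ h4))
  | R k a =>
    obtain ⟨y', u', v', e1, e2, e3⟩ := st_word_R hst
    obtain ⟨y, w1, w2, w, hd, hy, hw, hk, hv, hf⟩ := hst
    have h1 : d :: w1 = d :: u' ∧ y :: w2 = y' :: v' := by
      refine List.append_inj ?_ ?_
      · rw [List.cons_append, List.cons_append, ← hw, ← e1]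
      · rw [List.length_cons, List.length_cons, hk, e2]
    obtain ⟨h2, h3⟩ := h1
    rw [List.cons.injEq] at h2 h3
    obtain ⟨-, rfl⟩ := h2
    obtain ⟨rfl, rfl⟩ := h3
    refine arc_infix hd ha (X := d :: (w1 ++ [y])) (W := w2) (Y := []) (by rw [hw]; simp) List.mem_cons_self e3 ?_ ?_
    · intro e he
      rw [disc_B hf, glue_B S₁ hd hy (ne_xy hd hw)] at he
      obtain ⟨⟨h4, h5⟩, h6⟩ := he
      rw [Set.mem_insert_iff, Set.mem_singleton_iff, not_or] at h5
      refine ⟨h4, ?_, List.not_mem_nil⟩
      rw [List.mem_cons, List.mem_append, List.mem_singleton]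
      rintro (h | h | h)
      · exact h5.1 h
      · exact h6 h
      · exact h5.2 h
    · show (d :: (w1 ++ [y])).length + 0 ≤ k + 2
      simp only [List.length_cons, List.length_append, List.length_nil]
      omega
  | L k a =>
    obtain ⟨y', u', v', e1, e2, e3⟩ := st_word_L hst
    obtain ⟨y, w1, w2, w, hd, hy, hw, hk, hv, hf⟩ := hst
    have h1 : d :: w1 = d :: u' ∧ y :: w2 = y' :: v' := by
      refine List.append_inj' ?_ ?_
      · rw [List.cons_append, List.cons_append, ← hw, ← e1]
      · rw [List.length_cons, List.length_cons, hk, e2]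
    obtain ⟨h2, h3⟩ := h1
    rw [List.cons.injEq] at h2 h3
    obtain ⟨-, rfl⟩ := h2
    obtain ⟨rfl, rfl⟩ := h3
    refine arc_infix hd ha (X := [d]) (W := w1) (Y := y :: w2) (by rw [hw]; simp) List.mem_cons_self e3 ?_ ?_
    · intro e he
      rw [disc_B hf, glue_B S₁ hd hy (ne_xy hd hw)] at he
      obtain ⟨⟨h4, h5⟩, h6⟩ := he
      rw [Set.mem_insert_iff, Set.mem_singleton_iff, not_or] at h5
      refine ⟨h4, ?_, ?_⟩
      · rw [List.mem_singleton]
        exact h5.1
      · rw [List.mem_cons]
        rintro (h | h)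
        · exact h5.2 h
        · exact h6 h
    · show [d].length + (y :: w2).length ≤ k + 2
      simp only [List.length_cons, List.length_nil]
      omega

/-- positions in the hole word -/
private theorem hw_get {S : Part D} {x e : D} {i : ℕ} (h : (S.hw x)[i]? = some e) : e = (S.nx ^ i) x := by
  unfold hw at h
  rw [List.getElem?_map] at h
  obtain ⟨j, h2, h3⟩ := Option.map_eq_some_iff.1 h
  obtain ⟨h5, h6⟩ := List.getElem?_eq_some_iff.1 h2
  rw [List.getElem_range] at h6
  rw [← h3, ← h6]

/-- the hole word closes up -/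
private theorem hw_clo {S : Part D} {x : D} (hx : x ∈ S.B) : (S.nx ^ (S.hw x).length) x = x := by
  obtain ⟨r, hr⟩ := S.hw_cons hx
  have hp := S.per_pos hx
  rw [← hw_length S hx] at hp
  obtain ⟨q, b, hq⟩ : ∃ q b, S.hw x = q ++ [b] := by
    refine ⟨(S.hw x).dropLast, (S.hw x).getLast (by rw [hr]; simp), ?_⟩
    rw [List.dropLast_append_getLast]
  have hb : b ∈ S.B := by
    have h1 : b ∈ S.hw x := by rw [hq]; simp
    exact ((S.mem_hw hx).1 h1).1
  have h1 : b = (S.nx ^ q.length) x := by
    apply hw_get
    rw [hq, List.getElem?_append_right le_rfl, Nat.sub_self]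
    rfl
  have h2 := S.hw_rot hx (u := q) (v := []) hq
  have h3 : S.nx b = x := by
    rcases q with _ | ⟨a, q⟩
    · -- one element
      have hbx : b = x := by
        rw [hr, List.nil_append] at hq
        exact (List.cons_eq_cons.1 hq).1.symm
      subst hbx
      have h4 : (S.nx b) ∈ S.hw b := by
        rw [S.mem_hw hb]
        refine ⟨S.nx_mem.2 hb, ?_⟩
        have h5 : S.nx.SameCycle b (S.nx b) := ⟨1, by simp⟩
        exact (ret_same S.s hb (S.nx_mem.2 hb)).1 h5
      rw [hq] at h4
      simpa using h4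
    · have hax : a = x := by
        rw [hr, List.cons_append] at hq
        exact (List.cons_eq_cons.1 hq).1.symm
      have h4 := S.hw_chain hb
      rw [h2, hax] at h4
      simp only [List.nil_append, List.isChain_cons_cons] at h4
      exact h4.1
  have hl : (S.hw x).length = q.length + 1 := by rw [hq]; simp
  rw [hl, pow_succ', Equiv.Perm.mul_apply, ← h1, h3]

theorem arc_pick (ha : Arc S S₁ x z u o v t1 t2) (hz : z ∈ S₁.B) (hs : S.Sub S₁) {G : Set D} (hG : G ⊆ S₁.B ∩ nw S S₁) (hne : G.Nonempty) :
    pick S S₁ z G ∈ G := by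
  have hex : (∃ i, fw S S₁ z G i) ∨ ∃ i, bw S S₁ z G i := by
    obtain ⟨a1, a2, a3, a4, a5⟩ := ha
    obtain ⟨e, he⟩ := hne
    obtain ⟨h1, h2, h3⟩ := hG he
    have hmem : ∀ d ∈ S₁.hw z, d ∈ S₁.R := fun d hd => S₁.B_sub_R ((S₁.mem_hw hz).1 hd).1
    rcases a5 e h1 h3 with h4 | h4
    · left
      obtain ⟨i, hi, h5⟩ := List.mem_iff_getElem.1 h4
      have h6 : ∀ m : ℕ, (hm : m ≤ i) → (S₁.nx ^ m) z = u[m] := by
        intro m hm
        refine (hw_get ?_).symm
        rw [a1, List.getElem?_append_left (by omega)]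
        exact List.getElem?_eq_getElem _
      refine ⟨i, ?_, ?_⟩
      · rw [h6 i le_rfl, h5]
        exact he
      · intro m hm
        rw [h6 m hm]
        have h7 : u[m] ∈ u := List.getElem_mem _
        exact ⟨hmem _ (by rw [a1]; exact List.mem_append_left _ h7), a3 _ h7⟩
    · right
      obtain ⟨j, hj, h5⟩ := List.mem_iff_getElem.1 h4
      have hN : (S₁.hw z).length = u.length + (o.length + v.length) := by
        rw [a1]
        simp only [List.length_append]
      have h6 : ∀ m : ℕ, (hm : m < v.length) → (S₁.nx⁻¹ ^ (m + 1)) z = v[v.length - 1 - m] := by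
        intro m hm
        have h7 : v[v.length - 1 - m] = (S₁.nx ^ (u.length + (o.length + (v.length - 1 - m)))) z := by
          apply hw_get
          rw [a1, List.getElem?_append_right (by omega), Nat.add_sub_cancel_left,
            List.getElem?_append_right (by omega), Nat.add_sub_cancel_left]
          exact List.getElem?_eq_getElem _
        rw [h7, inv_pow, Equiv.Perm.inv_eq_iff_eq, ← Equiv.Perm.mul_apply, ← pow_add]
        have h8 : m + 1 + (u.length + (o.length + (v.length - 1 - m))) = (S₁.hw z).length := by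
          rw [hN]
          omega
        rw [h8, hw_clo hz]
      refine ⟨v.length - 1 - j, ?_, ?_⟩
      · rw [h6 _ (by omega)]
        have h7 : v.length - 1 - (v.length - 1 - j) = j := by omega
        simp only [h7, h5]
        exact he
      · intro m hm
        rw [h6 m (by omega)]
        have h7 : v[v.length - 1 - m] ∈ v := List.getElem_mem _
        exact ⟨hmem _ (by rw [a1]; exact List.mem_append_right _ (List.mem_append_right _ h7)), a4 _ h7⟩
  unfold pick
  by_cases h1 : ∃ i, fw S S₁ z G i
  · rw [dif_pos h1]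
    exact (Nat.find_spec h1).1
  · rw [dif_neg h1]
    have h2 : ∃ i, bw S S₁ z G i := hex.resolve_left h1
    rw [dif_pos h2]
    exact (Nat.find_spec h2).1

/-- Perimeters. -/
theorem arc_per (ha : Arc S S₁ x z u o v t1 t2) (hz : z ∈ S₁.B) (hx : x ∈ S.B) :
    (S₁.B \ S.R).ncard = u.length + v.length ∧ S₁.per z = u.length + o.length + v.length ∧
      S.per x = t1.length + o.length + t2.length := by
  obtain ⟨a1, a2, a3, a4, a5⟩ := ha
  have hnd := S₁.hw_nodup hz
  have hmem : ∀ d ∈ S₁.hw z, d ∈ S₁.B := fun d hd => ((S₁.mem_hw hz).1 hd).1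
  refine ⟨?_, ?_, ?_⟩
  · have h1 : S₁.B \ S.R = ((u ++ v).toFinset : Set D) := by
      ext e
      rw [Finset.mem_coe, List.mem_toFinset, List.mem_append]
      constructor
      · rintro ⟨h1, h2⟩
        exact a5 e h1 h2
      · rintro (h1 | h1)
        · exact ⟨hmem e (by rw [a1]; exact List.mem_append_left _ h1), a3 e h1⟩
        · exact ⟨hmem e (by rw [a1]; exact List.mem_append_right _ (List.mem_append_right _ h1)), a4 e h1⟩
    have h2 : (u ++ v).Nodup := by
      rw [a1] at hnd
      refine List.Nodup.sublist ?_ hnd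
      exact (List.append_sublist_append_left u).2 (List.sublist_append_right o v)
    rw [h1, Set.ncard_coe_finset, List.toFinset_card_of_nodup h2, List.length_append]
  · rw [← hw_length S₁ hz, a1]
    simp only [List.length_append]
    omega
  · rw [← hw_length S hx, a2]
    simp only [List.length_append]
    omega

end SYS.BK
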