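import Pool.Agent.SYS.BK.Defs

/-!
# SYSS-BLK-Bal: dual balls (permutation level and region level)

Elementary facts.  For `bl_card`: with `b(Y)` the number of boundary darts of a set of faces `Y ⊆ N`, the set
`nbh Y` has at most `|Y| + 3 b(Y)` darts and at most `2 b(Y)` boundary darts.
-/

namespace SYS.BK

open Classical SST SYS.Part

section
variable {D : Type} {a f : Equiv.Perm D} {N Y Y' : Set D}

private theorem sub_fm {S U : Part D} (hs : S.Sub U) (d : D) : U.f d ∈ S.R ↔ d ∈ S.R := by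
  constructor
  · intro h
    have h1 : U.f (U.f d) = S.f (U.f d) := hs.1 _ h
    have h3 : S.f (U.f d) ∈ S.R := (mem_R_f S _).2 h
    have h4 : U.f (S.f (U.f d)) = S.f (S.f (U.f d)) := hs.1 _ h3
    have h5 := U.fff d
    rw [h1, h4] at h5
    rw [← h5]
    exact (mem_R_f S _).2 h3
  · intro h
    rw [hs.1 d h]
    exact (mem_R_f S d).2 h

private theorem un_le {X I : Type} [Finite X] (s : Finset I) (B : I → Set X) :
    (⋃ p ∈ s, B p).ncard ≤ ∑ p ∈ s, (B p).ncard := by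
  induction s using Finset.induction_on with
  | empty => simp
  | insert a s ha ih =>
    rw [Finset.set_biUnion_insert, Finset.sum_insert ha]
    exact (Set.ncard_union_le _ _).trans (Nat.add_le_add_left ih _)

private theorem un_le' {X : Type} [Finite X] (s : Set X) (B : X → Set X) (k : ℕ)
    (h : ∀ p ∈ s, (B p).ncard ≤ k) : (⋃ p ∈ s, B p).ncard ≤ s.ncard * k := by
  have h1 : (⋃ p ∈ s, B p) = ⋃ p ∈ (Set.toFinite s).toFinset, B p := by
    ext z
    simp only [Set.mem_iUnion, Set.Finite.mem_toFinset]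
  rw [h1]
  refine (un_le _ _).trans ?_
  refine (Finset.sum_le_card_nsmul _ _ k fun p hp => h p ((Set.Finite.mem_toFinset _).1 hp)).trans ?_
  rw [smul_eq_mul, ← Set.ncard_eq_toFinset_card]

private theorem three_le {X : Type} (x y z : X) : ({x, y, z} : Set X).ncard ≤ 3 := by
  have h1 := Set.ncard_insert_le x ({y, z} : Set X)
  have h2 := Set.ncard_insert_le y ({z} : Set X)
  have h3 := Set.ncard_singleton z
  omega

private theorem two_le {X : Type} (y z : X) : ({y, z} : Set X).ncard ≤ 2 := by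
  have h2 := Set.ncard_insert_le y ({z} : Set X)
  have h3 := Set.ncard_singleton z
  omega

private theorem nbh_card [Finite D] (h : Frm a f N) (hfs : ∀ d, f d ∈ Y ↔ d ∈ Y) :
    (nbh a f N Y).ncard ≤ Y.ncard + (bd a Y).ncard * 3 := by
  have h1 : nbh a f N Y ⊆ Y ∪ ⋃ c ∈ bd a Y, fc f (a c) := by
    rintro d ⟨-, hd⟩
    by_cases hdY : d ∈ Y
    · exact Or.inl hdY
    right
    rw [Set.mem_iUnion₂]
    rcases hd with hd | hd | hd | hd
    · exact absurd hd hdY
    · refine ⟨a d, ⟨hd, by rw [h.aa]; exact hdY⟩, ?_⟩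
      rw [h.aa]
      exact Or.inl rfl
    · refine ⟨a (f d), ⟨hd, by rw [h.aa, hfs]; exact hdY⟩, ?_⟩
      rw [h.aa]
      exact Or.inr (Or.inr (h.fff d).symm)
    · refine ⟨a (f (f d)), ⟨hd, by rw [h.aa, hfs, hfs]; exact hdY⟩, ?_⟩
      rw [h.aa]
      exact Or.inr (Or.inl (h.fff d).symm)
  refine (Set.ncard_le_ncard h1 (Set.toFinite _)).trans ((Set.ncard_union_le _ _).trans ?_)
  exact Nat.add_le_add_left (un_le' _ _ 3 fun p _ => three_le _ _ _) _

private theorem nbh_bd [Finite D] (h : Frm a f N) (hY : Y ⊆ N) (hfs : ∀ d, f d ∈ Y ↔ d ∈ Y) :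
    (bd a (nbh a f N Y)).ncard ≤ (bd a Y).ncard * 2 := by
  have h1 : bd a (nbh a f N Y) ⊆ ⋃ c ∈ bd a Y,
      (if a c ∈ N then ({f (a c), f (f (a c))} : Set D) else {c}) := by
    rintro d ⟨⟨hdN, hd⟩, hd2⟩
    rw [Set.mem_iUnion₂]
    by_cases hdY : d ∈ Y
    · have h2 : a d ∉ N := fun h3 => hd2 ⟨h3, Or.inr (Or.inl (by rw [h.aa]; exact hdY))⟩
      refine ⟨d, ⟨hdY, fun h3 => h2 (hY h3)⟩, ?_⟩
      rw [if_neg h2]
      rfl
    rcases hd with hd | hd | hd | hd
    · exact absurd hd hdY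
    · exact absurd ⟨hY hd, Or.inl hd⟩ hd2
    · refine ⟨a (f d), ⟨hd, by rw [h.aa, hfs]; exact hdY⟩, ?_⟩
      rw [h.aa, if_pos ((h.fN d).2 hdN)]
      exact Or.inr (h.fff d).symm
    · refine ⟨a (f (f d)), ⟨hd, by rw [h.aa, hfs, hfs]; exact hdY⟩, ?_⟩
      rw [h.aa, if_pos ((h.fN _).2 ((h.fN d).2 hdN))]
      exact Or.inl (h.fff d).symm
  refine (Set.ncard_le_ncard h1 (Set.toFinite _)).trans (un_le' _ _ 2 fun c _ => ?_)
  split_ifs
  · exact two_le _ _
  · rw [Set.ncard_singleton]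
    omega

theorem frm_nw {S U : Part D} (h : S.Sub U) : Frm U.a U.f (nw S U) where
  aa := U.aa
  fff := U.fff
  fN d := and_congr (mem_R_f U d) (not_congr (sub_fm h d))
  ne _ hd := hd.1

theorem fc_fs (hF : ∀ d, f (f (f d)) = d) (y d : D) : f d ∈ fc f y ↔ d ∈ fc f y := by
  constructor
  · rintro (h | h | h)
    · exact Or.inr (Or.inr (show d = f (f y) by rw [← h, hF]))
    · exact Or.inl (f.injective h)
    · exact Or.inr (Or.inl (f.injective h))
  · rintro (h | h | h)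
    · exact Or.inr (Or.inl (by rw [h]))
    · exact Or.inr (Or.inr (show f d = f (f y) by rw [h]))
    · exact Or.inl (by rw [h, hF])

theorem bl_sub (hY : Y ⊆ N) (n : ℕ) : bl a f N Y n ⊆ N := by
  cases n with
  | zero => exact hY
  | succ n => exact fun d hd => hd.1

theorem bl_fs (h : Frm a f N) (hY : ∀ d, f d ∈ Y ↔ d ∈ Y) (n : ℕ) (d : D) : f d ∈ bl a f N Y n ↔ d ∈ bl a f N Y n := by
  cases n with
  | zero => exact hY d
  | succ n =>
    have ih : ∀ e, f e ∈ bl a f N Y n ↔ e ∈ bl a f N Y n := bl_fs h hY n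
    show (f d ∈ N ∧ (f d ∈ bl a f N Y n ∨ a (f d) ∈ bl a f N Y n ∨ a (f (f d)) ∈ bl a f N Y n ∨
      a (f (f (f d))) ∈ bl a f N Y n)) ↔ (d ∈ N ∧ (d ∈ bl a f N Y n ∨ a d ∈ bl a f N Y n ∨
      a (f d) ∈ bl a f N Y n ∨ a (f (f d)) ∈ bl a f N Y n))
    rw [h.fff, h.fN, ih]
    tauto

theorem bl_le (hY : Y ⊆ N) {m n : ℕ} (h : m ≤ n) : bl a f N Y m ⊆ bl a f N Y n := by
  induction n, h using Nat.le_induction with
  | base => exact subset_rfl
  | succ n _ ih => exact ih.trans fun d hd => ⟨bl_sub hY n hd, Or.inl hd⟩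

theorem bl_mono (hY : Y ⊆ Y') (n : ℕ) : bl a f N Y n ⊆ bl a f N Y' n := by
  induction n with
  | zero => exact hY
  | succ n ih =>
    rintro d ⟨h1, h2⟩
    exact ⟨h1, h2.imp (fun h => ih h) (Or.imp (fun h => ih h) (Or.imp (fun h => ih h) fun h => ih h))⟩

theorem bl_add (m n : ℕ) : bl a f N (bl a f N Y m) n = bl a f N Y (m + n) := by
  induction n with
  | zero => rfl
  | succ n ih =>
    show nbh a f N (bl a f N (bl a f N Y m) n) = nbh a f N (bl a f N Y (m + n))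
    rw [ih]

theorem bl_adj {d : D} {n : ℕ} (hd : d ∈ N) (h : a d ∈ bl a f N Y n) : d ∈ bl a f N Y (n + 1) :=
  ⟨hd, Or.inr (Or.inl h)⟩

/-- A face of the ball of radius `n + 1` is in the ball of radius `n` or adjacent to it. -/
theorem bl_succ {d : D} {n : ℕ} (h : d ∈ bl a f N Y (n + 1)) : d ∈ bl a f N Y n ∨ ∃ e ∈ fc f d, a e ∈ bl a f N Y n := by
  obtain ⟨-, h | h | h | h⟩ := h
  · exact Or.inl h
  · exact Or.inr ⟨d, Or.inl rfl, h⟩
  · exact Or.inr ⟨f d, Or.inr (Or.inl rfl), h⟩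
  · exact Or.inr ⟨f (f d), Or.inr (Or.inr rfl), h⟩

theorem bl_card [Finite D] (h : Frm a f N) {y : D} (hy : fc f y ⊆ N) (n : ℕ) : (bl a f N (fc f y) n).ncard ≤ 9 * 2 ^ n := by
  have key : (bd a (bl a f N (fc f y) n)).ncard ≤ 3 * 2 ^ n ∧
      (bl a f N (fc f y) n).ncard + 6 ≤ 9 * 2 ^ n := by
    induction n with
    | zero =>
      have h1 : (fc f y).ncard ≤ 3 := three_le _ _ _
      have h2 : (bd a (fc f y)).ncard ≤ (fc f y).ncard :=
        Set.ncard_le_ncard (fun d hd => hd.1) (Set.toFinite _)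
      refine ⟨?_, ?_⟩
      · show (bd a (fc f y)).ncard ≤ 3 * 2 ^ 0
        omega
      · show (fc f y).ncard + 6 ≤ 9 * 2 ^ 0
        omega
    | succ n ih =>
      obtain ⟨h1, h2⟩ := ih
      have hfs : ∀ d, f d ∈ bl a f N (fc f y) n ↔ d ∈ bl a f N (fc f y) n :=
        bl_fs h (fc_fs h.fff y) n
      have h3 := nbh_card (Y := bl a f N (fc f y) n) h hfs
      have h4 := nbh_bd (Y := bl a f N (fc f y) n) h (bl_sub hy n) hfs
      refine ⟨?_, ?_⟩
      · show (bd a (nbh a f N (bl a f N (fc f y) n))).ncard ≤ 3 * 2 ^ (n + 1)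
        rw [pow_succ]
        omega
      · show (nbh a f N (bl a f N (fc f y) n)).ncard + 6 ≤ 9 * 2 ^ (n + 1)
        rw [pow_succ]
        omega
  omega

end

section
variable {D : Type} {S U : Part D} {x : D}

private theorem fc_mem {S U : Part D} (h : S.Sub U) {y d : D} (hd : d ∈ fc U.f y) : d ∈ nw S U ↔ y ∈ nw S U := by
  rcases hd with rfl | rfl | rfl
  · exact Iff.rfl
  · exact (frm_nw h).fN y
  · exact ((frm_nw h).fN _).trans ((frm_nw h).fN y)

theorem ff_eq (h : S.Sub U) (hy : U.a x ∈ nw S U) : ff S U x = fc U.f (U.a x) :=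
  Set.Subset.antisymm (fun _ hd => hd.2) fun _ hd => ⟨(fc_mem h hd).2 hy, hd⟩

theorem ff_empty (h : S.Sub U) (hy : U.a x ∉ nw S U) : ff S U x = ∅ := by
  rw [Set.eq_empty_iff_forall_notMem]
  rintro d ⟨h1, h2⟩
  exact hy ((fc_mem h h2).1 h1)

theorem bal_sub (j : ℕ) : bal S U x j ⊆ nw S U :=
  bl_sub (fun _ hd => hd.1) j

theorem bal_fs (h : S.Sub U) (j : ℕ) (d : D) : U.f d ∈ bal S U x j ↔ d ∈ bal S U x j :=
  bl_fs (frm_nw h) (fun e => and_congr ((frm_nw h).fN e) (fc_fs U.fff _ e)) j d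

theorem bal_le {i j : ℕ} (h : i ≤ j) : bal S U x i ⊆ bal S U x j :=
  bl_le (fun _ hd => hd.1) h

theorem bal_adj {d : D} {n : ℕ} (hd : d ∈ nw S U) (h : U.a d ∈ bal S U x n) : d ∈ bal S U x (n + 1) :=
  bl_adj hd h

private theorem bl_emp {a f : Equiv.Perm D} {N : Set D} (n : ℕ) : bl a f N ∅ n = ∅ := by
  induction n with
  | zero => rfl
  | succ n ih =>
    show nbh a f N (bl a f N ∅ n) = ∅
    rw [ih, Set.eq_empty_iff_forall_notMem]
    rintro d ⟨-, h | h | h | h⟩ <;> exact h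

theorem bal_card [Finite D] (h : S.Sub U) (n : ℕ) : (bal S U x n).ncard ≤ 9 * 2 ^ n := by
  by_cases hy : U.a x ∈ nw S U
  · unfold bal
    rw [ff_eq h hy]
    exact bl_card (frm_nw h) (fun d hd => (fc_mem h hd).2 hy) n
  · unfold bal
    rw [ff_empty h hy, bl_emp, Set.ncard_empty]
    exact Nat.zero_le _

end

end SYS.BK
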