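import Pool.Agent.SYS.BK.Mon

/-!
# SYSS-BLK-Lay: the dual ball of radius `J` (first phase) is contained in the inner faces
-/

namespace SYS.BK

open Classical SST SYS.Part

section
variable {D : Type} {a f : Equiv.Perm D} {N Y : Set D}

private theorem lay_empty (n : ℕ) : bl a f N ∅ n = ∅ := by
  induction n with
  | zero => rfl
  | succ n ih =>
    show nbh a f N (bl a f N ∅ n) = ∅
    rw [ih]
    apply Set.eq_empty_iff_forall_notMem.2
    rintro d ⟨-, h | h | h | h⟩ <;> exact h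

private theorem lay_split {n : ℕ} : ∀ {d : D}, d ∈ bl a f N Y n → ∃ c ∈ Y, d ∈ bl a f N (fc f c) n := by
  induction n with
  | zero =>
    intro d hd
    exact ⟨d, hd, Or.inl rfl⟩
  | succ n ih =>
    rintro d ⟨hN, h | h | h | h⟩
    · obtain ⟨c, hc, hd⟩ := ih h
      exact ⟨c, hc, hN, Or.inl hd⟩
    · obtain ⟨c, hc, hd⟩ := ih h
      exact ⟨c, hc, hN, Or.inr (Or.inl hd)⟩
    · obtain ⟨c, hc, hd⟩ := ih h
      exact ⟨c, hc, hN, Or.inr (Or.inr (Or.inl hd))⟩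
    · obtain ⟨c, hc, hd⟩ := ih h
      exact ⟨c, hc, hN, Or.inr (Or.inr (Or.inr hd))⟩

private theorem lay_fc {B : Set D} (hB : ∀ c, f c ∈ B ↔ c ∈ B) {c : D} (hc : c ∈ B) : fc f c ⊆ B := by
  rintro d (rfl | rfl | rfl)
  · exact hc
  · exact (hB _).2 hc
  · exact (hB _).2 ((hB _).2 hc)

private theorem lay_fc' {B : Set D} (hB : ∀ c, f c ∈ B ↔ c ∈ B) {c d : D} (hc : c ∈ fc f d) (h : c ∈ B) : d ∈ B := by
  rcases hc with rfl | rfl | rfl
  · exact h
  · exact (hB _).1 h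
  · exact (hB _).1 ((hB _).1 h)

private theorem lay_key [Finite D] {y : D} {M A q j : ℕ} (hF : Frm a f N) (hy : y ∈ N) (hM : j + 3 ≤ M) (hA : j + 1 ≤ A)
    (h : ∀ d ∈ Inn a f N y M A q, a d ≠ d) (hj : bl a f N (fc f y) j ⊆ Inn a f N y M A q) {c : D}
    (hc : c ∈ bl a f N (fc f y) j) :
    ∃ B ⊆ N, (∀ d, f d ∈ B ↔ d ∈ B) ∧ c ∈ B ∧ bl a f N B q ⊆ Inn a f N y M A q := by
  obtain ⟨h1, h2, h3⟩ := fc_pc hF hy
  obtain ⟨B, b1, b2, b3, b4, b5, b6, b7⟩ := bl_path hF h3 (fc_fs hF.fff y) h1 hc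
  have h4 : (bd a (fc f y)).ncard ≤ 3 := by
    rw [← h2]
    exact Set.ncard_le_ncard (fun d hd => hd.1) (Set.toFinite _)
  have hI : B ⊆ Inn a f N y M A q := b2.trans hj
  refine ⟨B, hI.trans (inn_N hF), b4, b3, inn_cl.2 B hI ⟨hI.trans (inn_N hF), b4, b1 (Or.inl rfl), fun d hd => h d (hI hd), b5, ?_, ?_⟩⟩
  · omega
  · omega

private theorem lay_main [Finite D] {y : D} {M A q J : ℕ} (hF : Frm a f N) (hy : y ∈ N) (hq : 1 ≤ q) (hM : J + 3 ≤ M)
    (hA : J + 1 ≤ A) (h : ∀ d ∈ Inn a f N y M A q, a d ≠ d) :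
    ∀ j ≤ J, bl a f N (fc f y) j ⊆ Inn a f N y M A q := by
  intro j
  induction j with
  | zero => exact fun _ => inn_cl.1 hy
  | succ j ih =>
    intro hj d hd
    have ih' := ih (by omega)
    have hdN : d ∈ N := bl_sub (fc_pc hF hy).2.2 (j + 1) hd
    rcases bl_succ hd with h1 | ⟨e, he, hae⟩
    · exact ih' h1
    · obtain ⟨B, hBN, b1, b2, b3⟩ := lay_key hF hy (by omega) (by omega) h ih' hae
      have hN : e ∈ N := lay_fc hF.fN hdN he
      have h2 : e ∈ bl a f N B (0 + 1) := bl_adj hN b2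
      exact b3 (bl_le hBN hq (lay_fc' (bl_fs hF b1 (0 + 1)) he h2))

end

variable {D : Type} [Finite D] {P : Prm} {S U : Part D} {x : D}

theorem bal_inr (hP : P.Ok) (hS : S.Sub U) (h : ∀ d ∈ inr P S U x, U.a d ≠ d) : bal S U x (P.J + P.q) ⊆ inr P S U x := by
  have hF := frm_nw hS
  by_cases hy : U.a x ∈ nw S U
  · intro d hd
    unfold bal at hd
    rw [ff_eq hS hy, ← bl_add] at hd
    obtain ⟨c, hc, hdc⟩ := lay_split hd
    obtain ⟨B, -, b1, b2, b3⟩ := lay_key hF hy hP.jM hP.jA h (lay_main hF hy hP.q1 hP.jM hP.jA h P.J le_rfl) hc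
    exact b3 (bl_mono (lay_fc b1 b2) P.q hdc)
  · unfold bal
    rw [ff_empty hS hy, lay_empty]
    exact Set.empty_subset _

/-- For a finished block and for `ofTri T`. -/
theorem bal_inr_done (hP : P.Ok) (hS : S.Sub U) (h : Done P S U x) : bal S U x (P.J + P.q) ⊆ inr P S U x := by
  refine bal_inr hP hS fun d hd he => ?_
  have h1 : d ∈ U.R := (inn_N (frm_nw hS) hd).1
  exact h.2 d ⟨h1, he⟩ hd

end SYS.BK
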