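import Pool.Agent.SYS.BK.SimB
import Pool.Agent.SYS.BK.Lay

/-!
# SYSS-BLK-Cho: the rule of the block: a function of the region, monotone, intrinsic

PLAN.  (The same facts for the old form of the rule are proved in `BK/Rul.lean`: copy and adapt; `Rn` becomes `BR (nxt P S x) S x`.)
* `tgt_nw`: both cases are of the form `S₁.B ∩ (subset of nw)` (`bal_sub`, `inr_sub`).
* `go_ex`: induction on `j`: `ff`: `U.a x ∈ nw` (`frm_nw`, `e ∈ fc U.f (U.a x)`), words `[]`, `[false]`, `[false, false]`.  `bal (j+1)`: `bl_succ`: `e' ∈ fc U.f e`, `U.a e' ∈ bal j`: append `true` to the word of `U.a e'` (`U.a (U.a e') = e'`) and then at most two `false`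
  (`e ∈ fc U.f e'`); a prefix of `l ++ [b]` is a prefix of `l` or `l ++ [b]` (`List.prefix_concat_iff`); all faces are in `nw` (`frm_nw`).  `go U x (l ++ [b])` is one more step (`List.foldl_append`).
* `cho_mem`, `cho_none`: `Nat.find_spec`, `Exists.choose_spec`; if `G ≠ ∅`, `G ⊆ bal S U x r`: `go_ex`.
* `nxt_*`: unfold; `tgt ⊆ bal (max J (A + q))` (`bal_le`, `inr_bal`).  `nxt_done`: `tgt = ∅` implies `S₁.B ∩ inr = ∅` (second case of the definition; the first case is nonempty); conversely `bal_inr_done`, `bal_le`: a dart of `S₁.B ∩ bal j`, `j ≤ J`, would be in `inr`.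
* `nxt_mon`: `X'.a x ≠ x` and `tgt P S X' x = ∅`, i.e. no dart of `X'.B` is in `bal S X' x j` (`j ≤ J`) or in `inr P S X' x`; `bal_mono`, `inr_mono`.
* `nxt_ib`: `x = S.bs x 0 ∈ NW`, `θ x = y`; `S₁.a x = x ↔ T₁.a y = y`.  For a word `l` all of whose prefixes end in `nw S S₁`: `θ (go S₁ x l') = go T₁ y l'` for all prefixes `l'` (`h.f`, `h.a`; induction from the right); so `Gw S S₁ x G l ↔ Gw T T₁ y (θ '' G) l` for `G ⊆ nw S S₁` (the converse by the same
  lemma for `sim_symm h`, or: if all prefixes of `l` before the last one are good and `go T₁ y l ∈ nw T T₁` then `go S₁ x l ∈ nw S S₁` by injectivity on `NW` and `h.new`), `G = tgt P S S₁ x` (`sim_tgt`).  Hence the two `Nat.find` agree (`Nat.find_congr'`), and so do the words (`Encodable.encode_injective`).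
-/

namespace SYS.BK

open Classical SST SYS.Part

section
variable {D : Type} {P : Prm} {S S₁ U : Part D} {x e d : D} {G : Set D}

theorem tgt_nw (hs : S.Sub S₁) : tgt P S S₁ x ⊆ S₁.B ∩ nw S S₁ := by
  intro d hd
  unfold tgt at hd
  split_ifs at hd with h
  · exact ⟨hd.1, bal_sub _ hd.2⟩
  · exact ⟨hd.1, (inr_sub hs).1 hd.2⟩

private theorem go_app (U : Part D) (x : D) (l : List Bool) (b : Bool) :
    go U x (l ++ [b]) = if b then U.a (go U x l) else U.f (go U x l) := by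
  unfold go
  rw [List.foldl_append]
  rfl

private theorem gw_nil (h : U.a x ∈ nw S U) : Gw S U x {U.a x} [] := by
  refine ⟨fun l' hl' => ?_, rfl⟩
  rw [List.prefix_nil.1 hl']
  exact h

private theorem gw_app {l : List Bool} {b : Bool} {e' : D} (h : Gw S U x {e} l)
    (he : e' = if b then U.a e else U.f e) (hn : e' ∈ nw S U) : Gw S U x {e'} (l ++ [b]) := by
  have h1 : go U x l = e := h.2
  have h2 : go U x (l ++ [b]) = e' := by rw [go_app, h1, he]
  refine ⟨fun l' hl' => ?_, h2⟩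
  rcases List.prefix_concat_iff.1 hl' with h3 | h3
  · rw [h3, h2]
    exact hn
  · exact h.1 l' h3

private theorem gw_fc {l : List Bool} {c : D} (hs : S.Sub U) (h : Gw S U x {c} l) (he : c ∈ fc U.f e) (hn : e ∈ nw S U) :
    ∃ l, Gw S U x {e} l := by
  rcases he with rfl | rfl | rfl
  · exact ⟨l, h⟩
  · have h1 : U.f (U.f e) ∈ nw S U := ((frm_nw hs).fN _).2 (((frm_nw hs).fN _).2 hn)
    have h2 := gw_app (b := false) (e' := U.f (U.f e)) h rfl h1
    exact ⟨_, gw_app (b := false) (e' := e) h2 (by simp [U.fff]) hn⟩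
  · exact ⟨_, gw_app (b := false) (e' := e) h (by simp [U.fff]) hn⟩

theorem go_ex (hs : S.Sub U) {j : ℕ} (he : e ∈ bal S U x j) : ∃ l, Gw S U x {e} l := by
  induction j generalizing e with
  | zero =>
    have h0 : e ∈ ff S U x := he
    have hx : U.a x ∈ nw S U := by
      by_contra hx
      rw [ff_empty hs hx] at h0
      exact h0
    have h1 : e ∈ fc U.f (U.a x) := h0.2
    have h2 := gw_nil hx
    have h3 : U.f (U.a x) ∈ nw S U := ((frm_nw hs).fN _).2 hx
    have h4 := gw_app (b := false) (e' := U.f (U.a x)) h2 rfl h3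
    rcases h1 with rfl | rfl | rfl
    · exact ⟨_, h2⟩
    · exact ⟨_, h4⟩
    · exact ⟨_, gw_app (b := false) h4 rfl h0.1⟩
  | succ j ih =>
    have hn : e ∈ nw S U := bal_sub (j + 1) he
    rcases bl_succ he with h1 | ⟨c, hc, h1⟩
    · exact ih h1
    · obtain ⟨l, hl⟩ := ih h1
      have hcn : c ∈ nw S U := by
        rcases hc with rfl | rfl | rfl
        · exact hn
        · exact ((frm_nw hs).fN _).2 hn
        · exact ((frm_nw hs).fN _).2 (((frm_nw hs).fN _).2 hn)
      have h2 := gw_app (b := true) (e' := c) hl (by simp [U.aa]) hcn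
      exact gw_fc hs h2 hc hn

theorem cho_mem (h : cho S U x G = some d) : d ∈ G ∧ d ∈ nw S U := by
  unfold cho at h
  split_ifs at h with h1
  have h2 := (Nat.find_spec h1).choose_spec
  have h3 : go U x (Nat.find_spec h1).choose = d := Option.some_injective _ h
  rw [← h3]
  exact ⟨h2.2.2, h2.2.1 _ (List.prefix_refl _)⟩

theorem cho_none (hs : S.Sub U) {r : ℕ} (hG : G ⊆ bal S U x r) : cho S U x G = none ↔ G = ∅ := by
  constructor
  · intro h
    by_contra hne
    obtain ⟨e, he⟩ := Set.nonempty_iff_ne_empty.2 hne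
    obtain ⟨l, hl⟩ := go_ex hs (hG he)
    have h1 : ∃ n : ℕ, ∃ l : List Bool, Encodable.encode l = n ∧ Gw S U x G l :=
      ⟨_, l, rfl, hl.1, by have h2 : go U x l = e := hl.2
                           rw [h2]
                           exact he⟩
    unfold cho at h
    rw [dif_pos h1] at h
    exact absurd h (by simp)
  · intro h
    cases hc : cho S U x G with
    | none => rfl
    | some d =>
      have h1 := (cho_mem hc).1
      rw [h] at h1
      exact absurd h1 (Set.notMem_empty d)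

private theorem tgt_emp : tgt P S S₁ x = ∅ ↔ (∀ j ≤ P.J, ∀ d ∈ S₁.B, d ∉ bal S S₁ x j) ∧ ∀ d ∈ S₁.B, d ∉ inr P S S₁ x := by
  constructor
  · intro h
    unfold tgt at h
    split_ifs at h with h1
    · exact absurd h (Set.nonempty_iff_ne_empty.1 (Nat.find_spec h1).2)
    · refine ⟨fun j hj d hd hb => h1 ⟨j, hj, d, hd, hb⟩, fun d hd hb => ?_⟩
      have h2 : d ∈ S₁.B ∩ inr P S S₁ x := ⟨hd, hb⟩
      rw [h] at h2
      exact h2
  · rintro ⟨h1, h2⟩
    have h3 : ¬ ∃ j, j ≤ P.J ∧ (S₁.B ∩ bal S S₁ x j).Nonempty := by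
      rintro ⟨j, hj, d, hd, hb⟩
      exact h1 j hj d hd hb
    unfold tgt
    rw [dif_neg h3, Set.eq_empty_iff_forall_notMem]
    exact fun d hd => h2 d hd.1 hd.2

end

section
variable {D : Type} [Finite D] {P : Prm} {S S₁ X' : Part D} {x d : D}

theorem tgt_bal0 (hs : S.Sub S₁) : tgt P S S₁ x ⊆ bal S S₁ x (P.J + P.A + P.q) := by
  intro d hd
  unfold tgt at hd
  split_ifs at hd with h
  · exact bal_le (by have h1 := (Nat.find_spec h).1; omega) hd.2
  · exact bal_le (by omega) (inr_bal hs hd.2)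

theorem tgt_balk (hP : P.Ok) (hs : S.Sub S₁) : tgt P S S₁ x ⊆ bal S S₁ x (P.A + P.q) := by
  intro d hd
  unfold tgt at hd
  split_ifs at hd with h
  · exact bal_le (by have h1 := (Nat.find_spec h).1; have h2 := hP.jA; omega) hd.2
  · exact inr_bal hs hd.2

theorem nxt_self (hx : x ∈ S.B) : nxt P S x S = some x := by
  unfold nxt
  rw [if_pos hx.2]

theorem nxt_mem (hs : S.Sub S₁) (hx : x ∈ S.B) (h : nxt P S x S₁ = some d) :
    d ∈ S₁.B ∧ ((S₁.a x = x ∧ d = x) ∨ (S₁.a x ≠ x ∧ d ∈ tgt P S S₁ x)) := by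
  unfold nxt at h
  split_ifs at h with h1
  · have h2 : x = d := Option.some_injective _ h
    rw [← h2]
    exact ⟨⟨by have h3 : x ∈ S₁.R := Part.Sub.R_sub hs hx.1
               exact h3, h1⟩, Or.inl ⟨h1, rfl⟩⟩
  · have h2 := (cho_mem h).1
    exact ⟨(tgt_nw hs h2).1, Or.inr ⟨h1, h2⟩⟩

theorem nxt_none (hs : S.Sub S₁) : nxt P S x S₁ = none ↔ S₁.a x ≠ x ∧ tgt P S S₁ x = ∅ := by
  unfold nxt
  split_ifs with h1
  · simp [h1]
  · rw [cho_none hs (tgt_bal0 hs)]
    exact ⟨fun h => ⟨h1, h⟩, fun h => h.2⟩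

theorem nxt_done (hP : P.Ok) (hs : S.Sub S₁) : nxt P S x S₁ = none ↔ Done P S S₁ x := by
  rw [nxt_none hs, tgt_emp]
  unfold Done
  constructor
  · rintro ⟨h1, -, h2⟩
    exact ⟨h1, h2⟩
  · rintro ⟨h1, h2⟩
    refine ⟨h1, fun j hj d hd hb => ?_, h2⟩
    exact h2 d hd (bal_inr_done hP hs ⟨h1, h2⟩ (bal_le (by omega) hb))

theorem nxt_mon (P : Prm) (hx : x ∈ S.B) : Mon (nxt P S x) S := by
  intro Z X' hZ hX hn d hd
  have hX' : S.Sub X' := Part.sub_trans hZ hX
  obtain ⟨h1, h2⟩ := (nxt_none hX').1 hn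
  obtain ⟨h3, h4⟩ := nxt_mem hZ hx hd
  refine ⟨h3, fun hB => ?_⟩
  rcases h4 with ⟨-, h4⟩ | ⟨-, h4⟩
  · rw [h4] at hB
    exact h1 hB.2
  · obtain ⟨h5, h6⟩ := tgt_emp.1 h2
    unfold tgt at h4
    split_ifs at h4 with h
    · exact h5 _ (Nat.find_spec h).1 d hB (bal_mono hZ hX hx _ h4.2)
    · exact h6 d hB (inr_mono hZ hX hx h4.2)

end

section
variable {D E : Type} [Finite D] [Finite E] {P : Prm} {S S₁ : Part D} {x : D} {T T₁ : Part E} {y : E} {W : ℕ} {θ : D → E} {G : Set D}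

private theorem ch_x (h : Sim S S₁ x T T₁ y W θ) : x ∈ NW S S₁ x W ∧ θ x = y := by
  have h1 : S.bs x 0 = x := by simp [Part.bs]
  have h2 : T.bs y 0 = y := by simp [Part.bs]
  refine ⟨Or.inr ⟨0, by simp, h1.symm⟩, ?_⟩
  have h3 := h.base 0 (by simp)
  rwa [h1, h2] at h3

private theorem ch_ax (h : Sim S S₁ x T T₁ y W θ) : S₁.a x ∈ NW S S₁ x W ∧ θ (S₁.a x) = T₁.a y := by
  obtain ⟨h1, h2⟩ := ch_x h
  have h3 := h.a x h1
  rw [h2] at h3
  exact h3

private theorem ch_a0 (h : Sim S S₁ x T T₁ y W θ) : S₁.a x = x ↔ T₁.a y = y := by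
  constructor
  · intro h1
    rw [← (ch_ax h).2, h1]
    exact (ch_x h).2
  · intro h1
    rw [← (ch_ax h).2] at h1
    exact h.inj (ch_ax h).1 (ch_x h).1 (h1.trans (ch_x h).2.symm)

private theorem ch_th (h : Sim S S₁ x T T₁ y W θ) {d : D} (hd : d ∈ nw S S₁) : θ d ∈ nw T T₁ := by
  have h1 : θ d ∈ θ '' (S₁.R \ S.R) := Set.mem_image_of_mem _ hd
  rw [h.new] at h1
  exact h1

private theorem ch_go (h : Sim S S₁ x T T₁ y W θ) (l : List Bool) :
    (∀ l', l' <+: l → go S₁ x l' ∈ nw S S₁) → θ (go S₁ x l) = go T₁ y l := by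
  induction l using List.reverseRecOn with
  | nil => exact fun _ => (ch_ax h).2
  | append_singleton l b ih =>
    intro hl
    have h1 : ∀ l', l' <+: l → go S₁ x l' ∈ nw S S₁ := fun l' hl' => hl l' (hl'.trans (List.prefix_append _ _))
    have h2 := ih h1
    have h3 := h1 l (List.prefix_refl _)
    rw [go_app, go_app, ← h2]
    cases b with
    | true =>
      simp only [if_true]
      exact (h.a _ (Or.inl h3)).2
    | false =>
      simp only [Bool.false_eq_true, if_false]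
      exact h.f _ h3

private theorem ch_gw (h : Sim S S₁ x T T₁ y W θ) {l : List Bool} (hl : Gw S S₁ x G l) : Gw T T₁ y (θ '' G) l := by
  refine ⟨fun l' hl' => ?_, ?_⟩
  · rw [← ch_go h l' fun l'' h2 => hl.1 l'' (h2.trans hl')]
    exact ch_th h (hl.1 l' hl')
  · rw [← ch_go h l hl.1]
    exact Set.mem_image_of_mem _ hl.2

private theorem ch_gwi (h : Sim S S₁ x T T₁ y W θ) (hG : G ⊆ nw S S₁) (l : List Bool) : Gw S S₁ x G l ↔ Gw T T₁ y (θ '' G) l := by
  refine ⟨ch_gw h, fun h1 => ?_⟩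
  obtain ⟨θ', h', h2, -⟩ := sim_symm h
  have hG' : θ' '' (θ '' G) = G := by
    rw [Set.image_image]
    apply Set.Subset.antisymm
    · rintro _ ⟨d, hd, rfl⟩
      show θ' (θ d) ∈ G
      rw [h2 d (Or.inl (hG hd))]
      exact hd
    · intro d hd
      exact ⟨d, hd, h2 d (Or.inl (hG hd))⟩
  have h3 := ch_gw h' h1
  rw [hG'] at h3
  exact h3

private theorem ch_cho (h : Sim S S₁ x T T₁ y W θ) (hG : G ⊆ nw S S₁) :
    (cho S S₁ x G = none → cho T T₁ y (θ '' G) = none) ∧
      ∀ d, cho S S₁ x G = some d → cho T T₁ y (θ '' G) = some (θ d) := by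
  have hi := ch_gwi h hG
  by_cases h1 : ∃ n : ℕ, ∃ l : List Bool, Encodable.encode l = n ∧ Gw S S₁ x G l
  · have h2 : ∃ n : ℕ, ∃ l : List Bool, Encodable.encode l = n ∧ Gw T T₁ y (θ '' G) l := by
      obtain ⟨n, l, hn, hl⟩ := h1
      exact ⟨n, l, hn, (hi l).1 hl⟩
    have hf : Nat.find h1 = Nat.find h2 := Nat.find_congr' fun {n} => by
      constructor
      · rintro ⟨l, hn, hl⟩
        exact ⟨l, hn, (hi l).1 hl⟩
      · rintro ⟨l, hn, hl⟩
        exact ⟨l, hn, (hi l).2 hl⟩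
    have e1 : cho S S₁ x G = some (go S₁ x (Nat.find_spec h1).choose) := dif_pos h1
    have e2 : cho T T₁ y (θ '' G) = some (go T₁ y (Nat.find_spec h2).choose) := dif_pos h2
    have s1 := (Nat.find_spec h1).choose_spec
    have s2 := (Nat.find_spec h2).choose_spec
    have e3 : (Nat.find_spec h2).choose = (Nat.find_spec h1).choose :=
      Encodable.encode_injective (s2.1.trans (hf.symm.trans s1.1.symm))
    rw [e1, e2, e3]
    refine ⟨fun h3 => absurd h3 (by simp), fun d hd => ?_⟩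
    have h3 : go S₁ x (Nat.find_spec h1).choose = d := Option.some_injective _ hd
    rw [← h3, ch_go h _ s1.2.1]
  · have h2 : ¬ ∃ n : ℕ, ∃ l : List Bool, Encodable.encode l = n ∧ Gw T T₁ y (θ '' G) l := by
      rintro ⟨n, l, hn, hl⟩
      exact h1 ⟨n, l, hn, (hi l).2 hl⟩
    have e1 : cho S S₁ x G = none := dif_neg h1
    have e2 : cho T T₁ y (θ '' G) = none := dif_neg h2
    rw [e1, e2]
    exact ⟨fun _ => rfl, fun d hd => absurd hd (by simp)⟩

end

theorem nxt_ib {D E : Type} [Finite D] [Finite E] (P : Prm) (S : Part D) (x : D) (T : Part E) (y : E) (W : ℕ) :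
    IB (nxt P S x) (nxt P T y) S x T y W := by
  intro S₁ T₁ θ h
  have hG : tgt P S S₁ x ⊆ nw S S₁ := fun d hd => (tgt_nw h.sub hd).2
  by_cases h1 : S₁.a x = x
  · have h2 : T₁.a y = y := (ch_a0 h).1 h1
    have e1 : nxt P S x S₁ = some x := if_pos h1
    have e2 : nxt P T y T₁ = some y := if_pos h2
    rw [e1, e2]
    refine ⟨fun h3 => absurd h3 (by simp), fun d hd => ?_⟩
    have h3 : x = d := Option.some_injective _ hd
    rw [← h3, (ch_x h).2]
    exact ⟨(ch_x h).1, rfl⟩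
  · have h2 : T₁.a y ≠ y := fun h2 => h1 ((ch_a0 h).2 h2)
    have e1 : nxt P S x S₁ = cho S S₁ x (tgt P S S₁ x) := if_neg h1
    have e2 : nxt P T y T₁ = cho T T₁ y (tgt P T T₁ y) := if_neg h2
    rw [e1, e2, ← sim_tgt h]
    obtain ⟨h3, h4⟩ := ch_cho h hG
    exact ⟨h3, fun d hd => ⟨Or.inl (cho_mem hd).2, h4 d hd⟩⟩

end SYS.BK
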