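import Pool.Agent.SYS.PX.Defs
import Pool.Agent.SYS.XP.Defs

/-!
# Project SYS (MP_650813_pr), block BLK (section 1 of /team-store/syst_star_43.md): definitions.  DO NOT CHANGE.

Permutation level (`a` = edges, `f` = faces, `N` = the hidden darts which are known): `nbh`, `bl` = dual balls inside `N`; `PC` = connected set of faces;
`Gd` = connected sets of at most `A` faces with at most `M` boundary darts, all edges revealed, which contain the face of `y`;
`Inn` = inner faces: least set which contains the face of `y` and, with every `Gd` subset `B`, the ball of radius `q` around `B` (`Q = q + 1`).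

Region level: base `S`, gate `x`, `U` an extension of `S` (a region of the run, or `ofTri T`): `nw` = new darts, `ff` = new face behind `x`, `bal` = dual
balls around `ff`, `inr` = inner faces.  `tgt` = possible next gates: boundary darts of `bal j`, `j ≤ J` least possible, then of `inr`.  `pick` = the first
target on the arc of new boundary darts around `z`.  `brul` = the rule of the block, `Done` = end of the block, `Rn` = nodes of the run (no node before is
`Done`), `Blk` = finished blocks (all steps planar).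
-/

namespace SYS.BK

open Classical SST SYS.Part

variable {D : Type}

/-- The face of `y`. -/
def fc (f : Equiv.Perm D) (y : D) : Set D := {y, f y, f (f y)}

/-- `Y` and the faces of `N` which have a common edge with `Y`. -/
def nbh (a f : Equiv.Perm D) (N Y : Set D) : Set D :=
  {d | d ∈ N ∧ (d ∈ Y ∨ a d ∈ Y ∨ a (f d) ∈ Y ∨ a (f (f d)) ∈ Y)}

/-- Dual ball around `Y` in `N`. -/
def bl (a f : Equiv.Perm D) (N Y : Set D) : ℕ → Set D
  | 0 => Y
  | n + 1 => nbh a f N (bl a f N Y n)

/-- Connected set of faces. -/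
def PC (a f : Equiv.Perm D) (B : Set D) : Prop :=
  ∀ Z ⊆ B, Z.Nonempty → (∀ d ∈ Z, f d ∈ Z) → (∀ d ∈ Z, a d ∈ B → a d ∈ Z) → Z = B

/-- Boundary darts. -/
def bd (a : Equiv.Perm D) (B : Set D) : Set D := {d | d ∈ B ∧ a d ∉ B}

/-- Frame: edges `a`, faces `f`, `N` is a set of triangles. -/
structure Frm (a f : Equiv.Perm D) (N : Set D) : Prop where
  aa : ∀ d, a (a d) = d
  fff : ∀ d, f (f (f d)) = d
  fN : ∀ d, f d ∈ N ↔ d ∈ N
  ne : ∀ d ∈ N, f d ≠ d

/-- Good sets. -/
structure Gd (a f : Equiv.Perm D) (N : Set D) (y : D) (M A : ℕ) (B : Set D) : Prop where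
  sub : B ⊆ N
  fs : ∀ d, f d ∈ B ↔ d ∈ B
  mem : y ∈ B
  ne : ∀ d ∈ B, a d ≠ d
  pc : PC a f B
  per : (bd a B).ncard ≤ M
  vol : B.ncard ≤ 3 * A

/-- Closed sets. -/
def Cl (a f : Equiv.Perm D) (N : Set D) (y : D) (M A q : ℕ) (I : Set D) : Prop :=
  (y ∈ N → fc f y ⊆ I) ∧ ∀ B ⊆ I, Gd a f N y M A B → bl a f N B q ⊆ I

/-- Inner faces. -/
def Inn (a f : Equiv.Perm D) (N : Set D) (y : D) (M A q : ℕ) : Set D := ⋂₀ {I | Cl a f N y M A q I}

/-- Parameters: `M` perimeter, `A` area, `q + 1 = Q` thickness, `J` radius of the first phase. -/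
structure Prm where
  M : ℕ
  A : ℕ
  q : ℕ
  J : ℕ

/-- Admissible parameters. -/
structure Prm.Ok (P : Prm) : Prop where
  q1 : 1 ≤ P.q
  jM : P.J + 3 ≤ P.M
  jA : P.J + 1 ≤ P.A

/-- `R₀ = A + Q`. -/
def Prm.R0 (P : Prm) : ℕ := P.A + P.q + 1

/-- Bound for the number of steps. -/
def Prm.K (P : Prm) : ℕ := 9 * 2 ^ P.R0

/-- New darts. -/
def nw (S U : Part D) : Set D := U.R \ S.R

/-- The new face behind `x`. -/
def ff (S U : Part D) (x : D) : Set D := {d | d ∈ nw S U ∧ d ∈ fc U.f (U.a x)}

/-- New faces at dual distance at most `j` from the face behind `x`. -/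
def bal (S U : Part D) (x : D) (j : ℕ) : Set D := bl U.a U.f (nw S U) (ff S U x) j

/-- Inner faces. -/
def inr (P : Prm) (S U : Part D) (x : D) : Set D := Inn U.a U.f (nw S U) (U.a x) P.M P.A P.q

/-- Possible next gates. -/
noncomputable def tgt (P : Prm) (S S₁ : Part D) (x : D) : Set D :=
  if h : ∃ j, j ≤ P.J ∧ (S₁.B ∩ bal S S₁ x j).Nonempty then S₁.B ∩ bal S S₁ x (Nat.find h) else S₁.B ∩ inr P S S₁ x

/-- The block is complete. -/
def Done (P : Prm) (S S₁ : Part D) (x : D) : Prop := S₁.a x ≠ x ∧ ∀ d ∈ S₁.B, d ∉ inr P S S₁ x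

section
variable [Finite D]

/-- `nx^i z` is in `G`, new darts in between. -/
def fw (S S₁ : Part D) (z : D) (G : Set D) (i : ℕ) : Prop :=
  (S₁.nx ^ i) z ∈ G ∧ ∀ m ≤ i, (S₁.nx ^ m) z ∈ nw S S₁

/-- `nx^(-i-1) z` is in `G`, new darts in between. -/
def bw (S S₁ : Part D) (z : D) (G : Set D) (i : ℕ) : Prop :=
  (S₁.nx⁻¹ ^ (i + 1)) z ∈ G ∧ ∀ m ≤ i, (S₁.nx⁻¹ ^ (m + 1)) z ∈ nw S S₁

/-- The first element of `G` on the arc of new boundary darts, forwards, then backwards. -/
noncomputable def pick (S S₁ : Part D) (z : D) (G : Set D) : D :=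
  if h : ∃ i, fw S S₁ z G i then (S₁.nx ^ Nat.find h) z
  else if h : ∃ i, bw S S₁ z G i then (S₁.nx⁻¹ ^ (Nat.find h + 1)) z
  else z

/-- The rule of the block. -/
noncomputable def brul (P : Prm) (S : Part D) (x : D) : List Stp → Part D → D → D :=
  fun _ S₁ z => pick S S₁ z (tgt P S S₁ x)

/-- Nodes of the run of the block (all steps planar, no earlier node is `Done`). -/
inductive Rn (P : Prm) (S : Part D) (x : D) : List Stp → Part D → D → Prop
  | root : Rn P S x [] S x
  | step {w : List Stp} {S₁ : Part D} {d : D} {s : Stp} {S₂ : Part D} {z : D} : Rn P S x w S₁ d → ¬ Done P S S₁ x →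
      S₁.St d s S₂ z → Rn P S x (w ++ [s]) S₂ (brul P S x (w ++ [s]) S₂ z)

/-- Finished blocks. -/
def Blk (P : Prm) (S : Part D) (x : D) (w : List Stp) (S' : Part D) (x' : D) : Prop := Rn P S x w S' x' ∧ Done P S S' x

/-- The hole of `z` in `S₁`: an arc `v ++ u` of new darts and an arc `o` of the hole of `x` in `S`; all new boundary darts are in this hole.
`t1` is absorbed on the right (`x` included, after the first step), `t2` on the left. -/
def Arc (S S₁ : Part D) (x z : D) (u o v t1 t2 : List D) : Prop :=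
  S₁.hw z = u ++ (o ++ v) ∧ S.hw x = t1 ++ (o ++ t2) ∧ (∀ d ∈ u, d ∉ S.R) ∧ (∀ d ∈ v, d ∉ S.R) ∧
    ∀ d ∈ S₁.B, d ∉ S.R → d ∈ u ∨ d ∈ v

/-- The local rule of a path: after a new triangle turn left (`t1`) or right (`t2`). -/
def tr (τ : ℕ → Bool) : List Stp → ℕ := fun h => if τ h.length then 1 else 0

/-- Number of boundary darts which a step can remove. -/
def cs : Stp → ℕ
  | .T => 1
  | .L k _ => k + 2
  | .R k _ => k + 2

end

/-! ## The rule as a function of the region (`PX/Defs`); nodes `BR (nxt P S x) S x w S' z'`, ends `BEnd` -/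

/-- The end of the word `l` (`true` = `a`, `false` = `f`) which starts at the dart behind `x`. -/
def go (U : Part D) (x : D) (l : List Bool) : D := l.foldl (fun d b => if b then U.a d else U.f d) (U.a x)

/-- The word stays in the new darts and ends in `G`. -/
def Gw (S U : Part D) (x : D) (G : Set D) (l : List Bool) : Prop := (∀ l', l' <+: l → go U x l' ∈ nw S U) ∧ go U x l ∈ G

/-- The element of `G` which is reached by the word with the least code. -/
noncomputable def cho (S U : Part D) (x : D) (G : Set D) : Option D :=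
  if h : ∃ n : ℕ, ∃ l : List Bool, Encodable.encode l = n ∧ Gw S U x G l then some (go U x (Nat.find_spec h).choose) else none

/-- The rule of the block with base `S` and gate `x`. -/
noncomputable def nxt (P : Prm) (S : Part D) (x : D) (Z : Part D) : Option D :=
  if Z.a x = x then some x else cho S Z x (tgt P S Z x)

/-- A closing at the gate `d`. -/
def Closing [Finite D] (S : Part D) (T : Tri D) (d : D) : Prop := (∃ u v, S.NSt T d u v) ∨ (∃ u v, S.Sep T d u v) ∨ S.Mrg T d

end SYS.BK
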