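import Pool.Agent.SYS.BK.Len
import Pool.Agent.SYS.BK.Lay

/-!
# SYSS-BLK-Fro: the first phase explores the dual balls generation by generation

Generation `j` (`j ≤ J`): nodes `S₁` with `S₁.B ∩ bal j ≠ ∅`, `S₁.B ∩ bal i = ∅` for `i < j`.  In generation `j` all boundary darts which are not in `bal j` are in `bal (j+1)`; when generation `j` ends all new boundary darts are in `bal (j+1)`.

The proofs follow the generations along the run.
-/

namespace SYS.BK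

open Classical SST SYS.Part

variable {D : Type} [Finite D] {P : Prm} {S S₁ S' S₂ : Part D} {x d x' z : D} {w : List Stp} {s : Stp} {j : ℕ}

/-- The node `S₁` is in generation `j`. -/
def Gen (S S₁ : Part D) (x : D) (j : ℕ) : Prop := (S₁.B ∩ bal S S₁ x j).Nonempty ∧ ∀ i < j, S₁.B ∩ bal S S₁ x i = ∅

private theorem fr_face_a (S : Part D) {x t0 t1 t2 : D} (hx : x ∈ S.B) (h0 : t0 ∉ S.R) (h1 : t1 ∉ S.R) (h2 : t2 ∉ S.R)
    (h01 : t0 ≠ t1) (h12 : t1 ≠ t2) (h20 : t2 ≠ t0) :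
    (S.face x t0 t1 t2 hx h0 h1 h2 h01 h12 h20).a x = t0 := by
  have hf : S.f t0 = t0 := not_not.1 h0
  have ha : S.a t0 = t0 := S.af t0 hf
  show (S.a * Equiv.swap x t0) x = t0
  rw [Equiv.Perm.mul_apply, Equiv.swap_apply_left, ha]

private theorem fr_face_f0 (S : Part D) {x t0 t1 t2 : D} (hx : x ∈ S.B) (h0 : t0 ∉ S.R) (h1 : t1 ∉ S.R) (h2 : t2 ∉ S.R)
    (h01 : t0 ≠ t1) (h12 : t1 ≠ t2) (h20 : t2 ≠ t0) :
    (S.face x t0 t1 t2 hx h0 h1 h2 h01 h12 h20).f t0 = t1 := by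
  have hf : S.f t1 = t1 := not_not.1 h1
  show (S.f * cyc3 t0 t1 t2) t0 = t1
  rw [Equiv.Perm.mul_apply, cyc3, Equiv.Perm.mul_apply, Equiv.swap_apply_of_ne_of_ne h01 h20.symm, Equiv.swap_apply_left, hf]

private theorem fr_face_f1 (S : Part D) {x t0 t1 t2 : D} (hx : x ∈ S.B) (h0 : t0 ∉ S.R) (h1 : t1 ∉ S.R) (h2 : t2 ∉ S.R)
    (h01 : t0 ≠ t1) (h12 : t1 ≠ t2) (h20 : t2 ≠ t0) :
    (S.face x t0 t1 t2 hx h0 h1 h2 h01 h12 h20).f t1 = t2 := by
  have hf : S.f t2 = t2 := not_not.1 h2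
  show (S.f * cyc3 t0 t1 t2) t1 = t2
  rw [Equiv.Perm.mul_apply, cyc3, Equiv.Perm.mul_apply, Equiv.swap_apply_left, Equiv.swap_apply_of_ne_of_ne h20 h12.symm, hf]

private theorem st_new {e : D} (hst : S₁.St d s S₂ z) (he : e ∈ S₂.B) (he' : e ∉ S₁.R) :
    e ∈ fc S₂.f (S₂.a d) ∧ S₂.a d ∉ S₁.R := by
  cases s with
  | T =>
    obtain ⟨t0, t1, t2, hx, h0, h1, h2, h01, h12, h20, rfl, rfl⟩ := hst
    rw [fr_face_a S₁ hx h0 h1 h2 h01 h12 h20]
    refine ⟨?_, h0⟩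
    unfold fc
    rw [fr_face_f0 S₁ hx h0 h1 h2 h01 h12 h20, fr_face_f1 S₁ hx h0 h1 h2 h01 h12 h20]
    rw [face_B] at he
    rcases he with he | he
    · exact absurd (S₁.B_sub_R he.1) he'
    · exact Or.inr he
  | L k a =>
    exfalso
    obtain ⟨y, u, v, w, hx, hy, hw, hk, hu, hf⟩ := hst
    apply he'
    rcases hf with ⟨_, _, hf⟩ | ⟨_, V, _, hf⟩
    · rw [hf] at he
      exact Part.B_sub_R (S₁.glue d y hx hy) he
    · rw [hf.B] at he
      exact Part.B_sub_R (S₁.glue d y hx hy) he.1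
  | R k a =>
    exfalso
    obtain ⟨y, u, v, w, hx, hy, hw, hk, hu, hf⟩ := hst
    apply he'
    rcases hf with ⟨_, _, hf⟩ | ⟨_, V, _, hf⟩
    · rw [hf] at he
      exact Part.B_sub_R (S₁.glue d y hx hy) he
    · rw [hf.B] at he
      exact Part.B_sub_R (S₁.glue d y hx hy) he.1

omit [Finite D] in
private theorem sub_B {e : D} (h : S₁.Sub S₂) (he : e ∈ S₂.B) (he' : e ∈ S₁.R) : e ∈ S₁.B := by
  refine ⟨he', ?_⟩
  by_contra hc
  have h1 := h.2 e hc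
  exact hc (h1.symm.trans he.2)

omit [Finite D] in
private theorem sub_R {e : D} (h : S₁.Sub S₂) (he : e ∈ S₁.R) : e ∈ S₂.R := by
  show S₂.f e ≠ e
  rw [h.1 e he]
  exact he

private theorem rn_nil (h : Rn P S x w S₁ d) (hw : w = []) : S₁ = S ∧ d = x := by
  cases h with
  | root => exact ⟨rfl, rfl⟩
  | step h1 h2 h3 => exact absurd hw (by simp)

private theorem fz (h : S.St x s S₂ z) : S₂.B \ S.R ⊆ bal S S₂ x 0 := by
  intro e he
  exact ⟨⟨Part.B_sub_R S₂ he.1, he.2⟩, (st_new h he.1 he.2).1⟩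

omit [Finite D] in
private theorem emp_step {i : ℕ} (hS : S.Sub S₁) (hU : S₁.Sub S₂) (hx : x ∈ S.B) (hn : S₁.a x ≠ x)
    (h : S₁.B ∩ bal S S₁ x i = ∅) : S₂.B ∩ bal S S₂ x i = ∅ := by
  have h1 : ∀ e ∈ S₁.B, e ∉ bal S S₁ x i := by
    intro e he hc
    have h2 : e ∈ S₁.B ∩ bal S S₁ x i := ⟨he, hc⟩
    rw [h] at h2
    exact h2
  rw [bal_stab hS hU hx hn h1 (Nat.le_succ i)]
  rw [Set.eq_empty_iff_forall_notMem]
  rintro e ⟨he, hb⟩
  exact h1 e (sub_B hU he (bal_sub i hb).1) hb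

private theorem chd (hS : S.Sub S₁) (hx : x ∈ S.B) {i : ℕ} (hb : S₁.B \ S.R ⊆ bal S S₁ x (i + 1))
    (hd : d ∈ bal S S₁ x i) (hst : S₁.St d s S₂ z) : S₂.B \ S.R ⊆ bal S S₂ x (i + 1) := by
  intro e he
  have hU := (st_sub hst).1
  by_cases heR : e ∈ S₁.R
  · exact bal_mono hS hU hx _ (hb ⟨sub_B hU he.1 heR, he.2⟩)
  · obtain ⟨h1, h2⟩ := st_new hst he.1 heR
    have hdR : d ∈ S₂.R := sub_R hU (Part.B_sub_R S₁ (st_sub hst).2.1)
    have h3 : S₂.a d ∈ nw S S₂ := ⟨(mem_R_a S₂ d).2 hdR, fun hc => h2 (sub_R hS hc)⟩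
    have h4 : S₂.a d ∈ bal S S₂ x (i + 1) := by
      apply bal_adj h3
      rw [S₂.aa]
      exact bal_mono hS hU hx _ hd
    have hSU : S.Sub S₂ := sub_trans hS hU
    have h5 : S₂.f (S₂.a d) ∈ bal S S₂ x (i + 1) := (bal_fs hSU _ _).2 h4
    have h6 : S₂.f (S₂.f (S₂.a d)) ∈ bal S S₂ x (i + 1) := (bal_fs hSU _ _).2 h5
    rcases h1 with h1 | h1 | h1
    · rw [h1]
      exact h4
    · rw [h1]
      exact h5
    · rw [Set.mem_singleton_iff] at h1
      rw [h1]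
      exact h6

theorem fro_zero (hx : x ∈ S.B) (h : Rn P S x [s] S' x') : S'.B \ S.R ⊆ bal S S' x 0 := by
  obtain ⟨S₁, d, z, h1, h2, h3, h4⟩ := rn_snoc (w := []) h
  obtain ⟨h5, h6⟩ := rn_nil h1 rfl
  subst h5
  subst h6
  exact fz h3

theorem tgt_gen (hj : j ≤ P.J) (hg : Gen S S₁ x j) : tgt P S S₁ x = S₁.B ∩ bal S S₁ x j := by
  have h : ∃ j, j ≤ P.J ∧ (S₁.B ∩ bal S S₁ x j).Nonempty := ⟨j, hj, hg.1⟩
  unfold tgt
  rw [dif_pos h]
  have h2 : Nat.find h = j := by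
    rw [Nat.find_eq_iff]
    refine ⟨⟨hj, hg.1⟩, fun i hi hc => ?_⟩
    have h3 := hc.2
    rw [hg.2 i hi] at h3
    exact Set.not_nonempty_empty h3
  rw [h2]

theorem fro (hx : x ∈ S.B) (h : Rn P S x w S' x') (hw : w ≠ []) (hj : j ≤ P.J) (hg : Gen S S' x j) : S'.B \ S.R ⊆ bal S S' x (j + 1) := by
  induction h generalizing j with
  | root => exact absurd rfl hw
  | @step w S₁ d s S₂ z h1 hnd hst ih =>
    by_cases hw0 : w = []
    · obtain ⟨h5, h6⟩ := rn_nil h1 hw0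
      subst h5
      subst h6
      exact (fz hst).trans (bal_le (Nat.zero_le _))
    · have hS := rn_sub h1
      have hU := (st_sub hst).1
      have hn := rn_glued hx h1 hw0
      have hex : ∃ i, i ≤ j ∧ (S₁.B ∩ bal S S₁ x i).Nonempty := by
        by_contra hcon
        push Not at hcon
        have h2 := emp_step hS hU hx hn (hcon j (le_refl _))
        have h3 := hg.1
        rw [h2] at h3
        exact Set.not_nonempty_empty h3
      have hmin : Gen S S₁ x (Nat.find hex) := by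
        refine ⟨(Nat.find_spec hex).2, fun i hi => ?_⟩
        have h4 := Nat.find_min hex hi
        by_contra hc
        apply h4
        exact ⟨hi.le.trans (Nat.find_spec hex).1, Set.nonempty_iff_ne_empty.2 hc⟩
      have hle : Nat.find hex ≤ j := (Nat.find_spec hex).1
      have h4 := ih hw0 (hle.trans hj) hmin
      have h5 := rn_gate hx h1 hw0 hnd
      rw [tgt_gen (hle.trans hj) hmin] at h5
      exact (chd hS hx h4 h5.2 hst).trans (bal_le (by omega))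

/-- One step in generation `j`. -/
theorem fro_step (hx : x ∈ S.B) (h : Rn P S x w S₁ d) (hw : w ≠ []) (hd : ¬ Done P S S₁ x) (hj : j ≤ P.J) (hg : Gen S S₁ x j)
    (hst : S₁.St d s S₂ z) :
    S₂.B \ S.R ⊆ bal S S₂ x (j + 1) ∧ (∀ i < j, S₂.B ∩ bal S S₂ x i = ∅) ∧
      (S₁.B ∩ bal S S₁ x j).ncard ≤ (S₂.B ∩ bal S S₂ x j).ncard + cs s := by
  have hS := rn_sub h
  have hU := (st_sub hst).1
  have hn := rn_glued hx h hw
  have h5 := rn_gate hx h hw hd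
  rw [tgt_gen hj hg] at h5
  refine ⟨chd hS hx (fro hx h hw hj hg) h5.2 hst, fun i hi => emp_step hS hU hx hn (hg.2 i hi), ?_⟩
  have h6 : S₁.B ∩ bal S S₁ x j ⊆ (S₂.B ∩ bal S S₂ x j) ∪ (S₁.B \ S₂.B) := by
    rintro e ⟨he1, he2⟩
    by_cases he3 : e ∈ S₂.B
    · exact Or.inl ⟨he3, bal_mono hS hU hx j he2⟩
    · exact Or.inr ⟨he1, he3⟩
  have h7 := Set.ncard_le_ncard h6 (Set.toFinite _)
  have h8 := Set.ncard_union_le (S₂.B ∩ bal S S₂ x j) (S₁.B \ S₂.B)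
  have h9 := st_count hst
  omega

/-- A node of generation `j ≤ J` is not finished. -/
theorem gen_not_done (hP : P.Ok) (hs : S.Sub S₁) (hj : j ≤ P.J) (hg : Gen S S₁ x j) : ¬ Done P S S₁ x := by
  intro hdn
  obtain ⟨e, he1, he2⟩ := hg.1
  exact hdn.2 e he1 (bal_inr_done hP hs hdn (bal_le (by omega) he2))

end SYS.BK
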