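import Pool.Agent.SYS.BK.LenB
import Pool.Agent.SYS.BK.Fro

/-!
# SYSS-BLK-FroB: the first phase explores the dual balls generation by generation

Generation `j` (`j ≤ J`): nodes `S₁` with `S₁.B ∩ bal j ≠ ∅`, `S₁.B ∩ bal i = ∅` for `i < j`.  In generation `j` all boundary darts which are not in `bal j` are in `bal (j+1)`; when generation `j` ends all new boundary darts are in `bal (j+1)`.

PLAN.  (The same facts for the old form of the rule are proved in `BK/Fro.lean`: copy and adapt; `Rn` becomes `BR (nxt P S x) S x`.)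
* `front_zero`: the first step: `T`: `S'.B \ S.R = {t1, t2} ⊆ ff S S' x`; `L`, `R`: empty.
* `tgt_gen` and the definition `Gen` are in `BK/Fro.lean`.  `nxt_gen`: `tgt_gen`, `nxt_none`, `nxt_mem`.
* `front`: invariant over the run (nodes with `w ≠ []`): for every `j ≤ J` with `Gen S S' x j`: `S'.B \ S.R ⊆ bal (j + 1)`.  The child `S₂` of a node `S₁` of generation `j`: the gate is in `bal S S₁ x j` (`node_gate`, `tgt_gen`), the new boundary darts `t1, t2` are in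
  `bal S S₂ x (j+1)` (`bal_adj` for `t0`, `bal_fs`), the old ones by `bal_mono`: `S₂.B \ S.R ⊆ bal (j+1)`.  Generations increase: `bal_stab` for `i < j`: `bal S S₂ x i = bal S S₁ x i`, a dart of `S₂.B` in `S₁.R` is in `S₁.B`.  So the generation of `S₂` is some `j' ≥ j` and `bal (j+1) ⊆ bal (j'+1)`.
  (If `S₁` has no generation `≤ J` then neither has `S₂`: `bal_stab` with `j = J`.)
* `front_step`: the rest is `st_count` and `bal_mono`: `(S₁.B ∩ bal S S₁ x j) \ (S₂.B ∩ bal S S₂ x j) ⊆ S₁.B \ S₂.B`.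
-/

namespace SYS.BK

open Classical SST SYS.Part

variable {D : Type} [Finite D] {P : Prm} {S S₁ S' S₂ : Part D} {x d z z' : D} {w : List Stp} {s : Stp} {j : ℕ}

private theorem fr_face_a (S : Part D) {x t0 t1 t2 : D} (hx : x ∈ S.B) (h0 : t0 ∉ S.R) (h1 : t1 ∉ S.R) (h2 : t2 ∉ S.R)
    (h01 : t0 ≠ t1) (h12 : t1 ≠ t2) (h20 : t2 ≠ t0) :
    (S.face x t0 t1 t2 hx h0 h1 h2 h01 h12 h20).a x = t0 := by
  have hf : S.f t0 = t0 := not_not.1 h0
  have ha : S.a t0 = t0 := S.af t0 hf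
  show (S.a * Equiv.swap x t0) x = t0
  rw [Equiv.Perm.mul_apply, Equiv.swap_apply_left, ha]

private theorem fr_face_f0 (S : Part D) {x t0 t1 t2 : D} (hx : x ∈ S.B) (h0 : t0 ∉ S.R) (h1 : t1 ∉ S.R) (h2 : t2 ∉ S.R)
    (h01 : t0 ≠ t1) (h12 : t1 ≠ t2) (h20 : t2 ≠ t0) :
    (S.face x t0 t1 t2 hx h0 h1 h2 h01 h12 h20).f t0 = t1 := by
  have hf : S.f t1 = t1 := not_not.1 h1
  show (S.f * cyc3 t0 t1 t2) t0 = t1
  rw [Equiv.Perm.mul_apply, cyc3, Equiv.Perm.mul_apply, Equiv.swap_apply_of_ne_of_ne h01 h20.symm, Equiv.swap_apply_left, hf]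

private theorem fr_face_f1 (S : Part D) {x t0 t1 t2 : D} (hx : x ∈ S.B) (h0 : t0 ∉ S.R) (h1 : t1 ∉ S.R) (h2 : t2 ∉ S.R)
    (h01 : t0 ≠ t1) (h12 : t1 ≠ t2) (h20 : t2 ≠ t0) :
    (S.face x t0 t1 t2 hx h0 h1 h2 h01 h12 h20).f t1 = t2 := by
  have hf : S.f t2 = t2 := not_not.1 h2
  show (S.f * cyc3 t0 t1 t2) t1 = t2
  rw [Equiv.Perm.mul_apply, cyc3, Equiv.Perm.mul_apply, Equiv.swap_apply_left, Equiv.swap_apply_of_ne_of_ne h20 h12.symm, hf]

private theorem st_new {e : D} (hst : S₁.St d s S₂ z) (he : e ∈ S₂.B) (he' : e ∉ S₁.R) :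
    e ∈ fc S₂.f (S₂.a d) ∧ S₂.a d ∉ S₁.R := by
  cases s with
  | T =>
    obtain ⟨t0, t1, t2, hx, h0, h1, h2, h01, h12, h20, rfl, rfl⟩ := hst
    rw [fr_face_a S₁ hx h0 h1 h2 h01 h12 h20]
    refine ⟨?_, h0⟩
    unfold fc
    rw [fr_face_f0 S₁ hx h0 h1 h2 h01 h12 h20, fr_face_f1 S₁ hx h0 h1 h2 h01 h12 h20]
    rw [face_B] at he
    rcases he with he | he
    · exact absurd (S₁.B_sub_R he.1) he'
    · exact Or.inr he
  | L k a =>
    exfalso
    obtain ⟨y, u, v, w, hx, hy, hw, hk, hu, hf⟩ := hst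
    apply he'
    rcases hf with ⟨_, _, hf⟩ | ⟨_, V, _, hf⟩
    · rw [hf] at he
      exact Part.B_sub_R (S₁.glue d y hx hy) he
    · rw [hf.B] at he
      exact Part.B_sub_R (S₁.glue d y hx hy) he.1
  | R k a =>
    exfalso
    obtain ⟨y, u, v, w, hx, hy, hw, hk, hu, hf⟩ := hst
    apply he'
    rcases hf with ⟨_, _, hf⟩ | ⟨_, V, _, hf⟩
    · rw [hf] at he
      exact Part.B_sub_R (S₁.glue d y hx hy) he
    · rw [hf.B] at he
      exact Part.B_sub_R (S₁.glue d y hx hy) he.1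

omit [Finite D] in
private theorem sub_B {e : D} (h : S₁.Sub S₂) (he : e ∈ S₂.B) (he' : e ∈ S₁.R) : e ∈ S₁.B := by
  refine ⟨he', ?_⟩
  by_contra hc
  have h1 := h.2 e hc
  exact hc (h1.symm.trans he.2)

omit [Finite D] in
private theorem sub_R {e : D} (h : S₁.Sub S₂) (he : e ∈ S₁.R) : e ∈ S₂.R := by
  show S₂.f e ≠ e
  rw [h.1 e he]
  exact he

private theorem fz (h : S.St x s S₂ z) : S₂.B \ S.R ⊆ bal S S₂ x 0 := by
  intro e he
  exact ⟨⟨Part.B_sub_R S₂ he.1, he.2⟩, (st_new h he.1 he.2).1⟩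

omit [Finite D] in
private theorem emp_step {i : ℕ} (hS : S.Sub S₁) (hU : S₁.Sub S₂) (hx : x ∈ S.B) (hn : S₁.a x ≠ x)
    (h : S₁.B ∩ bal S S₁ x i = ∅) : S₂.B ∩ bal S S₂ x i = ∅ := by
  have h1 : ∀ e ∈ S₁.B, e ∉ bal S S₁ x i := by
    intro e he hc
    have h2 : e ∈ S₁.B ∩ bal S S₁ x i := ⟨he, hc⟩
    rw [h] at h2
    exact h2
  rw [bal_stab hS hU hx hn h1 (Nat.le_succ i)]
  rw [Set.eq_empty_iff_forall_notMem]
  rintro e ⟨he, hb⟩
  exact h1 e (sub_B hU he (bal_sub i hb).1) hb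

private theorem chd (hS : S.Sub S₁) (hx : x ∈ S.B) {i : ℕ} (hb : S₁.B \ S.R ⊆ bal S S₁ x (i + 1))
    (hd : d ∈ bal S S₁ x i) (hst : S₁.St d s S₂ z) : S₂.B \ S.R ⊆ bal S S₂ x (i + 1) := by
  intro e he
  have hU := (st_sub hst).1
  by_cases heR : e ∈ S₁.R
  · exact bal_mono hS hU hx _ (hb ⟨sub_B hU he.1 heR, he.2⟩)
  · obtain ⟨h1, h2⟩ := st_new hst he.1 heR
    have hdR : d ∈ S₂.R := sub_R hU (Part.B_sub_R S₁ (st_sub hst).2.1)
    have h3 : S₂.a d ∈ nw S S₂ := ⟨(mem_R_a S₂ d).2 hdR, fun hc => h2 (sub_R hS hc)⟩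
    have h4 : S₂.a d ∈ bal S S₂ x (i + 1) := by
      apply bal_adj h3
      rw [S₂.aa]
      exact bal_mono hS hU hx _ hd
    have hSU : S.Sub S₂ := sub_trans hS hU
    have h5 : S₂.f (S₂.a d) ∈ bal S S₂ x (i + 1) := (bal_fs hSU _ _).2 h4
    have h6 : S₂.f (S₂.f (S₂.a d)) ∈ bal S S₂ x (i + 1) := (bal_fs hSU _ _).2 h5
    rcases h1 with h1 | h1 | h1
    · rw [h1]
      exact h4
    · rw [h1]
      exact h5
    · rw [Set.mem_singleton_iff] at h1
      rw [h1]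
      exact h6

private theorem br_snocB {b : Part D → Option D} (h : BR b S x (w ++ [s]) S' z') : ∃ S₁ z₁ d, BR b S x w S₁ z₁ ∧ b S₁ = some d ∧
    d ∈ S₁.B ∧ S₁.s.SameCycle z₁ d ∧ S₁.St d s S' z' := by
  obtain ⟨S₁, z₁, h1, d, Z₁, z₂, h3, h4, h5, h6, h7, h8⟩ := br_append.1 h
  subst h7 h8
  exact ⟨S₁, z₁, d, h1, h3, h4, h5, h6⟩

private theorem br_rind {b : Part D → Option D} {I : List Stp → Part D → D → Prop} (h0 : I [] S x)
    (hst : ∀ (w : List Stp) (S₁ : Part D) (z₁ d : D) (s : Stp) (S₂ : Part D) (z₂ : D), BR b S x w S₁ z₁ → I w S₁ z₁ →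
      b S₁ = some d → S₁.St d s S₂ z₂ → I (w ++ [s]) S₂ z₂) (h : BR b S x w S' z') : I w S' z' := by
  induction w using List.reverseRecOn generalizing S' z' with
  | nil =>
    obtain ⟨rfl, rfl⟩ := h
    exact h0
  | append_singleton w s ih =>
    obtain ⟨S₁, z₁, d, h1, h2, h3, h4, h5⟩ := br_snocB h
    exact hst w S₁ z₁ d s S' z' h1 (ih h1) h2 h5

omit [Finite D] in
private theorem bl_emp (a f : Equiv.Perm D) (N : Set D) (n : ℕ) : bl a f N ∅ n = ∅ := by
  induction n with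
  | zero => rfl
  | succ n ih =>
    show nbh a f N (bl a f N ∅ n) = ∅
    rw [ih, Set.eq_empty_iff_forall_notMem]
    rintro d ⟨-, h | h | h | h⟩
    · exact h
    · exact h
    · exact h
    · exact h

theorem front_zero (hx : x ∈ S.B) (h : S.St x s S' z') : S'.B \ S.R ⊆ bal S S' x 0 := by
  exact fz h

/-- In generation `j ≤ J` the block is not complete, the gate is in `bal j`. -/
theorem nxt_gen (hs : S.Sub S₁) (hj : j ≤ P.J) (hg : Gen S S₁ x j) : ∃ d, nxt P S x S₁ = some d ∧ d ∈ S₁.B ∩ bal S S₁ x j := by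
  by_cases hax : S₁.a x = x
  · refine ⟨x, ?_, ?_⟩
    · unfold nxt
      rw [if_pos hax]
    · have hne : (ff S S₁ x).Nonempty := by
        rw [Set.nonempty_iff_ne_empty]
        intro h0
        obtain ⟨e, -, he⟩ := hg.1
        unfold bal at he
        rw [h0, bl_emp] at he
        exact he
      obtain ⟨e, he1, he2⟩ := hne
      have hfr := frm_nw hs
      rw [hax] at he2
      have hxn : x ∈ nw S S₁ := by
        rcases he2 with h3 | h3 | h3
        · rw [← h3]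
          exact he1
        · rw [h3, hfr.fN] at he1
          exact he1
        · have h4 : e = S₁.f (S₁.f x) := h3
          rw [h4, hfr.fN, hfr.fN] at he1
          exact he1
      have hxB : x ∈ S₁.B := ⟨hxn.1, hax⟩
      have hx0 : x ∈ bal S S₁ x 0 := by
        refine ⟨hxn, ?_⟩
        rw [hax]
        exact Or.inl rfl
      by_cases hj0 : j = 0
      · rw [hj0]
        exact ⟨hxB, hx0⟩
      · exfalso
        have h5 : x ∈ S₁.B ∩ bal S S₁ x 0 := ⟨hxB, hx0⟩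
        rw [hg.2 0 (by omega)] at h5
        exact h5
  · have h1 : nxt P S x S₁ = cho S S₁ x (tgt P S S₁ x) := by
      unfold nxt
      rw [if_neg hax]
    have h2 := tgt_gen (P := P) hj hg
    have h3 : nxt P S x S₁ ≠ none := by
      rw [h1, h2]
      intro h4
      rw [cho_none hs (r := j) Set.inter_subset_right] at h4
      have h5 := hg.1
      rw [h4] at h5
      exact Set.not_nonempty_empty h5
    obtain ⟨d, hd⟩ := Option.ne_none_iff_exists'.1 h3
    refine ⟨d, hd, ?_⟩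
    rw [h1, h2] at hd
    exact (cho_mem hd).1

theorem front (hx : x ∈ S.B) (h : BR (nxt P S x) S x w S' z') (hw : w ≠ []) (hj : j ≤ P.J) (hg : Gen S S' x j) :
    S'.B \ S.R ⊆ bal S S' x (j + 1) := by
  refine br_rind (I := fun w S' _ => ∀ j, w ≠ [] → j ≤ P.J → Gen S S' x j → S'.B \ S.R ⊆ bal S S' x (j + 1))
    (fun _ h => absurd rfl h) ?_ h j hw hj hg
  intro w S₁ z₁ d s S₂ z₂ h1 ih hd hst j _ hj hg
  have hgate := (node_gate hx h1 hd).2.2
  by_cases hw0 : w = []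
  · rcases hgate with ⟨-, h5, h6⟩ | ⟨h5, -⟩
    · subst h5
      subst h6
      exact (fz hst).trans (bal_le (Nat.zero_le _))
    · exact absurd hw0 h5
  · have hS : S.Sub S₁ := br_sub h1
    have hU := (st_sub hst).1
    have hn := node_glued hx h1 hw0
    have hex : ∃ i, i ≤ j ∧ (S₁.B ∩ bal S S₁ x i).Nonempty := by
      by_contra hcon
      push Not at hcon
      have h2 := emp_step hS hU hx hn (hcon j (le_refl _))
      have h3 := hg.1
      rw [h2] at h3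
      exact Set.not_nonempty_empty h3
    have hmin : Gen S S₁ x (Nat.find hex) := by
      refine ⟨(Nat.find_spec hex).2, fun i hi => ?_⟩
      have h4 := Nat.find_min hex hi
      by_contra hc
      apply h4
      exact ⟨hi.le.trans (Nat.find_spec hex).1, Set.nonempty_iff_ne_empty.2 hc⟩
    have hle : Nat.find hex ≤ j := (Nat.find_spec hex).1
    have h4 := ih _ hw0 (hle.trans hj) hmin
    have h5 : d ∈ tgt P S S₁ x := hgate.elim (fun h => absurd h.1 hw0) (fun h => h.2)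
    rw [tgt_gen (hle.trans hj) hmin] at h5
    exact (chd hS hx h4 h5.2 hst).trans (bal_le (by omega))

/-- One step in generation `j`. -/
theorem front_step (hx : x ∈ S.B) (h : BR (nxt P S x) S x w S₁ z) (hw : w ≠ []) (hj : j ≤ P.J) (hg : Gen S S₁ x j)
    (hd : nxt P S x S₁ = some d) (hst : S₁.St d s S₂ z') :
    S₂.B \ S.R ⊆ bal S S₂ x (j + 1) ∧ (∀ i < j, S₂.B ∩ bal S S₂ x i = ∅) ∧
      (S₁.B ∩ bal S S₁ x j).ncard ≤ (S₂.B ∩ bal S S₂ x j).ncard + cs s := by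
  have hS : S.Sub S₁ := br_sub h
  have hU := (st_sub hst).1
  have hn := node_glued hx h hw
  have h5 : d ∈ tgt P S S₁ x := (node_gate hx h hd).2.2.elim (fun h => absurd h.1 hw) (fun h => h.2)
  rw [tgt_gen hj hg] at h5
  refine ⟨chd hS hx (front hx h hw hj hg) h5.2 hst, fun i hi => emp_step hS hU hx hn (hg.2 i hi), ?_⟩
  have h6 : S₁.B ∩ bal S S₁ x j ⊆ (S₂.B ∩ bal S S₂ x j) ∪ (S₁.B \ S₂.B) := by
    rintro e ⟨he1, he2⟩
    by_cases he3 : e ∈ S₂.B
    · exact Or.inl ⟨he3, bal_mono hS hU hx j he2⟩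
    · exact Or.inr ⟨he1, he3⟩
  have h7 := Set.ncard_le_ncard h6 (Set.toFinite _)
  have h8 := Set.ncard_union_le (S₂.B ∩ bal S S₂ x j) (S₁.B \ S₂.B)
  have h9 := step_count hst
  omega

end SYS.BK
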