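import Pool.Agent.SYS.BK.Run
import Pool.Agent.SYS.Reg.Ind
import Pool.Agent.SYS.Reg.Loc

/-!
# SYSS-BLK-Ind: base independence for blocks

Local runs with a condition on the nodes before the last one, counted as in `Reg/Ind`.
-/

namespace SYS.BK

open Classical SST SYS.Part

/-- Local runs with a condition on the nodes before the last one. -/
def LRchC {D : Type} [Finite D] (C : Part D → Prop) (σ : List Stp → Part D → D → D) (S : Part D) (x : D) (W : ℕ) :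
    List Stp → Part D → D → List Stp → Part D → D → Prop
  | _, S₁, d, [], S', x' => S' = S₁ ∧ x' = d
  | h, S₁, d, s :: w, S', x' => C S₁ ∧ ∃ (S₂ : Part D) (z : D), LSt S S₁ x W d s S₂ z ∧
      LRchC C σ S x W (h ++ [s]) S₂ (σ (h ++ [s]) S₂ z) w S' x'

private theorem lrchC_rchg {D : Type} [Finite D] {C : Part D → Prop} {σ : List Stp → Part D → D → D} {S S₁ S' : Part D} {x d x' : D}
    {W : ℕ} {h w : List Stp} (hr : LRchC C σ S x W h S₁ d w S' x') : RchG σ h S₁ d w S' x' := by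
  induction w generalizing h S₁ d with
  | nil => exact hr
  | cons s w ih =>
    obtain ⟨_, S₂, z, h1, h2⟩ := hr
    exact ⟨S₂, z, h1.1, ih h2⟩

private theorem lrchC_of {D : Type} [Finite D] {C : Part D → Prop} {σ : List Stp → Part D → D → D} {S S₁ S' : Part D} {x d x' : D}
    {W : ℕ} {h w : List Stp} (hr : LRch σ S x W h S₁ d w S' x')
    (hc : ∀ u v S₂ e, w = u ++ v → v ≠ [] → RchG σ h S₁ d u S₂ e → RchG σ (h ++ u) S₂ e v S' x' → C S₂) :
    LRchC C σ S x W h S₁ d w S' x' := by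
  induction w generalizing h S₁ d with
  | nil => exact hr
  | cons s w ih =>
    have h0 : C S₁ := hc [] (s :: w) S₁ d rfl (List.cons_ne_nil _ _) ⟨rfl, rfl⟩
      (by rw [List.append_nil]; exact lrch_rchg hr)
    obtain ⟨S₂, z, h1, h2⟩ := hr
    refine ⟨h0, S₂, z, h1, ih h2 ?_⟩
    intro u v S₃ e hw hv hr1 hr2
    refine hc (s :: u) v S₃ e (by rw [hw, List.cons_append]) hv ⟨S₂, z, h1.1, hr1⟩ ?_
    rw [List.append_assoc, List.singleton_append] at hr2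
    exact hr2

private theorem lrchC_cond {D : Type} [Finite D] {C : Part D → Prop} {σ : List Stp → Part D → D → D} {S S₁ S' : Part D} {x d x' : D}
    {W : ℕ} {h w : List Stp} (hr : LRchC C σ S x W h S₁ d w S' x') :
    ∀ u v S₂ e, w = u ++ v → v ≠ [] → RchG σ h S₁ d u S₂ e → RchG σ (h ++ u) S₂ e v S' x' → C S₂ := by
  induction w generalizing h S₁ d with
  | nil =>
    intro u v S₂ e hw hv
    exact absurd (List.append_eq_nil_iff.1 hw.symm).2 hv
  | cons s w ih =>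
    obtain ⟨h0, S₂, z, h1, h2⟩ := hr
    intro u v S₃ e hw hv hr1 hr2
    cases u with
    | nil =>
      obtain ⟨h3, h4⟩ := hr1
      rw [h3]
      exact h0
    | cons s' u =>
      rw [List.cons_append, List.cons.injEq] at hw
      obtain ⟨hs, hw⟩ := hw
      subst hs
      obtain ⟨S₄, z', h3, h4⟩ := hr1
      obtain ⟨h5, h6⟩ := st_unique h1.1 h3 (rchg_sub (lrchC_rchg h2)) (sub_trans (rchg_sub h4) (rchg_sub hr2))
      subst h5
      subst h6
      refine ih h2 u v S₃ e hw hv h4 ?_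
      rw [List.append_assoc, List.singleton_append]
      exact hr2

private theorem indC_three {D : Type} [Finite D] {A : Set D} {t0 t1 t2 : D} (k0 : t0 ∉ A) (k1 : t1 ∉ A) (k2 : t2 ∉ A)
    (h01 : t0 ≠ t1) (h12 : t1 ≠ t2) (h20 : t2 ≠ t0) :
    (A ∪ {t0, t1, t2}).ncard = A.ncard + 3 := by
  have hd : Disjoint A ({t0, t1, t2} : Set D) := by
    rw [Set.disjoint_left]
    rintro a ha (h | h | h)
    · exact k0 (h ▸ ha)
    · exact k1 (h ▸ ha)
    · exact k2 (h ▸ ha)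
  rw [Set.ncard_union_eq hd (Set.toFinite _) (Set.toFinite _)]
  congr 1
  rw [Set.ncard_eq_three]
  exact ⟨t0, t1, t2, h01, h20.symm, h12, rfl⟩

private theorem indC_fill {D : Type} [Finite D] {S S' : Part D} {u : List D} {a : ℕ} (h : S.DiscFill S' u a) :
    S'.R.ncard = S.R.ncard + 3 * a := by
  rcases h with ⟨_, h1, h2⟩ | ⟨_, V, _, h3⟩
  · rw [h1, h2]
    rfl
  · exact h3.R

/-- a step reveals `3 vol s` darts -/
private theorem indC_R {D : Type} [Finite D] {S S' : Part D} {x z : D} {s : Stp} (h : S.St x s S' z) :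
    S'.R.ncard = S.R.ncard + 3 * s.vol := by
  cases s with
  | T =>
    obtain ⟨t0, t1, t2, hx, h0, h1, h2, h01, h12, h20, rfl, rfl⟩ := h
    rw [face_R]
    exact indC_three h0 h1 h2 h01 h12 h20
  | L k a =>
    obtain ⟨y, u, v, w, hx, hy, _, _, _, hf⟩ := h
    have h1 := indC_fill hf
    rw [glue_R] at h1
    exact h1
  | R k a =>
    obtain ⟨y, u, v, w, hx, hy, _, _, _, hf⟩ := h
    have h1 := indC_fill hf
    rw [glue_R] at h1
    exact h1

private theorem indC_F {D : Type} [Finite D] {S S' : Part D} {x z : D} {s : Stp} (h : S.St x s S' z) {F : ℕ}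
    (hF : S.R.ncard + 3 * F = Nat.card D) : S'.R.ncard + 3 * (F - s.vol) = Nat.card D := by
  have h1 := indC_R h
  have h2 : S'.R.ncard ≤ Nat.card D := by
    rw [← Set.ncard_univ]
    exact Set.ncard_le_ncard (Set.subset_univ _) (Set.toFinite _)
  omega

/-- the first step of a local run -/
private theorem indC_fib {D : Type} [Finite D] (C : Part D → Prop) (σ : List Stp → Part D → D → D) (Φ : Part D → D → Prop)
    (S S₁ : Part D) (x d : D) (W : ℕ) (hh w : List Stp) (s : Stp) (hC : C S₁) :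
    (({q : Part D × D | LRchC C σ S x W hh S₁ d (s :: w) q.1 q.2 ∧ Φ q.1 q.2}.ncard : ℕ) : ℝ) =
      ∑ᶠ b ∈ {b : Part D × D | LSt S S₁ x W d s b.1 b.2},
        (({q : Part D × D | LRchC C σ S x W (hh ++ [s]) b.1 (σ (hh ++ [s]) b.1 b.2) w q.1 q.2 ∧ Φ q.1 q.2}.ncard : ℕ) : ℝ) := by
  have hA := fib_card {q : Part D × D | LRchC C σ S x W hh S₁ d (s :: w) q.1 q.2 ∧ Φ q.1 q.2}
    {b : Part D × D | LSt S S₁ x W d s b.1 b.2}
    (fun q b => LRchC C σ S x W (hh ++ [s]) b.1 (σ (hh ++ [s]) b.1 b.2) w q.1 q.2) ?_ ?_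
  · rw [hA]
    refine finsum_mem_congr rfl ?_
    rintro ⟨S₂, z⟩ hb
    have hset : {a | a ∈ {q : Part D × D | LRchC C σ S x W hh S₁ d (s :: w) q.1 q.2 ∧ Φ q.1 q.2} ∧
        LRchC C σ S x W (hh ++ [s]) S₂ (σ (hh ++ [s]) S₂ z) w a.1 a.2} =
        {q : Part D × D | LRchC C σ S x W (hh ++ [s]) S₂ (σ (hh ++ [s]) S₂ z) w q.1 q.2 ∧ Φ q.1 q.2} := by
      ext q
      exact ⟨fun hq => ⟨hq.2, hq.1.2⟩, fun hq => ⟨⟨⟨hC, S₂, z, hb, hq.1⟩, hq.2⟩, hq.1⟩⟩
    show (({a | a ∈ {q : Part D × D | LRchC C σ S x W hh S₁ d (s :: w) q.1 q.2 ∧ Φ q.1 q.2} ∧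
        LRchC C σ S x W (hh ++ [s]) S₂ (σ (hh ++ [s]) S₂ z) w a.1 a.2}.ncard : ℕ) : ℝ) = _
    rw [hset]
  · rintro q ⟨⟨_, S₂, z, h1, h2⟩, _⟩
    exact ⟨(S₂, z), h1, h2⟩
  · rintro q - ⟨S₂, z⟩ hb ⟨S₃, z₃⟩ hb' hr hr'
    obtain ⟨h1, h2⟩ := st_unique hb.1 hb'.1 (rchg_sub (lrchC_rchg hr)) (rchg_sub (lrchC_rchg hr'))
    exact Prod.ext h1 h2

private theorem indC_mul {α : Type} [Finite α] (B : Set α) (f : α → ℝ) (K : ℝ) :
    (∑ᶠ b ∈ B, f b) * K = ∑ᶠ b ∈ B, f b * K := by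
  rw [finsum_mem_eq_finite_toFinset_sum _ (Set.toFinite B), finsum_mem_eq_finite_toFinset_sum _ (Set.toFinite B),
    Finset.sum_mul]

private theorem indC_desc (F v m : ℕ) :
    (((3 * F).descFactorial (3 * (v + m)) : ℕ) : ℝ) =
      (((3 * (F - v)).descFactorial (3 * m) : ℕ) : ℝ) * (((3 * F).descFactorial (3 * v) : ℕ) : ℝ) := by
  have h2 := Nat.descFactorial_mul_descFactorial (k := 3 * v) (m := 3 * (v + m)) (n := 3 * F) (by omega)
  have h3 : 3 * F - 3 * v = 3 * (F - v) := by omega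
  have h4 : 3 * (v + m) - 3 * v = 3 * m := by omega
  rw [h3, h4] at h2
  rw [← h2, Nat.cast_mul]

private theorem indC_nil {D : Type} [Finite D] (C : Part D → Prop) (σ : List Stp → Part D → D → D) (Φ : Part D → D → Prop)
    (S S₁ : Part D) (x d : D) (W : ℕ) (hh : List Stp) :
    {q : Part D × D | LRchC C σ S x W hh S₁ d [] q.1 q.2 ∧ Φ q.1 q.2} = if Φ S₁ d then {(S₁, d)} else ∅ := by
  ext ⟨a, b⟩
  by_cases hp : Φ S₁ d
  · rw [if_pos hp]
    constructor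
    · rintro ⟨⟨q1, q2⟩, _⟩
      exact Prod.ext q1 q2
    · intro hq
      obtain ⟨q1, q2⟩ := Prod.mk.inj (Set.mem_singleton_iff.1 hq)
      subst q1
      subst q2
      exact ⟨⟨rfl, rfl⟩, hp⟩
  · rw [if_neg hp]
    constructor
    · rintro ⟨⟨q1, q2⟩, hq⟩
      have q1' : a = S₁ := q1
      have q2' : b = d := q2
      subst q1'
      subst q2'
      exact absurd hq hp
    · intro hq
      exact absurd hq (Set.notMem_empty _)

private theorem indC_emp {D : Type} [Finite D] (C : Part D → Prop) (σ : List Stp → Part D → D → D) (Φ : Part D → D → Prop)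
    (S S₁ : Part D) (x d : D) (W : ℕ) (hh w : List Stp) (s : Stp) (hC : ¬ C S₁) :
    {q : Part D × D | LRchC C σ S x W hh S₁ d (s :: w) q.1 q.2 ∧ Φ q.1 q.2} = ∅ := by
  rw [Set.eq_empty_iff_forall_notMem]
  rintro q ⟨h1, _⟩
  exact hC h1.1

section
variable {D E : Type} [Finite D] [Finite E] {S S₁ : Part D} {x d : D} {T T₁ : Part E} {y : E} {W : ℕ} {θ : D → E}
  {σ : List Stp → Part D → D → D} {σ' : List Stp → Part E → E → E}

theorem indC (hI : IRul σ σ' S x T y W) (C : Part D → Prop) (C' : Part E → Prop)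
    (hC : ∀ (S' : Part D) (T' : Part E) (θ : D → E), Sim S S' x T T' y W θ → (C S' ↔ C' T'))
    (Φ : Part D → D → Prop) (Φ' : Part E → E → Prop)
    (hΦ : ∀ (S' : Part D) (T' : Part E) (θ : D → E) (x' : D), Sim S S' x T T' y W θ → x' ∈ NW S S' x W → (Φ S' x' ↔ Φ' T' (θ x')))
    (h : Sim S S₁ x T T₁ y W θ) (hd : d ∈ NW S S₁ x W) (hh w : List Stp) {F F' : ℕ}
    (hF : S₁.R.ncard + 3 * F = Nat.card D) (hF' : T₁.R.ncard + 3 * F' = Nat.card E) :
    (({q : Part D × D | LRchC C σ S x W hh S₁ d w q.1 q.2 ∧ Φ q.1 q.2}.ncard : ℕ) : ℝ) *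
        (((3 * F').descFactorial (3 * wvol w) : ℕ) : ℝ) =
      (({q : Part E × E | LRchC C' σ' T y W hh T₁ (θ d) w q.1 q.2 ∧ Φ' q.1 q.2}.ncard : ℕ) : ℝ) *
        (((3 * F).descFactorial (3 * wvol w) : ℕ) : ℝ) := by
  induction w generalizing S₁ d T₁ θ hh F F' with
  | nil =>
    have h1 : Φ S₁ d ↔ Φ' T₁ (θ d) := hΦ S₁ T₁ θ d h hd
    rw [indC_nil, indC_nil, wvol_nil, Nat.mul_zero, Nat.descFactorial_zero, Nat.descFactorial_zero]
    by_cases hp : Φ S₁ d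
    · rw [if_pos hp, if_pos (h1.1 hp), Set.ncard_singleton, Set.ncard_singleton]
    · rw [if_neg hp, if_neg (fun h' => hp (h1.2 h')), Set.ncard_empty, Set.ncard_empty]
  | cons s w ih =>
    by_cases hCS : C S₁
    · have hCT : C' T₁ := (hC S₁ T₁ θ h).1 hCS
      rw [indC_fib C σ Φ S S₁ x d W hh w s hCS, indC_fib C' σ' Φ' T T₁ y (θ d) W hh w s hCT, wvol_cons, indC_desc,
        indC_desc, ← mul_assoc, ← mul_assoc,
        indC_mul (α := Part D × D) _ _ (((3 * (F' - s.vol)).descFactorial (3 * wvol w) : ℕ) : ℝ),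
        indC_mul (α := Part E × E) _ _ (((3 * (F - s.vol)).descFactorial (3 * wvol w) : ℕ) : ℝ)]
      refine sim_sum h hd s hF hF'
        (fun b => (({q : Part D × D | LRchC C σ S x W (hh ++ [s]) b.1 (σ (hh ++ [s]) b.1 b.2) w q.1 q.2 ∧ Φ q.1 q.2}.ncard : ℕ) : ℝ) *
          (((3 * (F' - s.vol)).descFactorial (3 * wvol w) : ℕ) : ℝ))
        (fun b => (({q : Part E × E | LRchC C' σ' T y W (hh ++ [s]) b.1 (σ' (hh ++ [s]) b.1 b.2) w q.1 q.2 ∧ Φ' q.1 q.2}.ncard : ℕ) : ℝ) *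
          (((3 * (F - s.vol)).descFactorial (3 * wvol w) : ℕ) : ℝ)) ?_
      intro S₂ z T₂ z' θ' hs hs' hsim hz hz'
      subst hz'
      obtain ⟨h1, h2⟩ := hI (hh ++ [s]) S₂ T₂ θ' z hsim hz (st_sub hs.1).2.2
      have h3 := ih hsim h1 (hh ++ [s]) (F := F - s.vol) (F' := F' - s.vol) (indC_F hs.1 hF) (indC_F hs'.1 hF')
      show (({q : Part D × D | LRchC C σ S x W (hh ++ [s]) S₂ (σ (hh ++ [s]) S₂ z) w q.1 q.2 ∧ Φ q.1 q.2}.ncard : ℕ) : ℝ) *
          (((3 * (F' - s.vol)).descFactorial (3 * wvol w) : ℕ) : ℝ) =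
        (({q : Part E × E | LRchC C' σ' T y W (hh ++ [s]) T₂ (σ' (hh ++ [s]) T₂ (θ' z)) w q.1 q.2 ∧ Φ' q.1 q.2}.ncard : ℕ) : ℝ) *
          (((3 * (F - s.vol)).descFactorial (3 * wvol w) : ℕ) : ℝ)
      rw [h2]
      exact h3
    · have hCT : ¬ C' T₁ := fun hc => hCS ((hC S₁ T₁ θ h).2 hc)
      rw [indC_emp C σ Φ S S₁ x d W hh w s hCS, indC_emp C' σ' Φ' T T₁ y (θ d) W hh w s hCT, Set.ncard_empty,
        Set.ncard_empty, Nat.cast_zero, zero_mul, zero_mul]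

end

theorem rn_lrch {D : Type} [Finite D] {P : Prm} {S S' : Part D} {x x' : D} {w : List Stp} {W : ℕ} (hx : x ∈ S.B) (hW : wk w ≤ W)
    (hp : 2 * W + 1 < S.per x) : Rn P S x w S' x' ↔ LRchC (fun S₁ => ¬ Done P S S₁ x) (brul P S x) S x W [] S x w S' x' := by
  constructor
  · intro h
    have h1 : LRch (brul P S x) S x W [] S x w S' x' :=
      loc_run (brul_rul P S x) (fun _ _ _ _ _ => brul_new) hx hW hp (rn_rchg h)
    refine lrchC_of h1 ?_
    intro u v S₂ e hw hv hr1 hr2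
    rw [hw] at h
    exact (rn_anc h hr1 hr2).2 hv
  · intro h
    refine rn_of (lrchC_rchg h) ?_
    intro u v S₁ d hw hv hr1 hr2
    exact lrchC_cond h u v S₁ d hw hv hr1 hr2

/-- Base independence for the run of a block: `Ψ` is an intrinsic property (for instance `Done` and the number of exits, `sim_done`, `sim_exits`). -/
theorem rn_ind {D E : Type} [Finite D] [Finite E] {P : Prm} {S : Part D} {x : D} {T : Part E} {y : E} {w : List Stp} {W F F' : ℕ}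
    (hx : x ∈ S.B) (hy : y ∈ T.B) (hW : wk w ≤ W) (hp : 2 * W + 1 < S.per x) (hp' : 2 * W + 1 < T.per y)
    (hF : S.R.ncard + 3 * F = Nat.card D) (hF' : T.R.ncard + 3 * F' = Nat.card E)
    (Ψ : Part D → Prop) (Ψ' : Part E → Prop) (hΨ : ∀ (S' : Part D) (T' : Part E) (θ : D → E), Sim S S' x T T' y W θ → (Ψ S' ↔ Ψ' T')) :
    (({q : Part D × D | Rn P S x w q.1 q.2 ∧ Ψ q.1}.ncard : ℕ) : ℝ) * (((3 * F').descFactorial (3 * wvol w) : ℕ) : ℝ) =
      (({q : Part E × E | Rn P T y w q.1 q.2 ∧ Ψ' q.1}.ncard : ℕ) : ℝ) * (((3 * F).descFactorial (3 * wvol w) : ℕ) : ℝ) := by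
  obtain ⟨θ, hθ⟩ := sim_refl (W := W) hx hy hp hp'
  have hb : S.bs x 0 = x := by
    show (S.nx ^ (0 : ℤ)) x = x
    rw [zpow_zero]
    rfl
  have hb' : T.bs y 0 = y := by
    show (T.nx ^ (0 : ℤ)) y = y
    rw [zpow_zero]
    rfl
  have hd : x ∈ NW S S x W := Or.inr ⟨0, by simp, hb.symm⟩
  have hxy : θ x = y := by
    have h1 := hθ.base 0 (by simp)
    rw [hb, hb'] at h1
    exact h1
  have h1 : {q : Part D × D | Rn P S x w q.1 q.2 ∧ Ψ q.1} =
      {q : Part D × D | LRchC (fun S₁ => ¬ Done P S S₁ x) (brul P S x) S x W [] S x w q.1 q.2 ∧ Ψ q.1} := by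
    ext q
    rw [Set.mem_ofPred_eq, Set.mem_ofPred_eq, rn_lrch hx hW hp]
  have h2 : {q : Part E × E | Rn P T y w q.1 q.2 ∧ Ψ' q.1} =
      {q : Part E × E | LRchC (fun S₁ => ¬ Done P T S₁ y) (brul P T y) T y W [] T (θ x) w q.1 q.2 ∧ Ψ' q.1} := by
    ext q
    rw [Set.mem_ofPred_eq, Set.mem_ofPred_eq, rn_lrch hy hW hp', hxy]
  rw [h1, h2]
  exact indC (brul_irul P S x T y W) (fun S₁ => ¬ Done P S S₁ x) (fun S₁ => ¬ Done P T S₁ y)
    (fun S' T' θ' hs => not_congr (sim_done hs)) (fun S' _ => Ψ S') (fun T' _ => Ψ' T')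
    (fun S' T' θ' x' hs _ => hΨ S' T' θ' hs) hθ hd [] w hF hF'

/-- Base independence for finished blocks with `m` exits. -/
theorem blk_ind {D E : Type} [Finite D] [Finite E] {P : Prm} {S : Part D} {x : D} {T : Part E} {y : E} {w : List Stp} {W F F' : ℕ}
    (hx : x ∈ S.B) (hy : y ∈ T.B) (hW : wk w ≤ W) (hp : 2 * W + 1 < S.per x) (hp' : 2 * W + 1 < T.per y)
    (hF : S.R.ncard + 3 * F = Nat.card D) (hF' : T.R.ncard + 3 * F' = Nat.card E) (m : ℕ) :
    (({q : Part D × D | Blk P S x w q.1 q.2 ∧ (q.1.B \ S.R).ncard = m}.ncard : ℕ) : ℝ) * (((3 * F').descFactorial (3 * wvol w) : ℕ) : ℝ) =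
      (({q : Part E × E | Blk P T y w q.1 q.2 ∧ (q.1.B \ T.R).ncard = m}.ncard : ℕ) : ℝ) *
        (((3 * F).descFactorial (3 * wvol w) : ℕ) : ℝ) := by
  have h1 : {q : Part D × D | Blk P S x w q.1 q.2 ∧ (q.1.B \ S.R).ncard = m} =
      {q : Part D × D | Rn P S x w q.1 q.2 ∧ (Done P S q.1 x ∧ (q.1.B \ S.R).ncard = m)} := by
    ext q
    exact ⟨fun h => ⟨h.1.1, h.1.2, h.2⟩, fun h => ⟨⟨h.1, h.2.1⟩, h.2.2⟩⟩
  have h2 : {q : Part E × E | Blk P T y w q.1 q.2 ∧ (q.1.B \ T.R).ncard = m} =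
      {q : Part E × E | Rn P T y w q.1 q.2 ∧ (Done P T q.1 y ∧ (q.1.B \ T.R).ncard = m)} := by
    ext q
    exact ⟨fun h => ⟨h.1.1, h.1.2, h.2⟩, fun h => ⟨⟨h.1, h.2.1⟩, h.2.2⟩⟩
  rw [h1, h2]
  refine rn_ind hx hy hW hp hp' hF hF' (fun S' => Done P S S' x ∧ (S'.B \ S.R).ncard = m)
    (fun T' => Done P T T' y ∧ (T'.B \ T.R).ncard = m) ?_
  intro S' T' θ hs
  have h3 := sim_exits hs
  have h4 := sim_done (P := P) hs
  show (Done P S S' x ∧ (S'.B \ S.R).ncard = m) ↔ (Done P T T' y ∧ (T'.B \ T.R).ncard = m)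
  rw [h3, h4]

end SYS.BK
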