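import Pool.Agent.SYS.BK.Pth

/-!
# SYSS-BLK-Inn: inner faces (permutation level)
-/

namespace SYS.BK

open Classical SST SYS.Part

variable {D : Type} {a f : Equiv.Perm D} {N : Set D} {y : D} {M A q : ℕ}

private theorem fc_self (f : Equiv.Perm D) (y : D) : y ∈ fc f y := Or.inl rfl

private theorem fc_sub {Y : Set D} (hY : ∀ d, f d ∈ Y ↔ d ∈ Y) {y : D} (hy : y ∈ Y) :
    fc f y ⊆ Y := by
  rintro d (rfl | rfl | rfl)
  · exact hy
  · exact (hY y).2 hy
  · exact (hY (f y)).2 ((hY y).2 hy)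

private theorem fc_back {Y : Set D} (hY : ∀ d, f d ∈ Y ↔ d ∈ Y) {d e : D} (he : e ∈ fc f d)
    (h : e ∈ Y) : d ∈ Y := by
  rcases he with rfl | rfl | rfl
  · exact h
  · exact (hY d).1 h
  · exact (hY d).1 ((hY (f d)).1 h)

theorem inn_sub {I : Set D} (h : Cl a f N y M A q I) : Inn a f N y M A q ⊆ I :=
  Set.sInter_subset_of_mem h

theorem inn_cl : Cl a f N y M A q (Inn a f N y M A q) := by
  refine ⟨fun hy => ?_, fun B hB hg => ?_⟩
  · exact Set.subset_sInter fun I hI => hI.1 hy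
  · exact Set.subset_sInter fun I hI => hI.2 B (hB.trans (inn_sub hI)) hg

theorem inn_N (h : Frm a f N) : Inn a f N y M A q ⊆ N :=
  inn_sub ⟨fun hy => fc_sub h.fN hy, fun _ hB _ => bl_sub hB q⟩

theorem inn_fs (h : Frm a f N) (d : D) : f d ∈ Inn a f N y M A q ↔ d ∈ Inn a f N y M A q := by
  have hc : Cl a f N y M A q {d | d ∈ Inn a f N y M A q ∧ f d ∈ Inn a f N y M A q ∧
      f (f d) ∈ Inn a f N y M A q} := by
    refine ⟨fun hy d hd => ?_, fun B hB hg d hd => ?_⟩
    · have h1 := (inn_cl (a := a) (f := f) (N := N) (y := y) (M := M) (A := A) (q := q)).1 hy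
      have h2 : f d ∈ fc f y := (fc_fs h.fff y d).2 hd
      exact ⟨h1 hd, h1 h2, h1 ((fc_fs h.fff y (f d)).2 h2)⟩
    · have h1 := (inn_cl (a := a) (f := f) (N := N) (y := y) (M := M) (A := A) (q := q)).2 B
        (fun c hc => (hB hc).1) hg
      have h2 : f d ∈ bl a f N B q := (bl_fs h hg.fs q d).2 hd
      exact ⟨h1 hd, h1 h2, h1 ((bl_fs h hg.fs q (f d)).2 h2)⟩
  constructor
  · intro hd
    have h1 := (inn_sub hc hd).2.2
    rwa [h.fff] at h1
  · intro hd
    exact (inn_sub hc hd).2.1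

theorem inn_empty (hy : y ∉ N) : Inn a f N y M A q = ∅ := by
  rw [Set.eq_empty_iff_forall_notMem]
  intro d hd
  have hc : Cl a f N y M A q ∅ :=
    ⟨fun h => absurd h hy, fun B hB hg => absurd (hB hg.mem) (Set.notMem_empty y)⟩
  exact inn_sub hc hd

theorem inn_cases (h : Frm a f N) {d : D} (hd : d ∈ Inn a f N y M A q) :
    d ∈ fc f y ∨ ∃ B, B ⊆ Inn a f N y M A q ∧ Gd a f N y M A B ∧ d ∈ bl a f N B q := by
  have _ := h
  have hc : Cl a f N y M A q {d | d ∈ fc f y ∨ ∃ B, B ⊆ Inn a f N y M A q ∧ Gd a f N y M A B ∧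
      d ∈ bl a f N B q} := by
    refine ⟨fun _ d hd => Or.inl hd, fun B hB hg d hd => Or.inr ⟨B, fun c hc => ?_, hg, hd⟩⟩
    have hy : y ∈ N := hg.sub hg.mem
    have hI := inn_cl (a := a) (f := f) (N := N) (y := y) (M := M) (A := A) (q := q)
    rcases hB hc with h1 | ⟨B', h1, h2, h3⟩
    · exact hI.1 hy h1
    · exact hI.2 B' h1 h2 h3
  exact inn_sub hc hd

theorem gd_bl [Finite D] (h : Frm a f N) {B : Set D} (hg : Gd a f N y M A B) : B ⊆ bl a f N (fc f y) A := by
  have hy : y ∈ N := hg.sub hg.mem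
  have hF : fc f y ⊆ N := fc_sub h.fN hy
  have hfs : ∀ n d, f d ∈ bl a f N (fc f y) n ↔ d ∈ bl a f N (fc f y) n := fun n d =>
    bl_fs h (fc_fs h.fff y) n d
  have hZ0 : fc f y ⊆ B ∩ bl a f N (fc f y) 0 := fun d hd => ⟨fc_sub hg.fs hg.mem hd, hd⟩
  have hZs : ∀ n, B ∩ bl a f N (fc f y) n ⊆ B ∩ bl a f N (fc f y) (n + 1) := fun n d hd =>
    ⟨hd.1, bl_le hF (Nat.le_succ n) hd.2⟩
  have hst : ∀ n, B ∩ bl a f N (fc f y) (n + 1) ⊆ B ∩ bl a f N (fc f y) n →
      B ∩ bl a f N (fc f y) n = B := by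
    intro n hn
    apply hg.pc _ Set.inter_subset_left
    · exact ⟨y, hg.mem, bl_le hF (Nat.zero_le n) (fc_self f y)⟩
    · intro d hd
      exact ⟨(hg.fs d).2 hd.1, (hfs n d).2 hd.2⟩
    · intro d hd had
      apply hn
      refine ⟨had, bl_adj (hg.sub had) ?_⟩
      rw [h.aa]
      exact hd.2
  have key : ∀ n, B ∩ bl a f N (fc f y) n = B ∨ 3 * (n + 1) ≤ (B ∩ bl a f N (fc f y) n).ncard := by
    intro n
    induction n with
    | zero =>
      refine Or.inr ?_
      have h1 := Set.ncard_le_ncard hZ0 (Set.toFinite _)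
      rw [(fc_pc h hy).2.1] at h1
      exact h1
    | succ n ih =>
      rcases ih with ih | ih
      · refine Or.inl (Set.Subset.antisymm Set.inter_subset_left ?_)
        intro d hd
        rw [← ih] at hd
        exact hZs n hd
      · by_cases hn : B ∩ bl a f N (fc f y) (n + 1) ⊆ B ∩ bl a f N (fc f y) n
        · refine Or.inl (Set.Subset.antisymm Set.inter_subset_left ?_)
          intro d hd
          rw [← hst n hn] at hd
          exact hZs n hd
        · refine Or.inr ?_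
          obtain ⟨c, hc1, hc2⟩ := Set.not_subset.1 hn
          have hfZ : ∀ m d, f d ∈ B ∩ bl a f N (fc f y) m ↔ d ∈ B ∩ bl a f N (fc f y) m :=
            fun m d => and_congr (hg.fs d) (hfs m d)
          have h1 : fc f c ⊆ B ∩ bl a f N (fc f y) (n + 1) := fc_sub (hfZ (n + 1)) hc1
          have h2 : Disjoint (B ∩ bl a f N (fc f y) n) (fc f c) := by
            rw [Set.disjoint_left]
            intro e he1 he2
            exact hc2 (fc_back (hfZ n) he2 he1)
          have h3 := Set.ncard_le_ncard (Set.union_subset (hZs n) h1) (Set.toFinite _)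
          rw [Set.ncard_union_eq h2 (Set.toFinite _) (Set.toFinite _),
            (fc_pc h (hg.sub hc1.1)).2.1] at h3
          omega
  rcases key A with h1 | h1
  · intro d hd
    rw [← h1] at hd
    exact hd.2
  · have h2 := Set.ncard_le_ncard (Set.inter_subset_left (s := B) (t := bl a f N (fc f y) A))
      (Set.toFinite _)
    have h3 := hg.vol
    omega

theorem inn_bl [Finite D] (h : Frm a f N) : Inn a f N y M A q ⊆ bl a f N (fc f y) (A + q) := by
  refine inn_sub ⟨fun hy => ?_, fun B _ hg => ?_⟩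
  · exact bl_le (fc_sub h.fN hy) (Nat.zero_le (A + q))
  · rw [← bl_add]
    exact bl_mono (gd_bl h hg) q

/-- A face adjacent to an inner face is contained in a connected set with small perimeter and area. -/
theorem inn_exit [Finite D] (h : Frm a f N) (hM : 3 ≤ M) (hA : 1 ≤ A) {d e : D} (hd : d ∈ N) (he : e ∈ fc f d)
    (hae : a e ∈ Inn a f N y M A q) :
    ∃ B ⊆ N, (∀ c, f c ∈ B ↔ c ∈ B) ∧ PC a f B ∧ y ∈ B ∧ d ∈ B ∧ (bd a B).ncard ≤ M + q + 1 ∧ B.ncard ≤ 3 * (A + q + 1) := by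
  have hy : y ∈ N := by
    by_contra hy
    rw [inn_empty hy] at hae
    exact hae
  have heN : e ∈ N := fc_sub h.fN hd he
  have main : ∀ (B : Set D) (n : ℕ), B ⊆ N → (∀ c, f c ∈ B ↔ c ∈ B) → PC a f B → y ∈ B →
      a e ∈ bl a f N B n → (bd a B).ncard + n ≤ M + q → B.ncard + 3 * n ≤ 3 * (A + q) →
      ∃ B ⊆ N, (∀ c, f c ∈ B ↔ c ∈ B) ∧ PC a f B ∧ y ∈ B ∧ d ∈ B ∧
        (bd a B).ncard ≤ M + q + 1 ∧ B.ncard ≤ 3 * (A + q + 1) := by
    intro B n hB hfs hpc hyB haeB h1 h2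
    have h3 : e ∈ bl a f N B (n + 1) := bl_adj heN haeB
    have h4 : d ∈ bl a f N B (n + 1) := fc_back (bl_fs h hfs (n + 1)) he h3
    obtain ⟨B', b1, b2, b3, b4, b5, b6, b7⟩ := bl_path h hB hfs hpc h4
    exact ⟨B', b2.trans (bl_sub hB _), b4, b5, b1 hyB, b3, by omega, by omega⟩
  rcases inn_cases h hae with h1 | ⟨B, -, hg, h1⟩
  · obtain ⟨f1, f2, f3⟩ := fc_pc h hy
    have f4 : (bd a (fc f y)).ncard ≤ (fc f y).ncard :=
      Set.ncard_le_ncard (fun c hc => hc.1) (Set.toFinite _)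
    exact main (fc f y) 0 f3 (fc_fs h.fff y) f1 (fc_self f y) h1 (by omega) (by omega)
  · have h2 := hg.per
    have h3 := hg.vol
    exact main B q hg.sub hg.fs hg.pc hg.mem h1 (by omega) (by omega)

end SYS.BK
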