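import Pool.Agent.SYS.BK.Run

/-!
# SYSS-BLK-Len: the number of steps and of exits of a block is bounded
-/

namespace SYS.BK

open Classical SST SYS.Part

variable {D : Type} [Finite D] {P : Prm} {S S₁ S' S₂ : Part D} {x d x' z : D} {w : List Stp} {s : Stp}

omit [Finite D] in
private theorem list_card (l : List D) : {e | e ∈ l}.ncard ≤ l.length := by
  have h1 : {e | e ∈ l} = (l.toFinset : Set D) := by
    ext e
    simp
  rw [h1, Set.ncard_coe_finset]
  exact List.toFinset_card_le l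

omit [Finite D] in
private theorem list_fin (l : List D) : {e | e ∈ l}.Finite := by
  have h1 : {e | e ∈ l} = (l.toFinset : Set D) := by
    ext e
    simp
  rw [h1]
  exact Finset.finite_toSet _

private theorem df_B {U U' : Part D} {m : List D} {a : ℕ} (hf : U.DiscFill U' m a) :
    U'.B ⊆ U.B ∧ ∀ e ∈ U.B, e ∉ m → e ∈ U'.B := by
  rcases hf with ⟨_, _, rfl⟩ | ⟨_, V, _, hf⟩
  · exact ⟨subset_rfl, fun e he _ => he⟩
  · rw [hf.B]
    exact ⟨fun e he => he.1, fun e he hm => ⟨he, hm⟩⟩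

private theorem gl_B {U U' : Part D} {y : D} {u v m : List D} {a : ℕ} (hx : x ∈ U.B) (hy : y ∈ U.B)
    (hw : U.hw x = x :: (u ++ y :: v)) (hf : (U.glue x y hx hy).DiscFill U' m a) :
    x ∉ U'.B ∧ (U.B \ U'.B).ncard ≤ m.length + 2 ∧ U'.B ⊆ U.B := by
  have hxy : x ≠ y := by
    have hn := U.hw_nodup hx
    rw [hw, List.nodup_cons] at hn
    rintro rfl
    apply hn.1
    rw [List.mem_append, List.mem_cons]
    tauto
  obtain ⟨h1, h2⟩ := df_B hf
  rw [glue_B _ _ _ hxy] at h1 h2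
  refine ⟨fun h => (h1 h).2 (Or.inl rfl), ?_, fun e he => (h1 he).1⟩
  have h3 : U.B \ U'.B ⊆ {e | e ∈ x :: y :: m} := by
    rintro e ⟨he, he'⟩
    rw [Set.mem_ofPred_eq, List.mem_cons, List.mem_cons]
    by_contra h4
    push Not at h4
    refine he' (h2 e ⟨he, ?_⟩ h4.2.2)
    rw [Set.mem_insert_iff, Set.mem_singleton_iff]
    tauto
  refine (Set.ncard_le_ncard h3 (Set.toFinite _)).trans ((list_card _).trans ?_)
  rw [List.length_cons, List.length_cons]

private theorem st_B (hst : S₁.St d s S₂ z) :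
    d ∉ S₂.B ∧ (S₁.B \ S₂.B).ncard ≤ cs s ∧ (S₂.B \ S₁.B).ncard ≤ 2 := by
  cases s with
  | T =>
    obtain ⟨t0, t1, t2, hx, h0, h1, h2, h01, h12, h20, rfl, rfl⟩ := hst
    rw [face_B]
    refine ⟨?_, ?_, ?_⟩
    · rintro (h | h)
      · exact h.2 rfl
      · rw [Set.mem_insert_iff, Set.mem_singleton_iff] at h
        rcases h with rfl | rfl
        · exact h1 (S₁.B_sub_R hx)
        · exact h2 (S₁.B_sub_R hx)
    · have h3 : S₁.B \ ((S₁.B \ {d}) ∪ {z, t2}) ⊆ {d} := by
        rintro e ⟨he, he'⟩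
        by_contra h4
        exact he' (Or.inl ⟨he, h4⟩)
      refine (Set.ncard_le_ncard h3 (Set.toFinite _)).trans ?_
      rw [Set.ncard_singleton]
      exact le_rfl
    · have h3 : ((S₁.B \ {d}) ∪ {z, t2}) \ S₁.B ⊆ {z, t2} := by
        rintro e ⟨he | he, he'⟩
        · exact absurd he.1 he'
        · exact he
      refine (Set.ncard_le_ncard h3 (Set.toFinite _)).trans ?_
      exact (Set.ncard_insert_le _ _).trans (by rw [Set.ncard_singleton])
  | L k a =>
    obtain ⟨y, u, v, w, hx, hy, hw, hk, hu, hf⟩ := hst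
    obtain ⟨h1, h2, h3⟩ := gl_B hx hy hw hf
    rw [hk] at h2
    refine ⟨h1, h2, ?_⟩
    rw [Set.sdiff_eq_empty.2 h3, Set.ncard_empty]
    omega
  | R k a =>
    obtain ⟨y, u, v, w, hx, hy, hw, hk, hv, hf⟩ := hst
    obtain ⟨h1, h2, h3⟩ := gl_B hx hy hw hf
    rw [hk] at h2
    refine ⟨h1, h2, ?_⟩
    rw [Set.sdiff_eq_empty.2 h3, Set.ncard_empty]
    omega

theorem tgt_bal (hP : P.Ok) (hs : S.Sub S₁) : tgt P S S₁ x ⊆ bal S S₁ x (P.A + P.q) := by
  unfold tgt
  split_ifs with h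
  · refine Set.inter_subset_right.trans (bal_le ?_)
    have h1 := (Nat.find_spec h).1
    have h2 := hP.jA
    omega
  · exact Set.inter_subset_right.trans (inr_bal hs)

theorem st_count (hst : S₁.St d s S₂ z) : (S₁.B \ S₂.B).ncard ≤ cs s := by
  exact (st_B hst).2.1

private theorem len_inv (hP : P.Ok) (hx : x ∈ S.B) (h : Rn P S x w S' x') :
    w ≠ [] → w.length ≤ 1 + {e | e ∈ bal S S' x (P.A + P.q) ∧ e ∉ S'.B}.ncard := by
  induction h with
  | root => exact fun h => absurd rfl h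
  | @step w S₁ d s S₂ z hr hd hst ih =>
    intro _
    rw [List.length_append, List.length_singleton]
    by_cases hw : w = []
    · rw [hw, List.length_nil]
      omega
    · have h1 := ih hw
      have hsub : S.Sub S₁ := rn_sub hr
      have hsub' : S₁.Sub S₂ := (st_sub hst).1
      have hdB : d ∈ S₁.B := (st_sub hst).2.1
      have h2 : d ∈ bal S S₁ x (P.A + P.q) := tgt_bal hP hsub (rn_gate hx hr hw hd)
      have h3 : insert d {e | e ∈ bal S S₁ x (P.A + P.q) ∧ e ∉ S₁.B} ⊆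
          {e | e ∈ bal S S₂ x (P.A + P.q) ∧ e ∉ S₂.B} := by
        rintro e (rfl | he)
        · exact ⟨bal_mono hsub hsub' hx _ h2, (st_B hst).1⟩
        · refine ⟨bal_mono hsub hsub' hx _ he.1, fun h4 => ?_⟩
          have h5 : e ∈ S₁.R := (bal_sub _ he.1).1
          have h6 : S₁.a e ≠ e := fun h7 => he.2 ⟨h5, h7⟩
          have h8 := hsub'.2 e h6
          exact h6 (h8.symm.trans h4.2)
      have h4 := Set.ncard_le_ncard h3 (Set.toFinite _)
      rw [Set.ncard_insert_of_notMem (fun h5 => h5.2 hdB) (Set.toFinite _)] at h4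
      omega

theorem rn_len (hP : P.Ok) (hx : x ∈ S.B) (h : Rn P S x w S' x') : w.length ≤ P.K := by
  by_cases hw : w = []
  · rw [hw]
    exact Nat.zero_le _
  · have h1 := len_inv hP hx h hw
    have h2 := Set.ncard_le_ncard (fun e he => he.1 :
      {e | e ∈ bal S S' x (P.A + P.q) ∧ e ∉ S'.B} ⊆ bal S S' x (P.A + P.q)) (Set.toFinite _)
    have h3 := bal_card (x := x) (rn_sub h) (P.A + P.q)
    have h4 : P.K = 9 * (2 ^ (P.A + P.q) * 2) := by
      unfold Prm.K Prm.R0
      rw [pow_succ]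
    have h5 : 1 ≤ 2 ^ (P.A + P.q) := Nat.one_le_two_pow
    rw [h4]
    omega

theorem exits_le (h : Rn P S x w S' x') : (S'.B \ S.R).ncard ≤ 2 * w.length := by
  induction h with
  | root =>
    rw [Set.sdiff_eq_empty.2 S.B_sub_R, Set.ncard_empty]
    omega
  | @step w S₁ d s S₂ z hr hd hst ih =>
    rw [List.length_append, List.length_singleton]
    have h1 : S₂.B \ S.R ⊆ (S₁.B \ S.R) ∪ (S₂.B \ S₁.B) := by
      rintro e ⟨he, he'⟩
      by_cases h2 : e ∈ S₁.B
      · exact Or.inl ⟨h2, he'⟩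
      · exact Or.inr ⟨he, h2⟩
    have h2 := (Set.ncard_le_ncard h1 (Set.toFinite _)).trans (Set.ncard_union_le _ _)
    have h3 := (st_B hst).2.2
    omega

/-- All exits are in the hole of `x'`; perimeter after the block `≤ perimeter before + number of exits`. -/
theorem exits_per (hx : x ∈ S.B) (h : Rn P S x w S' x') : (S'.B \ S.R).ncard ≤ S'.per x' ∧ S'.per x' ≤ (S'.B \ S.R).ncard + S.per x ∧
    (∀ e ∈ S'.B, e ∉ S.R → S'.s.SameCycle x' e) := by
  obtain ⟨u, o, v, t1, t2, ha, _⟩ := rn_arc hx h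
  have hx' : x' ∈ S'.B := rn_mem hx h
  obtain ⟨h1, h2, h3⟩ := arc_per ha hx' hx
  refine ⟨by omega, by omega, fun e he heR => ?_⟩
  have h4 : e ∈ S'.hw x' := by
    rw [ha.1, List.mem_append, List.mem_append]
    rcases ha.2.2.2.2 e he heR with h5 | h5
    · exact Or.inl h5
    · exact Or.inr (Or.inr h5)
  exact ((mem_hw S' hx').1 h4).2

end SYS.BK
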