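import Pool.Agent.SYS.BK.Inn

/-!
# SYSS-BLK-Mon: balls and inner faces of a larger region

Permutation level first: `N ⊆ N'`, `f' = f` on `N`, `a' d = a d` for `d ∈ N` with `a d ≠ d`: balls, good sets
and inner faces grow; they do not change if no dart of them is fixed by `a`.  Then for regions
`S.Sub U`, `U.Sub U'` and a gate `x ∈ S.B`.
-/

namespace SYS.BK

open Classical SST SYS.Part

section
variable {D : Type} {a f a' f' : Equiv.Perm D} {N N' : Set D} {y : D} {M A q : ℕ}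

theorem bl_ext (h : Frm a f N) (hN : N ⊆ N') (hf : ∀ d ∈ N, f' d = f d) (ha : ∀ d ∈ N, a d ≠ d → a' d = a d) {Y : Set D}
    (hY : ∀ d, f d ∈ Y ↔ d ∈ Y) (hYN : Y ⊆ N) (n : ℕ) : bl a f N Y n ⊆ bl a' f' N' Y n := by
  induction n with
  | zero => exact fun d hd => hd
  | succ n ih =>
    rintro d ⟨hdN, hd⟩
    refine ⟨hN hdN, ?_⟩
    have h1 : f d ∈ N := (h.fN d).2 hdN
    have h2 : f (f d) ∈ N := (h.fN _).2 h1
    have e1 : f' d = f d := hf d hdN
    have e2 : f' (f d) = f (f d) := hf _ h1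
    rcases hd with hd | hd | hd | hd
    · exact Or.inl (ih hd)
    · by_cases hfix : a d = d
      · rw [hfix] at hd
        exact Or.inl (ih hd)
      · refine Or.inr (Or.inl ?_)
        rw [ha d hdN hfix]
        exact ih hd
    · by_cases hfix : a (f d) = f d
      · rw [hfix] at hd
        exact Or.inl (ih ((bl_fs h hY n d).1 hd))
      · refine Or.inr (Or.inr (Or.inl ?_))
        rw [e1, ha _ h1 hfix]
        exact ih hd
    · by_cases hfix : a (f (f d)) = f (f d)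
      · rw [hfix] at hd
        exact Or.inl (ih ((bl_fs h hY n d).1 ((bl_fs h hY n _).1 hd)))
      · refine Or.inr (Or.inr (Or.inr ?_))
        rw [e1, e2, ha _ h2 hfix]
        exact ih hd

/-- Sets of faces for `f` and for `f'`. -/
private theorem fs_iff {B : Set D} (hF : ∀ d, f (f (f d)) = d) (hF' : ∀ d, f' (f' (f' d)) = d)
    (hff : ∀ d ∈ B, f' d = f d) : (∀ d, f d ∈ B ↔ d ∈ B) ↔ ∀ d, f' d ∈ B ↔ d ∈ B := by
  constructor
  · intro h d
    constructor
    · intro h1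
      have h2 : f' (f' d) ∈ B := by
        rw [hff _ h1]
        exact (h _).2 h1
      have h3 : f' (f' (f' d)) ∈ B := by
        rw [hff _ h2]
        exact (h _).2 h2
      rwa [hF'] at h3
    · intro h1
      rw [hff _ h1]
      exact (h _).2 h1
  · intro h d
    constructor
    · intro h1
      have h2 : f (f d) ∈ B := by
        rw [← hff _ h1]
        exact (h _).2 h1
      have h3 : f (f (f d)) ∈ B := by
        rw [← hff _ h2]
        exact (h _).2 h2
      rwa [hF] at h3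
    · intro h1
      rw [← hff _ h1]
      exact (h _).2 h1

private theorem pc_iff {B : Set D} (hff : ∀ d ∈ B, f' d = f d) (haa : ∀ d ∈ B, a' d = a d) (h : PC a f B) :
    PC a' f' B := by
  intro Z hZ hne hf ha
  refine h Z hZ hne (fun d hd => ?_) fun d hd h1 => ?_
  · rw [← hff d (hZ hd)]
    exact hf d hd
  · rw [← haa d (hZ hd)] at h1 ⊢
    exact ha d hd h1

private theorem bd_eq {B : Set D} (haa : ∀ d ∈ B, a' d = a d) : bd a' B = bd a B := by
  ext d
  constructor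
  · rintro ⟨h1, h2⟩
    rw [haa d h1] at h2
    exact ⟨h1, h2⟩
  · rintro ⟨h1, h2⟩
    rw [← haa d h1] at h2
    exact ⟨h1, h2⟩

theorem gd_ext (h : Frm a f N) (h' : Frm a' f' N') (hN : N ⊆ N') (hf : ∀ d ∈ N, f' d = f d) (ha : ∀ d ∈ N, a d ≠ d → a' d = a d)
    {B : Set D} (hB : Gd a f N y M A B) : Gd a' f' N' y M A B := by
  have hff : ∀ d ∈ B, f' d = f d := fun d hd => hf d (hB.sub hd)
  have haa : ∀ d ∈ B, a' d = a d := fun d hd => ha d (hB.sub hd) (hB.ne d hd)
  refine ⟨hB.sub.trans hN, (fs_iff h.fff h'.fff hff).1 hB.fs, hB.mem, fun d hd => ?_, pc_iff hff haa hB.pc, ?_, hB.vol⟩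
  · rw [haa d hd]
    exact hB.ne d hd
  · rw [bd_eq haa]
    exact hB.per

private theorem fc_eq (h : Frm a f N) (hf : ∀ d ∈ N, f' d = f d) (hy : y ∈ N) : fc f' y = fc f y := by
  unfold fc
  rw [hf y hy, hf _ ((h.fN y).2 hy)]

theorem inn_ext (h : Frm a f N) (h' : Frm a' f' N') (hN : N ⊆ N') (hf : ∀ d ∈ N, f' d = f d) (ha : ∀ d ∈ N, a d ≠ d → a' d = a d) :
    Inn a f N y M A q ⊆ Inn a' f' N' y M A q := by
  refine inn_sub ⟨fun hy => ?_, fun B hB hg => ?_⟩
  · rw [← fc_eq h hf hy]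
    exact inn_cl.1 (hN hy)
  · exact (bl_ext h hN hf ha hg.fs hg.sub q).trans (inn_cl.2 B hB (gd_ext h h' hN hf ha hg))

/-- The balls do not change. -/
private theorem bl_stab (h : Frm a f N) (h' : Frm a' f' N') (hf : ∀ d ∈ N, f' d = f d) (ha : ∀ d ∈ N, a d ≠ d → a' d = a d)
    (hc : ∀ d ∈ N, a d ≠ d → a' d ∈ N' → a' d ∈ N) {Y : Set D} (hYN : Y ⊆ N)
    (hI : ∀ i < q, ∀ d ∈ bl a f N Y i, a d ≠ d) (i : ℕ) (hi : i ≤ q) :
    bl a' f' N' Y i ⊆ bl a f N Y i := by
  induction i with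
  | zero => exact fun d hd => hd
  | succ i ih =>
    have ih' := ih (by omega)
    have hI' := hI i (by omega)
    have hsub : bl a f N Y i ⊆ N := bl_sub hYN i
    -- a dart of `N'` adjacent to the ball
    have key : ∀ e ∈ N', a' e ∈ bl a' f' N' Y i → e ∈ N ∧ a e ∈ bl a f N Y i := by
      intro e he he2
      have h1 := ih' he2
      have h2 := hI' _ h1
      have h3 := ha _ (hsub h1) h2
      rw [h'.aa] at h3
      have h4 := hc _ (hsub h1) h2 (by rw [h'.aa]; exact he)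
      rw [h'.aa] at h4
      refine ⟨h4, ?_⟩
      have h5 : a e = a' e := by
        conv_lhs => rw [h3]
        rw [h.aa]
      rw [h5]
      exact h1
    have back : ∀ e, f' e ∈ N → e ∈ N ∧ f' e = f e := by
      intro e he
      have h1 : f' (f' e) ∈ N := by
        rw [hf _ he]
        exact (h.fN _).2 he
      have h2 : f' (f' (f' e)) ∈ N := by
        rw [hf _ h1]
        exact (h.fN _).2 h1
      rw [h'.fff] at h2
      exact ⟨h2, hf e h2⟩
    rintro d ⟨hdN, hd⟩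
    have h1 : f' d ∈ N' := (h'.fN d).2 hdN
    have h2 : f' (f' d) ∈ N' := (h'.fN _).2 h1
    rcases hd with hd | hd | hd | hd
    · have h3 := ih' hd
      exact ⟨hsub h3, Or.inl h3⟩
    · obtain ⟨h3, h4⟩ := key d hdN hd
      exact ⟨h3, Or.inr (Or.inl h4)⟩
    · obtain ⟨h3, h4⟩ := key _ h1 hd
      obtain ⟨h5, h6⟩ := back d h3
      rw [h6] at h4
      exact ⟨h5, Or.inr (Or.inr (Or.inl h4))⟩
    · obtain ⟨h3, h4⟩ := key _ h2 hd
      obtain ⟨h5, h6⟩ := back _ h3
      obtain ⟨h7, h8⟩ := back d h5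
      rw [h6, h8] at h4
      exact ⟨h7, Or.inr (Or.inr (Or.inr h4))⟩

theorem inn_eq (h : Frm a f N) (h' : Frm a' f' N') (hN : N ⊆ N') (hf : ∀ d ∈ N, f' d = f d) (ha : ∀ d ∈ N, a d ≠ d → a' d = a d)
    (hc : ∀ d ∈ N, a d ≠ d → a' d ∈ N' → a' d ∈ N) (hy : y ∈ N' → y ∈ N) (hI : ∀ d ∈ Inn a f N y M A q, a d ≠ d) :
    Inn a' f' N' y M A q = Inn a f N y M A q := by
  refine Set.Subset.antisymm (inn_sub ⟨fun hy' => ?_, fun B hB hg => ?_⟩) (inn_ext h h' hN hf ha)
  · rw [fc_eq h hf (hy hy')]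
    exact inn_cl.1 (hy hy')
  · have hBN : B ⊆ N := hB.trans (inn_N h)
    have hff : ∀ d ∈ B, f' d = f d := fun d hd => hf d (hBN hd)
    have haa : ∀ d ∈ B, a' d = a d := fun d hd => ha d (hBN hd) (hI d (hB hd))
    have hg' : Gd a f N y M A B := by
      refine ⟨hBN, (fs_iff h.fff h'.fff hff).2 hg.fs, hg.mem, fun d hd => hI d (hB hd),
        pc_iff (fun d hd => (hff d hd).symm) (fun d hd => (haa d hd).symm) hg.pc, ?_, hg.vol⟩
      rw [← bd_eq haa]
      exact hg.per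
    have hsub := inn_cl.2 B hB hg'
    refine (bl_stab h h' hf ha hc hBN (fun i hi d hd => hI d (hsub ?_)) q le_rfl).trans hsub
    exact bl_le hBN hi.le hd

private theorem bl_emp (n : ℕ) : bl a f N ∅ n = ∅ := by
  induction n with
  | zero => rfl
  | succ n ih =>
    have h1 : bl a f N ∅ (n + 1) = nbh a f N (bl a f N ∅ n) := rfl
    rw [h1, ih]
    ext d
    constructor
    · rintro ⟨-, hd⟩
      rcases hd with hd | hd | hd | hd <;> exact hd
    · intro hd
      exact absurd hd (Set.notMem_empty d)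

end

section
variable {D : Type} {P : Prm} {S U U' : Part D} {x : D}

private theorem nw_sub (hU : U.Sub U') : nw S U ⊆ nw S U' := fun _ hd => ⟨Part.Sub.R_sub hU hd.1, hd.2⟩

private theorem nw_f (hU : U.Sub U') : ∀ d ∈ nw S U, U'.f d = U.f d := fun d hd => hU.1 d hd.1

private theorem nw_a (hU : U.Sub U') : ∀ d ∈ nw S U, U.a d ≠ d → U'.a d = U.a d := fun d _ h => hU.2 d h

private theorem nw_c (hU : U.Sub U') : ∀ d ∈ nw S U, U.a d ≠ d → U'.a d ∈ nw S U' → U'.a d ∈ nw S U := by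
  intro d hd h h'
  rw [hU.2 d h] at h' ⊢
  exact ⟨(U.mem_R_a d).2 hd.1, h'.2⟩

private theorem gate_ne (hx : x ∈ S.B) (h : U.a x ∈ nw S U) : U.a x ≠ x := by
  intro h1
  rw [h1] at h
  exact h.2 hx.1

private theorem ff_same (hS : S.Sub U) (hU : U.Sub U') (hn : U.a x ≠ x) (hx : x ∈ S.B) : ff S U' x = ff S U x := by
  have e : U'.a x = U.a x := hU.2 x hn
  by_cases h : U.a x ∈ nw S U
  · have h' : U'.a x ∈ nw S U' := by
      rw [e]
      exact nw_sub hU h
    rw [ff_eq hS h, ff_eq (Part.sub_trans hS hU) h', e]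
    exact fc_eq (frm_nw hS) (nw_f hU) h
  · have h' : U'.a x ∉ nw S U' := by
      rw [e]
      intro h1
      exact h ⟨(U.mem_R_a x).2 (Part.Sub.R_sub hS hx.1), h1.2⟩
    rw [ff_empty hS h, ff_empty (Part.sub_trans hS hU) h']

private theorem ff_fs (hS : S.Sub U) (d : D) : U.f d ∈ ff S U x ↔ d ∈ ff S U x := bal_fs hS 0 d

private theorem ff_nw : ff S U x ⊆ nw S U := fun _ hd => hd.1

theorem bal_mono (hS : S.Sub U) (hU : U.Sub U') (hx : x ∈ S.B) (j : ℕ) : bal S U x j ⊆ bal S U' x j := by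
  by_cases h : U.a x ∈ nw S U
  · unfold bal
    rw [ff_same hS hU (gate_ne hx h) hx]
    exact bl_ext (frm_nw hS) (nw_sub hU) (nw_f hU) (nw_a hU) (ff_fs hS) ff_nw j
  · unfold bal
    rw [ff_empty hS h, bl_emp]
    exact Set.empty_subset _

theorem inr_mono (hS : S.Sub U) (hU : U.Sub U') (hx : x ∈ S.B) : inr P S U x ⊆ inr P S U' x := by
  by_cases h : U.a x ∈ nw S U
  · unfold inr
    rw [hU.2 x (gate_ne hx h)]
    exact inn_ext (frm_nw hS) (frm_nw (Part.sub_trans hS hU)) (nw_sub hU) (nw_f hU) (nw_a hU)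
  · unfold inr
    rw [inn_empty h]
    exact Set.empty_subset _

theorem inr_done (hS : S.Sub U) (hU : U.Sub U') (hx : x ∈ S.B) (hd : Done P S U x) : inr P S U' x = inr P S U x := by
  have e : U'.a x = U.a x := hU.2 x hd.1
  unfold inr
  rw [e]
  refine inn_eq (frm_nw hS) (frm_nw (Part.sub_trans hS hU)) (nw_sub hU) (nw_f hU) (nw_a hU) (nw_c hU)
    (fun h => ⟨(U.mem_R_a x).2 (Part.Sub.R_sub hS hx.1), h.2⟩) fun d h h1 => ?_
  exact hd.2 d ⟨(inn_N (frm_nw hS) h).1, h1⟩ h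

theorem done_mono (hS : S.Sub U) (hU : U.Sub U') (hx : x ∈ S.B) (hd : Done P S U x) : Done P S U' x := by
  refine ⟨?_, fun d h1 h2 => ?_⟩
  · rw [hU.2 x hd.1]
    exact hd.1
  · rw [inr_done hS hU hx hd] at h2
    have h3 : d ∈ nw S U := inn_N (frm_nw hS) h2
    by_cases h4 : U.a d = d
    · exact hd.2 d ⟨h3.1, h4⟩ h2
    · have h5 := hU.2 d h4
      rw [h1.2] at h5
      exact h4 h5.symm

theorem bal_stab (hS : S.Sub U) (hU : U.Sub U') (hx : x ∈ S.B) (hn : U.a x ≠ x) {j : ℕ} (h : ∀ d ∈ U.B, d ∉ bal S U x j) {i : ℕ}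
    (hi : i ≤ j + 1) : bal S U' x i = bal S U x i := by
  refine Set.Subset.antisymm ?_ (bal_mono hS hU hx i)
  unfold bal
  rw [ff_same hS hU hn hx]
  refine bl_stab (q := j + 1) (frm_nw hS) (frm_nw (Part.sub_trans hS hU)) (nw_f hU) (nw_a hU) (nw_c hU) ff_nw ?_ i hi
  intro m hm d hd h1
  have h2 : d ∈ bal S U x j := bal_le (by omega) hd
  exact h d ⟨(bal_sub j h2).1, h1⟩ h2

theorem inr_sub (hS : S.Sub U) : inr P S U x ⊆ nw S U ∧ (∀ d, U.f d ∈ inr P S U x ↔ d ∈ inr P S U x) := by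
  exact ⟨inn_N (frm_nw hS), inn_fs (frm_nw hS)⟩

theorem inr_bal [Finite D] (hS : S.Sub U) : inr P S U x ⊆ bal S U x (P.A + P.q) := by
  by_cases h : U.a x ∈ nw S U
  · unfold inr bal
    rw [ff_eq hS h]
    exact inn_bl (frm_nw hS)
  · unfold inr
    rw [inn_empty h]
    exact Set.empty_subset _

end

end SYS.BK
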