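import Pool.Agent.SYS.BK.RunB
import Pool.Agent.SYS.BK.Lay

/-!
# SYSS-BLK-NbrB: exits are good

PLAN.  (The same facts for the old form of the rule are proved in `BK/Nbr.lean`: copy and adapt; `Rn` becomes `BR (nxt P S x) S x`.)
* `node_nbr`: `br_inv` (`I Z z := S.Sub Z ∧ (∀ e ∈ Z.B, e ∉ S.R → ..)`, together with the facts of `node_gate` for the gate; use that a node is reached from the root: it may be easier to argue by induction on `w` from the right with `br_append`).  After a step `T` from `S₁, d` the new boundary darts are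
  `t1, t2 ∈ fc t0`, `S₂.a t0 = d` (`face` glues `t0` to `d`); for the first step `d = x`, so they are in `ff S S₂ x` (`S₂.a x = t0`); later `d ∈ tgt P S S₁ x` (`node_gate`, `nxt_mem`), so `d ∈ bal S S₁ x J ∪ inr P S S₁ x`, `bal_mono`, `inr_mono`.
  Old boundary darts: `bal_mono`, `inr_mono`, `ff`; `S₂.a e' = S₁.a e'` because `S₁.a e' ≠ e'`.  After `L`, `R`: the boundary darts are boundary darts of `S₁` (`glue_B`, `FillBy.B`).
* `end_exit`: `nxt_done`: `Done`, so `bal J ⊆ inr` (`bal_inr_done`, `bal_le`).  If `e ∈ ff S S' x`, i.e. `e ∈ fc S'.f (S'.a x)`, then `e ∈ inr P S S' x` (`inn_cl`.1), contradiction to `Done` (`e ∈ S'.B`).  So `node_nbr` gives `e' ∈ fc S'.f e` with `S'.a e' ∈ inr P S S' x`, `S'.a e' ≠ e'`.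
  The frame `Frm U.a U.f (nw S S')` holds (`U.f = S'.f` on `nw S S'`), and `Inn S'.a S'.f (nw S S') y M A q ⊆ Inn U.a U.f (nw S S') y M A q` (`inn_ext` with `N' = N = nw S S'`), `U.a x = S'.a x`, `U.a e' = S'.a e'`.  So `inn_exit` for the frame `U.a, U.f, nw S S'` is exactly the claim.
* `end_exit_tri`: `U = ofTri T`.
-/

namespace SYS.BK

open Classical SST SYS.Part

variable {D : Type} [Finite D] {P : Prm} {S S' U : Part D} {x z' : D} {w : List Stp}

omit [Finite D] in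
private theorem sub_R {S S' : Part D} (h : S.Sub S') {d : D} (hd : d ∈ S.R) : d ∈ S'.R := by
  have h1 : S'.f d = S.f d := h.1 d hd
  show S'.f d ≠ d
  rw [h1]
  exact hd

omit [Finite D] in
private theorem fc_eq {S S' : Part D} (h : S.Sub S') {d : D} (hd : d ∈ S.R) : fc S'.f d = fc S.f d := by
  have h1 : S'.f d = S.f d := h.1 d hd
  have h2 : S'.f (S.f d) = S.f (S.f d) := h.1 _ ((mem_R_f S d).2 hd)
  unfold fc
  rw [h1, h2]

omit [Finite D] in
private theorem tgt_sub' {S S₁ : Part D} : tgt P S S₁ x ⊆ bal S S₁ x P.J ∪ inr P S S₁ x := by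
  intro d hd
  unfold tgt at hd
  split_ifs at hd with h
  · exact Or.inl (bal_le (Nat.find_spec h).1 hd.2)
  · exact Or.inr hd.2

omit [Finite D] in
private theorem face_vals (S : Part D) {x t0 t1 t2 : D} (hx : x ∈ S.B) (h0 : t0 ∉ S.R) (h1 : t1 ∉ S.R) (h2 : t2 ∉ S.R)
    (h01 : t0 ≠ t1) (h12 : t1 ≠ t2) (h20 : t2 ≠ t0) {U : Part D} (hU : U = S.face x t0 t1 t2 hx h0 h1 h2 h01 h12 h20) :
    U.a x = t0 ∧ U.a t0 = x ∧ U.f t0 = t1 ∧ U.f t1 = t2 ∧ U.f t2 = t0 := by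
  have hf0 : S.f t0 = t0 := not_not.1 h0
  have hf1 : S.f t1 = t1 := not_not.1 h1
  have hf2 : S.f t2 = t2 := not_not.1 h2
  have e1 : U.a x = t0 := by
    rw [hU]
    show (S.a * Equiv.swap x t0) x = t0
    rw [Equiv.Perm.mul_apply, Equiv.swap_apply_left, S.af t0 hf0]
  have e2 : U.f t0 = t1 := by
    rw [hU]
    show (S.f * cyc3 t0 t1 t2) t0 = t1
    rw [Equiv.Perm.mul_apply, cyc3, Equiv.Perm.mul_apply, Equiv.swap_apply_of_ne_of_ne h01 h20.symm, Equiv.swap_apply_left, hf1]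
  have e3 : U.f t1 = t2 := by
    rw [hU]
    show (S.f * cyc3 t0 t1 t2) t1 = t2
    rw [Equiv.Perm.mul_apply, cyc3, Equiv.Perm.mul_apply, Equiv.swap_apply_left, Equiv.swap_apply_of_ne_of_ne h20 h12.symm, hf2]
  have e4 := U.fff t0
  rw [e2, e3] at e4
  have e5 := U.aa x
  rw [e1] at e5
  exact ⟨e1, e5, e2, e3, e4⟩

omit [Finite D] in
private theorem old_step {S₁ S₂ : Part D} (hx : x ∈ S.B) (hS : S.Sub S₁) (h12 : S₁.Sub S₂) {e : D} (he : e ∈ S₁.R)
    (h : e ∈ ff S S₁ x ∨ ∃ e' ∈ fc S₁.f e, S₁.a e' ≠ e' ∧ S₁.a e' ∈ bal S S₁ x P.J ∪ inr P S S₁ x) :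
    e ∈ ff S S₂ x ∨ ∃ e' ∈ fc S₂.f e, S₂.a e' ≠ e' ∧ S₂.a e' ∈ bal S S₂ x P.J ∪ inr P S S₂ x := by
  rcases h with h | ⟨e', h1, h2, h3⟩
  · left
    exact bal_mono hS h12 hx 0 h
  · right
    have h4 : S₂.a e' = S₁.a e' := h12.2 e' h2
    refine ⟨e', ?_, ?_, ?_⟩
    · rw [fc_eq h12 he]
      exact h1
    · rw [h4]
      exact h2
    · rw [h4]
      rcases h3 with h3 | h3
      · exact Or.inl (bal_mono hS h12 hx _ h3)
      · exact Or.inr (inr_mono hS h12 hx h3)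

private theorem lr_B {S₁ S₂ : Part D} {d y : D} {m : List D} {a : ℕ} (hd : d ∈ S₁.B) (hy : y ∈ S₁.B) (hdy : d ≠ y)
    (h : (S₁.glue d y hd hy).DiscFill S₂ m a) : S₂.B ⊆ S₁.B := by
  have h0 : (S₁.glue d y hd hy).B ⊆ S₁.B := by
    rw [glue_B _ _ _ hdy]
    exact Set.sdiff_subset
  rcases h with ⟨-, -, h⟩ | ⟨-, V, -, h⟩
  · rw [h]
    exact h0
  · rw [h.B]
    exact Set.sdiff_subset.trans h0

private theorem hw_ne {S₁ : Part D} {d y : D} {u v : List D} (hd : d ∈ S₁.B) (hw : S₁.hw d = d :: (u ++ y :: v)) :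
    d ≠ y := by
  have hn := S₁.hw_nodup hd
  rw [hw, List.nodup_cons] at hn
  rintro rfl
  apply hn.1
  rw [List.mem_append, List.mem_cons]
  tauto

private theorem br_snocB {b : Part D → Option D} {s : Stp} (h : BR b S x (w ++ [s]) S' z') : ∃ S₁ z₁ d, BR b S x w S₁ z₁ ∧ b S₁ = some d ∧
    d ∈ S₁.B ∧ S₁.s.SameCycle z₁ d ∧ S₁.St d s S' z' := by
  obtain ⟨S₁, z₁, h1, d, Z₁, z₂, h3, h4, h5, h6, h7, h8⟩ := br_append.1 h
  subst h7 h8
  exact ⟨S₁, z₁, d, h1, h3, h4, h5, h6⟩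

private theorem br_rind {b : Part D → Option D} {I : List Stp → Part D → D → Prop} (h0 : I [] S x)
    (hst : ∀ (w : List Stp) (S₁ : Part D) (z₁ d : D) (s : Stp) (S₂ : Part D) (z₂ : D), BR b S x w S₁ z₁ → I w S₁ z₁ →
      b S₁ = some d → S₁.St d s S₂ z₂ → I (w ++ [s]) S₂ z₂) (h : BR b S x w S' z') : I w S' z' := by
  induction w using List.reverseRecOn generalizing S' z' with
  | nil =>
    obtain ⟨rfl, rfl⟩ := h
    exact h0
  | append_singleton w s ih =>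
    obtain ⟨S₁, z₁, d, h1, h2, h3, h4, h5⟩ := br_snocB h
    exact hst w S₁ z₁ d s S' z' h1 (ih h1) h2 h5

omit [Finite D] in
private theorem sub_BB {e : D} (h : S.Sub S') (he : e ∈ S'.B) : e ∉ S.B ↔ e ∉ S.R := by
  refine ⟨fun h1 h2 => h1 ⟨h2, ?_⟩, fun h1 h2 => h1 (S.B_sub_R h2)⟩
  by_contra hc
  have h3 := h.2 e hc
  exact hc (h3.symm.trans he.2)

theorem node_nbr (hx : x ∈ S.B) (h : BR (nxt P S x) S x w S' z') {e : D} (he : e ∈ S'.B) (he' : e ∉ S.R) :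
    e ∈ ff S S' x ∨ ∃ e' ∈ fc S'.f e, S'.a e' ≠ e' ∧ S'.a e' ∈ bal S S' x P.J ∪ inr P S S' x := by
  refine br_rind (I := fun w S' _ => ∀ e ∈ S'.B, e ∉ S.R → e ∈ ff S S' x ∨ ∃ e' ∈ fc S'.f e, S'.a e' ≠ e' ∧
    S'.a e' ∈ bal S S' x P.J ∪ inr P S S' x) (fun e he he' => absurd he.1 he') ?_ h e he he'
  intro w S₁ z₁ d s S₂ z hr ih hd hst e he he'
  have hS : S.Sub S₁ := br_sub hr
  have h12 := (st_sub hst).1
  have hold : e ∈ S₁.B → e ∈ ff S S₂ x ∨ ∃ e' ∈ fc S₂.f e, S₂.a e' ≠ e' ∧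
      S₂.a e' ∈ bal S S₂ x P.J ∪ inr P S S₂ x := fun h => old_step hx hS h12 h.1 (ih e h he')
  cases s with
  | T =>
    obtain ⟨t0, t1, t2, hdB, h0, h1, h2, h01, h12', h20, hS2, -⟩ := hst
    obtain ⟨v1, v2, v3, v4, v5⟩ := face_vals S₁ hdB h0 h1 h2 h01 h12' h20 hS2
    have hB : S₂.B = (S₁.B \ {d}) ∪ {t1, t2} := by
      rw [hS2]
      exact face_B _ _ _ _ _ _ _ _
    have he2 := he
    rw [hB] at he2
    rcases he2 with he2 | he2
    · exact hold he2.1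
    · have ht : e = t1 ∨ e = t2 := he2
      have hdt : d ≠ t0 := fun h => h0 (h ▸ hdB.1)
      have hfc : t0 ∈ fc S₂.f e := by
        unfold fc
        rcases ht with ht | ht
        · rw [ht, v4, v5]
          exact Or.inr (Or.inr rfl)
        · rw [ht, v5]
          exact Or.inr (Or.inl rfl)
      rcases (node_gate hx hr hd).2.2 with ⟨-, -, hdx⟩ | ⟨-, htg⟩
      · left
        refine ⟨⟨he.1, he'⟩, ?_⟩
        rw [← hdx, v1]
        unfold fc
        rw [v3, v4]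
        rcases ht with ht | ht
        · exact Or.inr (Or.inl ht)
        · exact Or.inr (Or.inr ht)
      · right
        refine ⟨t0, hfc, by rw [v2]; exact hdt, ?_⟩
        rw [v2]
        rcases tgt_sub' htg with h3 | h3
        · exact Or.inl (bal_mono hS h12 hx _ h3)
        · exact Or.inr (inr_mono hS h12 hx h3)
  | L k a =>
    obtain ⟨y, u, v, w', hdB, hy, hw, -, -, hf⟩ := hst
    exact hold (lr_B hdB hy (hw_ne hdB hw) hf he)
  | R k a =>
    obtain ⟨y, u, v, w', hdB, hy, hw, -, -, hf⟩ := hst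
    exact hold (lr_B hdB hy (hw_ne hdB hw) hf he)

theorem end_exit (hP : P.Ok) (hx : x ∈ S.B) (h : BEnd (nxt P S x) S x (w, S', z')) {e : D} (he : e ∈ S'.B) (he' : e ∉ S.B)
    (hU : S'.Sub U) :
    ∃ B ⊆ nw S S', (∀ c, U.f c ∈ B ↔ c ∈ B) ∧ PC U.a U.f B ∧ U.a x ∈ B ∧ e ∈ B ∧ (bd U.a B).ncard ≤ P.M + P.q + 1 ∧
      B.ncard ≤ 3 * P.R0 := by
  have heB := he'
  clear he'
  obtain ⟨hr, hno⟩ := h
  have hS : S.Sub S' := br_sub hr
  have hdn : Done P S S' x := (nxt_done hP hS).1 hno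
  have he' : e ∉ S.R := (sub_BB hS he).1 heB
  have hbal : bal S S' x P.J ⊆ inr P S S' x :=
    (bal_le (Nat.le_add_right _ _)).trans (bal_inr_done hP hS hdn)
  have hfr := frm_nw hS
  have hne : e ∉ ff S S' x := by
    intro hf
    have h1 : S'.a x ∈ nw S S' := by
      obtain ⟨h2, h3⟩ := hf
      rcases h3 with h3 | h3 | h3
      · rw [← h3]
        exact h2
      · rw [h3, hfr.fN] at h2
        exact h2
      · have h4 : e = S'.f (S'.f (S'.a x)) := h3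
        rw [h4, hfr.fN, hfr.fN] at h2
        exact h2
    exact hdn.2 e he (inn_cl.1 h1 hf.2)
  rcases node_nbr hx hr he he' with h1 | ⟨e', h1, h2, h3⟩
  · exact absurd h1 hne
  · have h3' : S'.a e' ∈ inr P S S' x := h3.elim (fun h => hbal h) id
    have hUf : ∀ d ∈ S'.R, U.f d = S'.f d := fun d hd => hU.1 d hd
    have hUR : ∀ d, U.f d ∈ S'.R → d ∈ S'.R := by
      intro d hd
      have e1 : U.f (U.f d) ∈ S'.R := by
        rw [hUf _ hd]
        exact (mem_R_f S' _).2 hd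
      have e2 : U.f (U.f (U.f d)) ∈ S'.R := by
        rw [hUf _ e1]
        exact (mem_R_f S' _).2 e1
      rw [U.fff] at e2
      exact e2
    have hfrU : Frm U.a U.f (nw S S') := by
      refine ⟨U.aa, U.fff, fun d => ⟨fun hd => ?_, fun hd => ?_⟩, fun d hd => ?_⟩
      · have e1 := hUR d hd.1
        rw [hUf d e1, hfr.fN] at hd
        exact hd
      · rw [hUf d hd.1, hfr.fN]
        exact hd
      · rw [hUf d hd.1]
        exact hd.1
    have hext : Inn S'.a S'.f (nw S S') (S'.a x) P.M P.A P.q ⊆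
        Inn U.a U.f (nw S S') (S'.a x) P.M P.A P.q :=
      inn_ext hfr hfrU subset_rfl (fun d hd => hUf d hd.1) (fun d _ hd' => hU.2 d hd')
    have hax : U.a x = S'.a x := hU.2 x hdn.1
    have hae : U.a e' = S'.a e' := hU.2 e' h2
    have h4 : U.a e' ∈ Inn U.a U.f (nw S S') (U.a x) P.M P.A P.q := by
      rw [hae, hax]
      exact hext h3'
    have h5 : e' ∈ fc U.f e := by
      rw [fc_eq hU he.1]
      exact h1
    have hM : 3 ≤ P.M := by
      have := hP.jM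
      omega
    have hA : 1 ≤ P.A := by
      have := hP.jA
      omega
    exact inn_exit hfrU hM hA ⟨he.1, he'⟩ h5 h4

/-- The same in a triangulation. -/
theorem end_exit_tri (hP : P.Ok) (hx : x ∈ S.B) (h : BEnd (nxt P S x) S x (w, S', z')) {T : Tri D} (hT : S'.Le T) {e : D}
    (he : e ∈ S'.B) (he' : e ∉ S.B) :
    ∃ B : Set D, B ⊆ S'.R \ S.R ∧ XP.Fs T B ∧ XP.DC T B ∧ T.a x ∈ B ∧ e ∈ B ∧ (XP.bdy T B).ncard ≤ P.M + P.q + 1 ∧ B.ncard ≤ 3 * P.R0 := by
  obtain ⟨B, b1, b2, b3, b4, b5, b6, b7⟩ := end_exit hP hx h he he' ((le_iff_sub S' T).1 hT)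
  exact ⟨B, b1, b2, b3, b4, b5, b6, b7⟩

end SYS.BK
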