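import Pool.Agent.SYS.BK.AbsC
import Pool.Agent.SYS.BK.NbrB
import Pool.Agent.SYS.PX.GM
import Pool.Agent.SYS.CH.Defs

/-!
# SYSS-BLK-Out: the facts on the block which are used in the other parts (`PX`, `CH`, `GW`)

`bk P`: the block as a `CH.Blk`.
-/

namespace SYS.BK

open Classical SST SYS.Part

section
variable {D : Type} [Finite D] {P : Prm} {S S' Z X' : Part D} {x z d : D} {w : List Stp}

theorem rchg_congr {σ σ' : List Stp → Part D → D → D} {h : List Stp}
    (hσ : ∀ (h' : List Stp) (Z : Part D) (z : D), h.length < h'.length → h'.length ≤ h.length + w.length → σ h' Z z = σ' h' Z z)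
    (hr : RchG σ h S x w S' d) : RchG σ' h S x w S' d := by
  induction w generalizing h S x with
  | nil => exact hr
  | cons s w ih =>
    obtain ⟨S₁, z, h1, h2⟩ := hr
    refine ⟨S₁, z, h1, ?_⟩
    rw [← hσ (h ++ [s]) S₁ z (by simp) (by simp)]
    refine ih (fun h' Z z h3 h4 => hσ h' Z z ?_ ?_) h2
    · rw [List.length_append, List.length_singleton] at h3
      omega
    · rw [List.length_append, List.length_singleton] at h4
      rw [List.length_cons]
      omega

/-- Turns as a list. -/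
theorem rch_trn {m : ℕ} {τ : ℕ → Bool} (hr : Rch (tr τ) [] S x (List.replicate m Stp.T) S' d) :
    ∃ l : List Bool, l.length = m ∧ RchG (trn l) [] S x (List.replicate l.length Stp.T) S' d := by
  refine ⟨(List.range m).map fun i => !(τ (i + 1)), by simp, ?_⟩
  rw [List.length_map, List.length_range]
  refine rchg_congr (fun h' Z z h3 h4 => ?_) (rch_iff.1 hr)
  rw [List.length_nil] at h3
  rw [List.length_nil, List.length_replicate, Nat.zero_add] at h4
  have h5 : ((List.range m).map fun i => !(τ (i + 1))).getD (h'.length - 1) true = !(τ h'.length) := by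
    rw [List.getD_eq_getElem?_getD, List.getElem?_map, List.getElem?_range (by omega)]
    simp only [Option.map_some, Option.getD_some]
    rw [show h'.length - 1 + 1 = h'.length by omega]
  unfold trn tr
  rw [h5]
  cases τ h'.length <;> simp

theorem nxt_pathP (hP : P.Ok) (hx : x ∈ S.B) : PathP (nxt P S x) S x P.R0 := by
  intro w₁ w₂ Z X' z d z' h1 hd h2 _
  by_cases hw : w₁ = []
  · subst hw
    obtain ⟨rfl, rfl⟩ := h1
    rw [nxt_self hx] at hd
    obtain rfl := Option.some_injective _ hd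
    exact ⟨[], Nat.zero_le _, Z, ⟨rfl, rfl⟩, br_sub h2⟩
  · obtain ⟨t, ht⟩ := S.hw_cons hx
    obtain ⟨m, τ, Y, u, v, -, k1, k2, k3, -⟩ := gate_path hP hx h1 hd hw ht
    obtain ⟨l, h3, h4⟩ := rch_trn k2
    exact ⟨l, by omega, Y, h4, sub_trans k3 (br_sub h2)⟩

end

/-- Properties of the block used in `PX`. -/
theorem nxt_bok {P : Prm} (hP : P.Ok) : Bok (fun {D} [Finite D] => nxt (D := D) P) P.K := by
  refine ⟨fun S x q hx hq => ?_, fun S x hx Z d hs hd => ?_, fun S x T y W _ _ _ _ => nxt_ib P S x T y W⟩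
  · exact (node_len hP hx hq.1).le
  · obtain ⟨h1, h2⟩ := nxt_mem hs hx hd
    refine ⟨h1, ?_⟩
    rcases h2 with ⟨-, h3⟩ | ⟨-, h3⟩
    · exact Or.inl h3
    · exact Or.inr (tgt_nw hs h3).2

/-- The block as a `CH.Blk`. -/
noncomputable def bk (P : Prm) : CH.Blk where
  nxt := fun X f => nxt P X f
  K := P.K

theorem bk_ok {P : Prm} (hP : P.Ok) : (bk P).Ok :=
  ⟨fun _ _ hf => nxt_self hf, fun _ _ _ _ hf hq => node_len hP hf hq.1⟩

section
variable {D : Type} [Finite D] {P : Prm} {S Z X' : Part D} {x z d e : D} {w : List Stp}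

/-- The gates: the first one is `x`, the others are new darts. -/
theorem bk_gate (hx : x ∈ S.B) (h : BR ((bk P).nxt S x) S x w Z z) (hd : (bk P).nxt S x Z = some d) :
    d ∈ Z.B ∧ Z.s.SameCycle z d ∧ ((w = [] ∧ Z = S ∧ d = x) ∨ (w ≠ [] ∧ d ∉ S.R)) := by
  obtain ⟨h1, h2, h3⟩ := node_gate hx h hd
  refine ⟨h1, h2, ?_⟩
  rcases h3 with h3 | ⟨h3, h4⟩
  · exact Or.inl h3
  · exact Or.inr ⟨h3, (tgt_nw (br_sub h) h4).2.2⟩

/-- The exits are good. -/
theorem bk_exit (hP : P.Ok) {T : Tri D} (hx : x ∈ S.B) (h : CH.PE (bk P) T S x X') (he : e ∈ X'.B) (he' : e ∉ S.B) :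
    ∃ B : Set D, B ⊆ X'.R \ S.R ∧ XP.Fs T B ∧ XP.DC T B ∧ T.a x ∈ B ∧ e ∈ B ∧ (XP.bdy T B).ncard ≤ P.M + P.q + 1 ∧
      B.ncard ≤ 3 * P.R0 := by
  obtain ⟨w, x', h1, h2, -⟩ := h
  exact end_exit_tri hP hx h1 h2 he he'

end

end SYS.BK
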