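import Pool.Agent.SYS.BK.Top
import Pool.Agent.SYS.PG.Defs

/-!
# SYSS-BLK-Pgi: the inner faces of `PG/Defs` and of `BK/Defs` are the same
-/

namespace SYS.BK

open Classical SST SYS.Part

variable {D : Type} [Finite D] {P : Prm} {S S' : Part D} {x : D} {T : Tri D}

theorem pg_bl {Hd C : Set D} (hC : C ⊆ Hd) (s : ℕ) : PG.bl T Hd C s = bl T.a T.f Hd C s := by
  induction s with
  | zero => exact Set.inter_eq_right.2 hC
  | succ s ih =>
    show Hd ∩ XP.nb T (PG.bl T Hd C s) = nbh T.a T.f Hd (bl T.a T.f Hd C s)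
    rw [ih]
    rfl

omit [Finite D] in
private theorem nw_tri : nw S (ofTri T) = S.Rᶜ := by
  ext d
  exact ⟨fun h => h.2, fun h => ⟨T.fne d, h⟩⟩

theorem pg_inn (h : S.Le T) (hy : T.a x ∉ S.R) : PG.Inn T S.Rᶜ (T.a x) P.M (P.q + 1) P.A = inr P S (ofTri T) x := by
  have hF : Frm T.a T.f S.Rᶜ := by
    rw [← nw_tri (T := T)]
    exact frm_nw (U := ofTri T) h
  have hi : inr P S (ofTri T) x = Inn T.a T.f S.Rᶜ (T.a x) P.M P.A P.q := by
    unfold inr
    rw [nw_tri]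
    rfl
  rw [hi]
  refine Set.Subset.antisymm ?_ ?_
  · intro d hd
    refine hd _ ⟨?_, ?_⟩
    · rintro e he
      exact inn_cl.1 hy he
    · intro C hC h1 h2 h3 h4 h5
      have hCN : C ⊆ S.Rᶜ := hC.trans (inn_N hF)
      rw [Nat.add_sub_cancel, pg_bl hCN]
      exact inn_cl.2 C hC ⟨hCN, h1, h3, fun e _ => T.ane e, h2, h4, h5⟩
  · intro d hd I hI
    refine inn_sub (I := I) ⟨fun _ e he => hI.1 e he, fun B hB hg => ?_⟩ hd
    have h1 := hI.2 B hB hg.fs hg.pc hg.mem hg.per hg.vol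
    rw [Nat.add_sub_cancel, pg_bl hg.sub] at h1
    exact h1

/-- The end of a block reveals all edges of the inner faces. -/
theorem pg_done (hx : x ∈ S.B) (hs : S.Sub S') (hL : S'.Le T) (hd : Done P S S' x) (hy : T.a x ∉ S.R) :
    PG.Inn T S.Rᶜ (T.a x) P.M (P.q + 1) P.A ⊆ {d | S'.a d ≠ d} := by
  rw [pg_inn (Part.sub_le hs hL) hy, inr_done hs (U' := ofTri T) hL hx hd]
  intro d h1 h2
  exact hd.2 d ⟨((inr_sub hs).1 h1).1, h2⟩ h1

end SYS.BK
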