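import Pool.Agent.SYS.BK.Bal

/-!
# SYSS-BLK-Pth: adding a face to a connected set of faces

A face is added along the edge `e`; paths of faces by induction on the radius.
-/

namespace SYS.BK

open Classical SST SYS.Part

variable {D : Type} [Finite D] {a f : Equiv.Perm D} {N B : Set D}

omit [Finite D] in
private theorem mem_fc {x y : D} : x ∈ fc f y ↔ x = y ∨ x = f y ∨ x = f (f y) := by
  simp [fc]

omit [Finite D] in
private theorem fc_eq (hF : ∀ d, f (f (f d)) = d) {x y : D} (hx : x ∈ fc f y) : fc f x = fc f y := by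
  ext z
  rcases mem_fc.1 hx with h | h | h
  · rw [h]
  · rw [mem_fc, mem_fc, h, hF]
    tauto
  · rw [mem_fc, mem_fc, h, hF]
    tauto

omit [Finite D] in
private theorem fc_sub_of {Z : Set D} (hZ : ∀ d ∈ Z, f d ∈ Z) {x : D} (hx : x ∈ Z) : fc f x ⊆ Z := by
  intro z hz
  rcases mem_fc.1 hz with h | h | h
  · rw [h]
    exact hx
  · rw [h]
    exact hZ _ hx
  · rw [h]
    exact hZ _ (hZ _ hx)

omit [Finite D] in
private theorem fc_card (h : Frm a f N) {y : D} (hy : y ∈ N) : (fc f y).ncard = 3 := by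
  have h1 : f y ≠ y := h.ne y hy
  have h2 : f (f y) ≠ f y := fun hc => h1 (f.injective hc)
  have h3 : f (f y) ≠ y := by
    intro hc
    apply h1
    have := h.fff y
    rw [hc] at this
    exact this
  unfold fc
  exact Set.ncard_eq_three.2 ⟨y, f y, f (f y), h1.symm, h3.symm, h2.symm, rfl⟩

omit [Finite D] in
private theorem fc_N (h : Frm a f N) {y : D} (hy : y ∈ N) : fc f y ⊆ N :=
  fc_sub_of (fun d hd => (h.fN d).2 hd) hy

private theorem add_aux (h : Frm a f N) (hB : B ⊆ N) (hfs : ∀ d, f d ∈ B ↔ d ∈ B) (hpc : PC a f B) {e : D} (hd : e ∈ N)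
    (hn : e ∉ B) (hae : a e ∈ B) :
    B ∪ fc f e ⊆ N ∧ (∀ c, f c ∈ B ∪ fc f e ↔ c ∈ B ∪ fc f e) ∧ PC a f (B ∪ fc f e) ∧ (B ∪ fc f e).ncard = B.ncard + 3 ∧
      (bd a (B ∪ fc f e)).ncard ≤ (bd a B).ncard + 1 := by
  have hself : e ∈ fc f e := mem_fc.2 (Or.inl rfl)
  have hdis : Disjoint B (fc f e) := by
    rw [Set.disjoint_left]
    intro z hz hz2
    apply hn
    rcases mem_fc.1 hz2 with h1 | h1 | h1
    · rw [← h1]
      exact hz
    · rw [h1] at hz
      exact (hfs _).1 hz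
    · rw [h1] at hz
      exact (hfs _).1 ((hfs _).1 hz)
  refine ⟨Set.union_subset hB (fc_N h hd), ?_, ?_, ?_, ?_⟩
  · intro c
    rw [Set.mem_union, Set.mem_union, hfs, fc_fs h.fff]
  · intro Z hZ hne hZf hZa
    have H1 : (∃ z ∈ Z, z ∈ B) → B ⊆ Z := by
      rintro ⟨z, hz, hzB⟩
      have h1 : Z ∩ B = B := by
        apply hpc
        · exact Set.inter_subset_right
        · exact ⟨z, hz, hzB⟩
        · intro d hd
          exact ⟨hZf d hd.1, (hfs d).2 hd.2⟩
        · intro d hd hda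
          exact ⟨hZa d hd.1 (Or.inl hda), hda⟩
      rw [← h1]
      exact Set.inter_subset_left
    have H3 : B ⊆ Z → fc f e ⊆ Z := by
      intro hBZ
      apply fc_sub_of hZf
      have h1 := hZa (a e) (hBZ hae) (by rw [h.aa]; exact Or.inr hself)
      rw [h.aa] at h1
      exact h1
    have H4 : fc f e ⊆ Z → B ⊆ Z := by
      intro hF
      exact H1 ⟨a e, hZa e (hF hself) (Or.inl hae), hae⟩
    have hall : B ⊆ Z := by
      obtain ⟨z, hz⟩ := hne
      rcases hZ hz with h1 | h1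
      · exact H1 ⟨z, hz, h1⟩
      · apply H4
        rw [← fc_eq h.fff h1]
        exact fc_sub_of hZf hz
    exact Set.Subset.antisymm hZ (Set.union_subset hall (H3 hall))
  · rw [Set.ncard_union_eq hdis (Set.toFinite _) (Set.toFinite _), fc_card h hd]
  · have h1 : bd a (B ∪ fc f e) ⊆ (bd a B \ {a e}) ∪ {f e, f (f e)} := by
      intro z hz
      obtain ⟨hz1, hz2⟩ := hz
      rcases hz1 with hz1 | hz1
      · left
        refine ⟨⟨hz1, fun hc => hz2 (Or.inl hc)⟩, ?_⟩
        intro hc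
        rw [Set.mem_singleton_iff] at hc
        apply hz2
        rw [hc, h.aa]
        exact Or.inr hself
      · right
        rcases mem_fc.1 hz1 with h2 | h2 | h2
        · exfalso
          apply hz2
          rw [h2]
          exact Or.inl hae
        · rw [h2]
          exact Set.mem_insert _ _
        · rw [h2]
          exact Set.mem_insert_of_mem _ rfl
    have h2 : a e ∈ bd a B := ⟨hae, by rw [h.aa]; exact hn⟩
    have h3 := Set.ncard_sdiff_singleton_add_one h2 (Set.toFinite _)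
    have h4 : ({f e, f (f e)} : Set D).ncard ≤ 2 := by
      have := Set.ncard_insert_le (f e) {f (f e)}
      rw [Set.ncard_singleton] at this
      exact this
    have h5 := Set.ncard_le_ncard h1 (Set.toFinite _)
    have h6 := Set.ncard_union_le (bd a B \ {a e}) {f e, f (f e)}
    omega

theorem add_face (h : Frm a f N) (hB : B ⊆ N) (hfs : ∀ d, f d ∈ B ↔ d ∈ B) (hpc : PC a f B) {d e : D} (hd : d ∈ N) (hn : d ∉ B)
    (he : e ∈ fc f d) (hae : a e ∈ B) :
    B ∪ fc f d ⊆ N ∧ (∀ c, f c ∈ B ∪ fc f d ↔ c ∈ B ∪ fc f d) ∧ PC a f (B ∪ fc f d) ∧ (B ∪ fc f d).ncard = B.ncard + 3 ∧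
      (bd a (B ∪ fc f d)).ncard ≤ (bd a B).ncard + 1 := by
  have h1 : fc f e = fc f d := fc_eq h.fff he
  have h2 : e ∈ N := fc_N h hd he
  have h3 : e ∉ B := by
    intro hc
    apply hn
    have h4 : fc f e ⊆ B := fc_sub_of (fun d hd => (hfs d).2 hd) hc
    rw [h1] at h4
    exact h4 (mem_fc.2 (Or.inl rfl))
  rw [← h1]
  exact add_aux h hB hfs hpc h2 h3 hae

theorem fc_pc (h : Frm a f N) {y : D} (hy : y ∈ N) : PC a f (fc f y) ∧ (fc f y).ncard = 3 ∧ fc f y ⊆ N := by
  refine ⟨?_, fc_card h hy, fc_N h hy⟩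
  intro Z hZ hne hZf _
  obtain ⟨z, hz⟩ := hne
  apply Set.Subset.antisymm hZ
  rw [← fc_eq h.fff (hZ hz)]
  exact fc_sub_of hZf hz

theorem bl_path (h : Frm a f N) (hB : B ⊆ N) (hfs : ∀ d, f d ∈ B ↔ d ∈ B) (hpc : PC a f B) {n : ℕ} {d : D} (hd : d ∈ bl a f N B n) :
    ∃ B', B ⊆ B' ∧ B' ⊆ bl a f N B n ∧ d ∈ B' ∧ (∀ c, f c ∈ B' ↔ c ∈ B') ∧ PC a f B' ∧ B'.ncard ≤ B.ncard + 3 * n ∧
      (bd a B').ncard ≤ (bd a B).ncard + n := by
  induction n generalizing d with
  | zero => exact ⟨B, Set.Subset.refl _, Set.Subset.refl _, hd, hfs, hpc, by omega, by omega⟩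
  | succ n ih =>
    have hle : bl a f N B n ⊆ bl a f N B (n + 1) := bl_le hB (Nat.le_succ n)
    rcases bl_succ hd with h1 | ⟨e, he, hae⟩
    · obtain ⟨B', h2, h3, h4, h5, h6, h7, h8⟩ := ih h1
      exact ⟨B', h2, h3.trans hle, h4, h5, h6, by omega, by omega⟩
    · obtain ⟨B', h2, h3, h4, h5, h6, h7, h8⟩ := ih hae
      by_cases hdB : d ∈ B'
      · exact ⟨B', h2, h3.trans hle, hdB, h5, h6, by omega, by omega⟩
      · have hdN : d ∈ N := bl_sub hB (n + 1) hd
        obtain ⟨g1, g2, g3, g4, g5⟩ := add_face h (h3.trans (bl_sub hB n)) h5 h6 hdN hdB he h4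
        refine ⟨B' ∪ fc f d, h2.trans Set.subset_union_left, Set.union_subset (h3.trans hle) ?_,
          Or.inr (mem_fc.2 (Or.inl rfl)), g2, g3, by omega, by omega⟩
        exact fc_sub_of (fun c hc => (bl_fs h hfs (n + 1) c).2 hc) hd

end SYS.BK
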