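import Pool.Agent.SYS.BK.SimB

/-!
# SYSS-BLK-Rul: the rule of the block is a rule, local and intrinsic
-/

namespace SYS.BK

open Classical SST SYS.Part

section
variable {D : Type} [Finite D] {P : Prm} {S S₁ : Part D} {x z : D} {G : Set D}

theorem tgt_sub (hS : S.Sub S₁) : tgt P S S₁ x ⊆ S₁.B ∩ nw S S₁ := by
  intro d hd
  unfold tgt at hd
  split_ifs at hd with h
  · exact ⟨hd.1, bl_sub (fun e he => he.1) _ hd.2⟩
  · exact ⟨hd.1, (inr_sub hS).1 hd.2⟩

private theorem inv_mem (hz : z ∈ S₁.B) (n : ℕ) : (S₁.nx⁻¹ ^ n) z ∈ S₁.B := by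
  induction n with
  | zero => exact hz
  | succ n ih =>
    have h1 : S₁.nx ((S₁.nx⁻¹) ((S₁.nx⁻¹ ^ n) z)) = (S₁.nx⁻¹ ^ n) z := Equiv.apply_symm_apply _ _
    rw [pow_succ', Equiv.Perm.mul_apply, ← S₁.nx_mem, h1]
    exact ih

private theorem nx_inv_pow (n : ℕ) : (S₁.nx ^ n) ((S₁.nx⁻¹ ^ n) z) = z := by
  rw [← Equiv.Perm.mul_apply, _root_.inv_pow, mul_inv_cancel, Equiv.Perm.one_apply]

theorem pick_mem (hz : z ∈ S₁.B) : pick S S₁ z G ∈ S₁.B ∧ S₁.s.SameCycle z (pick S S₁ z G) := by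
  unfold pick
  split_ifs with h1 h2
  · exact nx_pow_same S₁ hz _
  · have h3 := inv_mem hz (Nat.find h2 + 1)
    refine ⟨h3, ?_⟩
    have h4 := (nx_pow_same S₁ h3 (Nat.find h2 + 1)).2
    rw [nx_inv_pow] at h4
    exact h4.symm
  · exact ⟨hz, Equiv.Perm.SameCycle.refl _ _⟩

theorem pick_new : pick S S₁ z G = z ∨ (pick S S₁ z G ∈ nw S S₁ ∧ pick S S₁ z G ∈ G) := by
  unfold pick
  split_ifs with h1 h2
  · right
    have h3 := Nat.find_spec h1
    exact ⟨h3.2 _ le_rfl, h3.1⟩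
  · right
    have h3 := Nat.find_spec h2
    exact ⟨h3.2 _ le_rfl, h3.1⟩
  · exact Or.inl rfl

theorem brul_rul (P : Prm) (S : Part D) (x : D) : Rul (brul P S x) := by
  intro h S₁ z hz
  exact pick_mem hz

theorem brul_new {h : List Stp} : brul P S x h S₁ z = z ∨ brul P S x h S₁ z ∈ S₁.R \ S.R := by
  rcases pick_new (S := S) (S₁ := S₁) (z := z) (G := tgt P S S₁ x) with h1 | h1
  · exact Or.inl h1
  · exact Or.inr h1.1

end

section
variable {D E : Type} [Finite D] [Finite E] {S S₁ : Part D} {x z : D} {T T₁ : Part E} {y : E} {W : ℕ} {θ : D → E} {G : Set D}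

private theorem fw_sim (h : Sim S S₁ x T T₁ y W θ) (hB : z ∈ S₁.B) {i : ℕ} (hf : fw S S₁ z G i) :
    fw T T₁ (θ z) (θ '' G) i ∧ (T₁.nx ^ i) (θ z) = θ ((S₁.nx ^ i) z) := by
  have key : ∀ m ≤ i, (T₁.nx ^ m) (θ z) = θ ((S₁.nx ^ m) z) := by
    intro m
    induction m with
    | zero => exact fun _ => rfl
    | succ m ih =>
      intro hm
      rw [pow_succ', pow_succ', Equiv.Perm.mul_apply, Equiv.Perm.mul_apply, ih (by omega)]
      refine sim_nx h (Or.inl (hf.2 m (by omega))) (nx_pow_same S₁ hB m).1 (Or.inl ?_)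
      have h1 := hf.2 (m + 1) hm
      rw [pow_succ', Equiv.Perm.mul_apply] at h1
      exact h1
  refine ⟨⟨?_, fun m hm => ?_⟩, key i le_rfl⟩
  · rw [key i le_rfl]
    exact Set.mem_image_of_mem _ hf.1
  · rw [key m hm]
    show _ ∈ T₁.R \ T.R
    rw [← h.new]
    exact Set.mem_image_of_mem _ (hf.2 m hm)

private theorem bw_sim (h : Sim S S₁ x T T₁ y W θ) (hz : z ∈ NW S S₁ x W) (hB : z ∈ S₁.B) {i : ℕ} (hf : bw S S₁ z G i) :
    bw T T₁ (θ z) (θ '' G) i ∧ (T₁.nx⁻¹ ^ (i + 1)) (θ z) = θ ((S₁.nx⁻¹ ^ (i + 1)) z) := by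
  have key : ∀ m ≤ i + 1, (T₁.nx⁻¹ ^ m) (θ z) = θ ((S₁.nx⁻¹ ^ m) z) := by
    intro m
    induction m with
    | zero => exact fun _ => rfl
    | succ m ih =>
      intro hm
      rw [pow_succ', pow_succ', Equiv.Perm.mul_apply, Equiv.Perm.mul_apply, ih (by omega)]
      refine sim_nx_symm h ?_ (inv_mem hB m) (Or.inl ?_)
      · cases m with
        | zero => exact hz
        | succ m => exact Or.inl (hf.2 m (by omega))
      · have h1 := hf.2 m (by omega)
        rw [pow_succ', Equiv.Perm.mul_apply] at h1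
        exact h1
  refine ⟨⟨?_, fun m hm => ?_⟩, key (i + 1) le_rfl⟩
  · rw [key (i + 1) le_rfl]
    exact Set.mem_image_of_mem _ hf.1
  · rw [key (m + 1) (by omega)]
    show _ ∈ T₁.R \ T.R
    rw [← h.new]
    exact Set.mem_image_of_mem _ (hf.2 m hm)

private theorem pick_sim (h : Sim S S₁ x T T₁ y W θ) (hz : z ∈ NW S S₁ x W) (hB : z ∈ S₁.B) (hG : G ⊆ nw S S₁) :
    pick T T₁ (θ z) (θ '' G) = θ (pick S S₁ z G) := by
  obtain ⟨θ', h', h1, -⟩ := sim_symm h
  have hz' : θ z ∈ NW T T₁ y W := by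
    rw [← sim_image h]
    exact Set.mem_image_of_mem _ hz
  have hB' : θ z ∈ T₁.B := (sim_B h hz).2 hB
  have hG' : θ' '' (θ '' G) = G := by
    rw [Set.image_image]
    apply Set.Subset.antisymm
    · rintro _ ⟨d, hd, rfl⟩
      show θ' (θ d) ∈ G
      rw [h1 d (Or.inl (hG hd))]
      exact hd
    · intro d hd
      exact ⟨d, hd, h1 d (Or.inl (hG hd))⟩
  have hfw : ∀ i, fw T T₁ (θ z) (θ '' G) i ↔ fw S S₁ z G i := by
    intro i
    constructor
    · intro hf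
      have h2 := (fw_sim h' hB' hf).1
      rw [h1 z hz, hG'] at h2
      exact h2
    · intro hf
      exact (fw_sim h hB hf).1
  have hbw : ∀ i, bw T T₁ (θ z) (θ '' G) i ↔ bw S S₁ z G i := by
    intro i
    constructor
    · intro hf
      have h2 := (bw_sim h' hz' hB' hf).1
      rw [h1 z hz, hG'] at h2
      exact h2
    · intro hf
      exact (bw_sim h hz hB hf).1
  by_cases c1 : ∃ i, fw S S₁ z G i
  · have c1' : ∃ i, fw T T₁ (θ z) (θ '' G) i := by
      obtain ⟨i, hi⟩ := c1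
      exact ⟨i, (hfw i).2 hi⟩
    unfold pick
    rw [dif_pos c1, dif_pos c1']
    have e1 : Nat.find c1' = Nat.find c1 := Nat.find_congr' (fun {i} => hfw i)
    rw [e1]
    exact (fw_sim h hB (Nat.find_spec c1)).2
  · have c1' : ¬ ∃ i, fw T T₁ (θ z) (θ '' G) i := by
      rintro ⟨i, hi⟩
      exact c1 ⟨i, (hfw i).1 hi⟩
    by_cases c2 : ∃ i, bw S S₁ z G i
    · have c2' : ∃ i, bw T T₁ (θ z) (θ '' G) i := by
        obtain ⟨i, hi⟩ := c2
        exact ⟨i, (hbw i).2 hi⟩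
      unfold pick
      rw [dif_neg c1, dif_neg c1', dif_pos c2, dif_pos c2']
      have e1 : Nat.find c2' = Nat.find c2 := Nat.find_congr' (fun {i} => hbw i)
      rw [e1]
      exact (bw_sim h hz hB (Nat.find_spec c2)).2
    · have c2' : ¬ ∃ i, bw T T₁ (θ z) (θ '' G) i := by
        rintro ⟨i, hi⟩
        exact c2 ⟨i, (hbw i).1 hi⟩
      unfold pick
      rw [dif_neg c1, dif_neg c1', dif_neg c2, dif_neg c2']

end

theorem brul_irul {D E : Type} [Finite D] [Finite E] (P : Prm) (S : Part D) (x : D) (T : Part E) (y : E) (W : ℕ) :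
    IRul (brul P S x) (brul P T y) S x T y W := by
  intro h S₁ T₁ θ z hs hz hB
  refine ⟨?_, ?_⟩
  · rcases brul_new (P := P) (S := S) (S₁ := S₁) (x := x) (z := z) (h := h) with h1 | h1
    · rw [h1]
      exact hz
    · exact Or.inl h1
  · show pick T T₁ (θ z) (tgt P T T₁ y) = θ (pick S S₁ z (tgt P S S₁ x))
    rw [← sim_tgt hs]
    exact pick_sim hs hz hB fun d hd => (tgt_sub hs.sub hd).2

end SYS.BK
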