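import Pool.Agent.SYS.BK.Rul
import Pool.Agent.SYS.BK.Arc

/-!
# SYSS-BLK-Run: the nodes of the run of a block

PLAN.
* `rn_rchg`: induction, `rchg_append` with `w' = [s]`.  `rn_sub`: `rchg_sub`.
* `rn_snoc`: `cases` on `Rn` (the word `w ++ [s]` determines `w`, `s`: `List.append_inj'`, `List.concat_eq_append`; use an auxiliary statement `∀ w', Rn .. w' .. → w' = w ++ [s] → ..`).
* `rn_anc`: induction on `v` from the right (`List.reverseRecOn`) resp. on the node: for `v = []` the nodes are equal (`rchg` of `[]`).  For `v = v' ++ [s]`: `rchg_append` splits the run `u → S₂` into `u → S₃` (word `v'`) and the step `s`; the last step of the node (`rn_snoc`) has the parent `S₁'` reached by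
  `u ++ v'`; `S₃ = S₁'` by `rchg_unique` with `U = S'` (both are reached from `S, x` by the word `u ++ v'` and are `Sub S'`); induction hypothesis for the parent.
* `rn_of`: induction on `w` from the right.
* `blk_anc`: `rn_anc`: if `v ≠ []` then the ancestor is not `Done`.
* `rn_gate`: `rn_arc` gives an `Arc` at `z` before `pick`; `tgt_ne`; `arc_pick`.
* `tgt_ne`: if the first case of `tgt` holds: `Nat.find_spec`; otherwise `¬ Done` gives a dart of `S₁.B ∩ inr`.
* `rn_arc`: induction: the root by `arc_root`; a step from `S₁, d`: `arc_st` gives the arc at `z`; the new gate is `pick ..`: equal to `z` or in `G` and new, then `arc_rot` (it is in `u ∪ v` by the last clause of `Arc`).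
  `t1 = x :: t` after the first step: `arc_st` with `d = x ∈ o = S.hw x` gives `x ∈ o1`, so `t1 = o1 ≠ []`, and the head of `S.hw x = t1 ++ ..` is `x`; later `t1` only grows.
* `blk_unique`: `rchg_cmp`: the words are comparable; the shorter one is an ancestor (`rchg_append`, `rchg_unique` with `U = ofTri T`), `blk_anc`.
-/

namespace SYS.BK

open Classical SST SYS.Part

section
variable {D : Type} [Finite D] {P : Prm} {S S₁ S' : Part D} {x d x' : D} {w u v : List Stp} {s : Stp}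

theorem rn_rchg (h : Rn P S x w S' x') : RchG (brul P S x) [] S x w S' x' := by
  induction h with
  | root => exact ⟨rfl, rfl⟩
  | step _ _ hst ih => exact rchg_append.2 ⟨_, _, ih, _, _, hst, rfl, rfl⟩

theorem rn_sub (h : Rn P S x w S' x') : S.Sub S' := rchg_sub (rn_rchg h)

theorem rn_mem (hx : x ∈ S.B) (h : Rn P S x w S' x') : x' ∈ S'.B := by
  cases h with
  | root => exact hx
  | step _ _ hst => exact (brul_rul P S x _ _ _ (st_sub hst).2.2).1

private theorem rn_snoc' {w' : List Stp} (h : Rn P S x w' S' x') : ∀ w s, w' = w ++ [s] →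
    ∃ S₁ d z, Rn P S x w S₁ d ∧ ¬ Done P S S₁ x ∧ S₁.St d s S' z ∧
    x' = brul P S x (w ++ [s]) S' z := by
  cases h with
  | root =>
    intro w s h
    exact absurd h (by simp)
  | step h1 h2 h3 =>
    intro w s h
    obtain ⟨rfl, h5⟩ := List.append_inj' h rfl
    obtain rfl : _ = s := by simpa using h5
    exact ⟨_, _, _, h1, h2, h3, rfl⟩

theorem rn_snoc (h : Rn P S x (w ++ [s]) S' x') : ∃ S₁ d z, Rn P S x w S₁ d ∧ ¬ Done P S S₁ x ∧ S₁.St d s S' z ∧
    x' = brul P S x (w ++ [s]) S' z := rn_snoc' h w s rfl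

theorem rn_anc (h : Rn P S x (u ++ v) S' x') (h1 : RchG (brul P S x) [] S x u S₁ d) (h2 : RchG (brul P S x) u S₁ d v S' x') :
    Rn P S x u S₁ d ∧ (v ≠ [] → ¬ Done P S S₁ x) := by
  induction v using List.reverseRecOn generalizing S' x' with
  | nil =>
    obtain ⟨rfl, rfl⟩ := h2
    rw [List.append_nil] at h
    exact ⟨h, fun hn => absurd rfl hn⟩
  | append_singleton v' s ih =>
    rw [← List.append_assoc] at h
    obtain ⟨S₁', d', z, h3, h4, h5, rfl⟩ := rn_snoc h
    obtain ⟨S₃, d₃, h6, S₄, z₄, h7, h8, -⟩ := rchg_append.1 h2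
    subst h8
    have h9 : RchG (brul P S x) [] S x (u ++ v') S₃ d₃ := rchg_append.2 ⟨_, _, h1, h6⟩
    obtain ⟨rfl, rfl⟩ := rchg_unique h9 (rn_rchg h3) (st_sub h7).1 (st_sub h5).1
    obtain ⟨h10, h11⟩ := ih h3 h6
    refine ⟨h10, fun _ => ?_⟩
    by_cases hv : v' = []
    · subst hv
      obtain ⟨rfl, rfl⟩ := h6
      exact h4
    · exact h11 hv

/-- Existence of the ancestors. -/
theorem rn_split (h : Rn P S x (u ++ v) S' x') : ∃ S₁ d, Rn P S x u S₁ d ∧ RchG (brul P S x) u S₁ d v S' x' := by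
  obtain ⟨S₁, d, h1, h2⟩ := rchg_append.1 (rn_rchg h)
  exact ⟨S₁, d, (rn_anc h h1 h2).1, h2⟩

theorem rn_of (h : RchG (brul P S x) [] S x w S' x')
    (hd : ∀ u v S₁ d, w = u ++ v → v ≠ [] → RchG (brul P S x) [] S x u S₁ d → RchG (brul P S x) u S₁ d v S' x' → ¬ Done P S S₁ x) :
    Rn P S x w S' x' := by
  induction w using List.reverseRecOn generalizing S' x' with
  | nil =>
    obtain ⟨rfl, rfl⟩ := h
    exact Rn.root
  | append_singleton w' s ih =>
    obtain ⟨S₁, d, h1, h2⟩ := rchg_append.1 h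
    have h2' : RchG (brul P S x) w' S₁ d [s] S' x' := h2
    obtain ⟨S₂, z, hst, h3, h4⟩ := h2
    subst h3
    subst h4
    refine Rn.step (ih h1 fun u v S₂ d₂ hw hv g1 g2 => ?_) (hd w' [s] S₁ d rfl (by simp) h1 h2') hst
    refine hd u (v ++ [s]) S₂ d₂ (by rw [hw, List.append_assoc]) (by simp) g1 ?_
    refine rchg_append.2 ⟨S₁, d, g2, ?_⟩
    rw [← hw]
    exact h2'

private theorem st_gl {S S' : Part D} {x z : D} {s : Stp} (h : S.St x s S' z) : x ∉ S'.B := by
  cases s with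
  | T =>
    obtain ⟨t0, t1, t2, hx, h0, h1, h2, h01, h12, h20, rfl, rfl⟩ := h
    rw [face_B]
    rintro (h | h)
    · exact h.2 rfl
    · have hR := S.B_sub_R hx
      rcases h with h | h
      · exact h1 (h ▸ hR)
      · exact h2 (h ▸ hR)
  | L k a =>
    obtain ⟨y, u, v, w, hx, hy, hw, hk, hu, hf⟩ := h
    have hxy : x ≠ y := by
      have hn := S.hw_nodup hx
      rw [hw, List.nodup_cons] at hn
      rintro rfl
      exact hn.1 (by simp)
    have h1 : x ∉ (S.glue x y hx hy).B := by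
      rw [glue_B _ _ _ hxy]
      intro h
      exact h.2 (Or.inl rfl)
    rcases hf with ⟨_, _, rfl⟩ | ⟨_, V, _, hf⟩
    · exact h1
    · rw [hf.B]
      exact fun h => h1 h.1
  | R k a =>
    obtain ⟨y, u, v, w, hx, hy, hw, hk, hu, hf⟩ := h
    have hxy : x ≠ y := by
      have hn := S.hw_nodup hx
      rw [hw, List.nodup_cons] at hn
      rintro rfl
      exact hn.1 (by simp)
    have h1 : x ∉ (S.glue x y hx hy).B := by
      rw [glue_B _ _ _ hxy]
      intro h
      exact h.2 (Or.inl rfl)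
    rcases hf with ⟨_, _, rfl⟩ | ⟨_, V, _, hf⟩
    · exact h1
    · rw [hf.B]
      exact fun h => h1 h.1

theorem rn_glued (hx : x ∈ S.B) (h : Rn P S x w S' x') (hw : w ≠ []) : S'.a x ≠ x := by
  cases w with
  | nil => exact absurd rfl hw
  | cons s w =>
    obtain ⟨S₁, z, hst, hr⟩ := rn_rchg h
    have h1 := (st_sub hst).1
    have h2 : S₁.a x ≠ x := fun h2 => st_gl hst ⟨h1.R_sub (S.B_sub_R hx), h2⟩
    have h3 := rchg_sub hr
    rw [h3.2 x h2]
    exact h2

/-- Finished blocks are prefix-free. -/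
theorem blk_anc {q q' : List Stp × Part D × D} (hx : x ∈ S.B) (h : Blk P S x q.1 q.2.1 q.2.2) (h' : Blk P S x q'.1 q'.2.1 q'.2.2)
    (ha : Anc (brul P S x) [] q q') : q = q' := by
  obtain ⟨v, h1, h2⟩ := ha
  by_cases hv : v = []
  · subst hv
    obtain ⟨h3, h4⟩ := h2
    rw [List.append_nil] at h1
    exact Prod.ext h1.symm (Prod.ext h3.symm h4.symm)
  · have h3 := h'.1
    rw [h1] at h3
    exact absurd h.2 ((rn_anc h3 (rn_rchg h.1) h2).2 hv)

theorem blk_ne (hx : x ∈ S.B) (h : Blk P S x w S' x') : w ≠ [] := by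
  rintro rfl
  obtain ⟨rfl, rfl⟩ := rn_rchg h.1
  exact h.2.1 hx.2

theorem tgt_ne (hx : S₁.a x ≠ x) (hd : ¬ Done P S S₁ x) : (tgt P S S₁ x).Nonempty := by
  unfold tgt
  split_ifs with h
  · exact (Nat.find_spec h).2
  · by_contra hn
    refine hd ⟨hx, fun d hd hi => hn ⟨d, hd, hi⟩⟩

private theorem rn_arc' (hx : x ∈ S.B) (h : Rn P S x w S' x') : ∃ u o v t1 t2, Arc S S' x x' u o v t1 t2 ∧
    (w ≠ [] → ∃ t, t1 = x :: t) ∧ (w = [] → t1 = [] ∧ o = S.hw x) := by
  induction h with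
  | root => exact ⟨[], S.hw x, [], [], [], arc_root hx, fun h => absurd rfl h, fun _ => ⟨rfl, rfl⟩⟩
  | @step w S₁ d s S₂ z h1 h2 h3 ih =>
    obtain ⟨u, o, v, t1, t2, ha, hb, hc⟩ := ih
    obtain ⟨u', o', v', o1, o2, ha', ho, -, hd⟩ := arc_st (rn_sub h1) h3 ha
    have hz := (st_sub h3).2.2
    have hhead : ∃ t, t1 ++ o1 = x :: t := by
      by_cases hw : w = []
      · obtain ⟨h4, h5⟩ := hc hw
        subst hw
        obtain ⟨rfl, rfl⟩ := rn_rchg h1
        have h6 : d ∈ S₁.hw d := (mem_hw S₁ hx).2 ⟨hx, Equiv.Perm.SameCycle.refl _ _⟩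
        have h7 := hd (by rw [h5]; exact h6)
        obtain ⟨r, hr⟩ := S₁.hw_cons hx
        cases o1 with
        | nil => exact absurd h7 (by simp)
        | cons e o1 =>
          rw [h5, hr] at ho
          have h8 : d = e := (List.cons.inj ho).1
          refine ⟨o1, ?_⟩
          rw [h4, h8, List.nil_append]
      · obtain ⟨t, ht⟩ := hb hw
        exact ⟨t ++ o1, by rw [ht, List.cons_append]⟩
    have hnil : w ++ [s] ≠ [] := by simp
    have hsub2 : S.Sub S₂ := sub_trans (rn_sub h1) (st_sub h3).1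
    have hp : brul P S x (w ++ [s]) S₂ z = pick S S₂ z (tgt P S S₂ x) := rfl
    rcases pick_new (S := S) (S₁ := S₂) (z := z) (G := tgt P S S₂ x) with h4 | ⟨h4, h5⟩
    · rw [hp, h4]
      exact ⟨u', o', v', _, _, ha', fun _ => hhead, fun h => absurd h hnil⟩
    · rw [hp]
      have h6 := ha'.2.2.2.2 _ (tgt_sub hsub2 h5).1 h4.2
      obtain ⟨u'', v'', h7, -⟩ := arc_rot ha' hz h6
      exact ⟨_, o', v'', _, _, h7, fun _ => hhead, fun h => absurd h hnil⟩

theorem rn_arc (hx : x ∈ S.B) (h : Rn P S x w S' x') : ∃ u o v t1 t2, Arc S S' x x' u o v t1 t2 ∧ (w ≠ [] → ∃ t, t1 = x :: t) := by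
  obtain ⟨u, o, v, t1, t2, h1, h2, -⟩ := rn_arc' hx h
  exact ⟨u, o, v, t1, t2, h1, h2⟩

/-- The next gate is a target. -/
theorem rn_gate (hx : x ∈ S.B) (h : Rn P S x w S' x') (hw : w ≠ []) (hd : ¬ Done P S S' x) : x' ∈ tgt P S S' x := by
  have hg := rn_glued hx h hw
  have hs := rn_sub h
  rcases List.eq_nil_or_concat w with rfl | ⟨w', s, rfl⟩
  · exact absurd rfl hw
  · rw [List.concat_eq_append] at h
    obtain ⟨S₁, d, z, h1, -, h3, rfl⟩ := rn_snoc h
    obtain ⟨u, o, v, t1, t2, ha, -⟩ := rn_arc hx h1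
    obtain ⟨u', o', v', o1, o2, ha', -, -, -⟩ := arc_st (rn_sub h1) h3 ha
    exact arc_pick ha' (st_sub h3).2.2 hs (tgt_sub hs) (tgt_ne hg hd)

end

theorem blk_unique {n g : ℕ} {P : Prm} {S S' S'' : Part (Fin (6 * n))} {x x' x'' : Fin (6 * n)} {l : List (Fin (6 * n))} {p F κ : ℕ}
    {Q : List ℕ} {T : Tri (Fin (6 * n))} {w w' : List Stp} (hS : S.Typ (x :: l) (p :: Q) F κ) (hT : T ∈ S.Ext g) (ho : κ < g ∨ l ≠ [])
    (h : Blk P S x w S' x') (h' : Blk P S x w' S'' x'') (hL : S'.Le T) (hL' : S''.Le T) (hc : S'.HConn T) (hc' : S''.HConn T) :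
    w = w' ∧ S' = S'' ∧ x' = x'' := by
  have aux : ∀ {S' S'' : Part (Fin (6 * n))} {x' x'' : Fin (6 * n)} {w w' : List Stp}, Blk P S x w S' x' →
      Blk P S x w' S'' x'' → S'.Le T → S''.Le T → w <+: w' → w = w' ∧ S' = S'' ∧ x' = x'' := by
    intro S' S'' x' x'' w w' h h' hL hL' hw
    obtain ⟨v, rfl⟩ := hw
    obtain ⟨S₁, d, h1, h2⟩ := rchg_append.1 (rn_rchg h'.1)
    obtain ⟨rfl, rfl⟩ := rchg_unique h1 (rn_rchg h.1) (U := ofTri T) (sub_trans (rchg_sub h2) hL') hL
    have h3 := (rn_anc h'.1 h1 h2).2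
    by_cases hv : v = []
    · subst hv
      obtain ⟨rfl, rfl⟩ := h2
      exact ⟨(List.append_nil _).symm, rfl, rfl⟩
    · exact absurd h.2 (h3 hv)
  rcases rchg_cmp (brul_rul P S x) hS hT ho (rn_rchg h.1) (rn_rchg h'.1) hL hL' hc hc' with hw | hw
  · exact aux h h' hL hL' hw
  · obtain ⟨h1, h2, h3⟩ := aux h' h hL' hL hw
    exact ⟨h1.symm, h2.symm, h3.symm⟩

end SYS.BK
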