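import Pool.Agent.SYS.BK.Cho
import Pool.Agent.SYS.BK.Arc
import Pool.Agent.SYS.PX.Br

/-!
# SYSS-BLK-RunB: the nodes of the run of a block

PLAN.  (The same facts for the old form of the rule are proved in `BK/Run.lean`: copy and adapt; `Rn` becomes `BR (nxt P S x) S x`.)
* `br_inv`: induction on `w` (generalizing `Z z`).
* `arc_of_same`: if `d` is in the hole of `z` then the arc at `z` can be rotated: for the root `d = x = z` nothing to do.
* `node_arc`: `br_inv` with `I Z z := S.Sub Z ∧ z ∈ Z.B ∧ ((Z = S ∧ z = x) ∨ (Z.a x ≠ x ∧ ∃ arc with t1 = x :: t))`.  Step: `nxt_mem`: at the root (`S.a x = x`) `d = x`: `arc_root`, `arc_st` (`d ∈ o → d ∈ o1`, so `x ∈ o1 = t1`, and the head of `S.hw x` is `x`);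
  otherwise `d ∈ tgt ⊆ nw` (`tgt_nw`), so `d ∈ u ∨ d ∈ v`: `arc_rot`, `arc_st`.  `Z₁.a x ≠ x`: at the root: the step glues `x` (`face`: `a x = t0`; `glue`: `a x = y`; cf. `st_strict` of `PX/Br`), later `S₁.Sub Z₁`.
* `node_gate`: `nxt_mem`; all new boundary darts are in `u ∪ v`, so in `S'.hw z'` (`mem_hw`).
-/

namespace SYS.BK

open Classical SST SYS.Part

variable {D : Type} [Finite D] {b : Part D → Option D} {P : Prm} {S Z Z' S' : Part D} {x z z' d : D} {w : List Stp}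

/-- Invariants of runs. -/
theorem br_inv {I : Part D → D → Prop} (hr : BR b Z z w Z' z') (h0 : I Z z)
    (hst : ∀ (Z : Part D) (z d : D) (s : Stp) (Z₁ : Part D) (z₁ : D), I Z z → b Z = some d → d ∈ Z.B → Z.s.SameCycle z d →
      Z.St d s Z₁ z₁ → I Z₁ z₁) : I Z' z' := by
  induction w generalizing Z z with
  | nil =>
    obtain ⟨rfl, rfl⟩ := hr
    exact h0
  | cons s w ih =>
    obtain ⟨d, Z₁, z₁, h1, h2, h3, h4, h5⟩ := hr
    exact ih h5 (hst Z z d s Z₁ z₁ h0 h1 h2 h3 h4)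

theorem node_glued (hx : x ∈ S.B) (h : BR (nxt P S x) S x w S' z') (hw : w ≠ []) : S'.a x ≠ x := by
  cases w with
  | nil => exact absurd rfl hw
  | cons s w =>
    obtain ⟨d, Z₁, z₁, h1, h2, h3, h4, h5⟩ := h
    rw [nxt_self hx] at h1
    obtain rfl := Option.some.inj h1
    have h6 := (st_strict h4).2
    rw [(br_sub h5).2 x h6]
    exact h6

private theorem node_arc' (hx : x ∈ S.B) (h : BR (nxt P S x) S x w S' z') :
    S.Sub S' ∧ z' ∈ S'.B ∧ ((S' = S ∧ z' = x) ∨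
      (S'.a x ≠ x ∧ ∃ u o v t t2, Arc S S' x z' u o v (x :: t) t2)) := by
  refine br_inv (I := fun Z z => S.Sub Z ∧ z ∈ Z.B ∧ ((Z = S ∧ z = x) ∨
      (Z.a x ≠ x ∧ ∃ u o v t t2, Arc S Z x z u o v (x :: t) t2))) h ⟨sub_refl S, hx, Or.inl ⟨rfl, rfl⟩⟩ ?_
  rintro Z z d s Z₁ z₁ ⟨hs, hz, hI⟩ hb hd - hst
  have hst' := st_sub hst
  refine ⟨sub_trans hs hst'.1, hst'.2.2, Or.inr ?_⟩
  rcases hI with ⟨rfl, rfl⟩ | ⟨hgl, u, o, v, t, t2, ha⟩
  · rw [nxt_self hx] at hb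
    obtain rfl := Option.some.inj hb
    refine ⟨(st_strict hst).2, ?_⟩
    obtain ⟨u', o', v', o1, o2, ha', ho, -, hd'⟩ := arc_st hs hst (arc_root hx)
    have h6 : z ∈ Z.hw z := (mem_hw Z hx).2 ⟨hx, Equiv.Perm.SameCycle.refl _ _⟩
    have h7 := hd' h6
    obtain ⟨r, hr⟩ := Z.hw_cons hx
    cases o1 with
    | nil => exact absurd h7 (by simp)
    | cons e o1 =>
      rw [hr] at ho
      have h8 : z = e := (List.cons.inj ho).1
      subst h8
      exact ⟨u', o', v', o1, _, ha'⟩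
  · refine ⟨?_, ?_⟩
    · rw [hst'.1.2 x hgl]
      exact hgl
    · rcases (nxt_mem hs hx hb).2 with ⟨h1, -⟩ | ⟨-, h1⟩
      · exact absurd h1 hgl
      · have h2 := tgt_nw hs h1
        obtain ⟨u', v', h3, -⟩ := arc_rot ha hz (ha.2.2.2.2 _ h2.1 h2.2.2)
        obtain ⟨u'', o'', v'', o1, o2, h4, -, -, -⟩ := arc_st hs hst h3
        exact ⟨u'', o'', v'', t ++ o1, _, h4⟩

theorem node_arc (hx : x ∈ S.B) (h : BR (nxt P S x) S x w S' z') :
    ∃ u o v t1 t2, Arc S S' x z' u o v t1 t2 ∧ (w ≠ [] → ∃ t, t1 = x :: t) := by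
  obtain ⟨-, -, h1⟩ := node_arc' hx h
  rcases h1 with ⟨rfl, rfl⟩ | ⟨-, u, o, v, t, t2, ha⟩
  · refine ⟨[], _, [], [], [], arc_root hx, fun hw => ?_⟩
    exact absurd hx.2 (node_glued hx h hw)
  · exact ⟨u, o, v, _, t2, ha, fun _ => ⟨t, rfl⟩⟩

/-- The next gate: `x` at the root, later a target; it is in the hole of the run. -/
theorem node_gate (hx : x ∈ S.B) (h : BR (nxt P S x) S x w S' z') (hd : nxt P S x S' = some d) :
    d ∈ S'.B ∧ S'.s.SameCycle z' d ∧ ((w = [] ∧ S' = S ∧ d = x) ∨ (w ≠ [] ∧ d ∈ tgt P S S' x)) := by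
  by_cases hw : w = []
  · subst hw
    obtain ⟨rfl, rfl⟩ := h
    rw [nxt_self hx] at hd
    obtain rfl := Option.some.inj hd
    exact ⟨hx, Equiv.Perm.SameCycle.refl _ _, Or.inl ⟨rfl, rfl, rfl⟩⟩
  · have hgl := node_glued hx h hw
    obtain ⟨hs, hz, -⟩ := node_arc' hx h
    obtain ⟨h1, h2⟩ := nxt_mem hs hx hd
    rcases h2 with ⟨h2, -⟩ | ⟨-, h2⟩
    · exact absurd h2 hgl
    · refine ⟨h1, ?_, Or.inr ⟨hw, h2⟩⟩
      obtain ⟨u, o, v, t1, t2, ha, -⟩ := node_arc hx h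
      have h3 := tgt_nw hs h2
      have h4 : d ∈ S'.hw z' := by
        rw [ha.1]
        rcases ha.2.2.2.2 _ h3.1 h3.2.2 with h5 | h5
        · exact List.mem_append_left _ h5
        · exact List.mem_append_right _ (List.mem_append_right _ h5)
      exact ((mem_hw S' hz).1 h4).2

theorem end_ne (hx : x ∈ S.B) {q : List Stp × Part D × D} (h : BEnd (nxt P S x) S x q) : q.1 ≠ [] := by
  obtain ⟨h1, h2⟩ := h
  intro hq
  rw [hq] at h1
  obtain ⟨h3, -⟩ := h1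
  rw [h3, nxt_self hx] at h2
  exact absurd h2 (by simp)

end SYS.BK
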