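import Pool.Agent.SYS.BK.Mon

/-!
# SYSS-BLK-SimB: balls, inner faces, targets are intrinsic

An isomorphism `θ` of the new parts (`Sim`) maps dual balls, good sets, inner faces, targets and exits onto the corresponding sets.
-/

namespace SYS.BK

open Classical SST SYS.Part

variable {D E : Type} [Finite D] [Finite E] {P : Prm} {S S' : Part D} {x : D} {T T' : Part E} {y : E} {W : ℕ} {θ : D → E}

private theorem sb_N {d : D} (hd : d ∈ nw S S') : d ∈ NW S S' x W := Or.inl hd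

private theorem sb_f (h : Sim S S' x T T' y W θ) {d : D} (hd : d ∈ nw S S') : S'.f d ∈ nw S S' :=
  ((frm_nw h.sub).fN d).2 hd

private theorem sb_θ (h : Sim S S' x T T' y W θ) {d : D} (hd : d ∈ nw S S') : θ d ∈ nw T T' := by
  have h1 : θ d ∈ θ '' (S'.R \ S.R) := Set.mem_image_of_mem _ hd
  rw [h.new] at h1
  exact h1

private theorem sb_pre (h : Sim S S' x T T' y W θ) {e : E} (he : e ∈ nw T T') : ∃ d ∈ nw S S', θ d = e := by
  have h1 : e ∈ θ '' (S'.R \ S.R) := by rw [h.new]; exact he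
  obtain ⟨d, hd, hde⟩ := h1
  exact ⟨d, hd, hde⟩

private theorem sb_mem (h : Sim S S' x T T' y W θ) {Z : Set D} (hZ : Z ⊆ nw S S') {d : D} (hd : d ∈ NW S S' x W) :
    θ d ∈ θ '' Z ↔ d ∈ Z := by
  constructor
  · rintro ⟨e, he, hed⟩
    rw [← h.inj (sb_N (hZ he)) hd hed]
    exact he
  · exact Set.mem_image_of_mem _

private theorem sb_memN (h : Sim S S' x T T' y W θ) {d : D} (hd : d ∈ NW S S' x W) :
    θ d ∈ nw T T' ↔ d ∈ nw S S' := by
  constructor
  · intro h1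
    obtain ⟨e, he, hed⟩ := sb_pre h h1
    rw [← h.inj (sb_N he) hd hed]
    exact he
  · exact sb_θ h

private theorem sb_a (h : Sim S S' x T T' y W θ) {Z : Set D} (hZ : Z ⊆ nw S S') {d : D} (hd : d ∈ NW S S' x W) :
    T'.a (θ d) ∈ θ '' Z ↔ S'.a d ∈ Z := by
  rw [← (h.a d hd).2]
  exact sb_mem h hZ (h.a d hd).1

private theorem sb_x (h : Sim S S' x T T' y W θ) : x ∈ NW S S' x W ∧ θ x = y := by
  have h1 : S.bs x 0 = x := by simp [Part.bs]
  have h2 : T.bs y 0 = y := by simp [Part.bs]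
  refine ⟨Or.inr ⟨0, by simp, h1.symm⟩, ?_⟩
  have h3 := h.base 0 (by simp)
  rwa [h1, h2] at h3

private theorem sb_ax (h : Sim S S' x T T' y W θ) : S'.a x ∈ NW S S' x W ∧ θ (S'.a x) = T'.a y := by
  obtain ⟨h1, h2⟩ := sb_x h
  have h3 := h.a x h1
  rw [h2] at h3
  exact h3

private theorem sb_nbh (h : Sim S S' x T T' y W θ) {Z : Set D} (hZ : Z ⊆ nw S S') :
    θ '' nbh S'.a S'.f (nw S S') Z = nbh T'.a T'.f (nw T T') (θ '' Z) := by
  have key : ∀ d ∈ nw S S', θ d ∈ nbh T'.a T'.f (nw T T') (θ '' Z) ↔ d ∈ nbh S'.a S'.f (nw S S') Z := by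
    intro d hd
    have hd1 := sb_f h hd
    have hd2 := sb_f h hd1
    have e1 := h.f d hd
    have e2 := h.f _ hd1
    have k0 := sb_mem h hZ (sb_N (x := x) (W := W) hd)
    have k1 := sb_a h hZ (sb_N (x := x) (W := W) hd)
    have k2 := sb_a h hZ (sb_N (x := x) (W := W) hd1)
    have k3 := sb_a h hZ (sb_N (x := x) (W := W) hd2)
    rw [e1] at k2
    rw [e2, e1] at k3
    unfold nbh
    rw [Set.mem_ofPred_eq, Set.mem_ofPred_eq, k0, k1, k2, k3]
    constructor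
    · rintro ⟨_, h2⟩
      exact ⟨hd, h2⟩
    · rintro ⟨_, h2⟩
      exact ⟨sb_θ h hd, h2⟩
  apply Set.Subset.antisymm
  · rintro _ ⟨d, hd, rfl⟩
    exact (key d hd.1).2 hd
  · intro e he
    obtain ⟨d, hd, rfl⟩ := sb_pre h he.1
    exact ⟨d, (key d hd).1 he, rfl⟩

private theorem sb_bl (h : Sim S S' x T T' y W θ) {Y : Set D} (hY : Y ⊆ nw S S') (n : ℕ) :
    θ '' bl S'.a S'.f (nw S S') Y n = bl T'.a T'.f (nw T T') (θ '' Y) n := by
  induction n with
  | zero => rfl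
  | succ n ih =>
    show θ '' nbh S'.a S'.f (nw S S') (bl S'.a S'.f (nw S S') Y n) = nbh T'.a T'.f (nw T T') _
    rw [sb_nbh h (bl_sub hY n), ih]

theorem sim_bl (h : Sim S S' x T T' y W θ) {Y : Set D} (hY : Y ⊆ nw S S') (hf : ∀ d, S'.f d ∈ Y ↔ d ∈ Y) (n : ℕ) :
    θ '' bl S'.a S'.f (nw S S') Y n = bl T'.a T'.f (nw T T') (θ '' Y) n := by
  exact sb_bl h hY n

private theorem sb_fc (h : Sim S S' x T T' y W θ) (hx : S'.a x ∈ nw S S') :
    θ '' fc S'.f (S'.a x) = fc T'.f (T'.a y) := by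
  have e0 := (sb_ax h).2
  have e1 := h.f _ hx
  have e2 := h.f _ (sb_f h hx)
  rw [e1, e0] at e2
  rw [e0] at e1
  unfold fc
  rw [Set.image_insert_eq, Set.image_insert_eq, Set.image_singleton, e0, e1, e2]

private theorem sb_ff (h : Sim S S' x T T' y W θ) : θ '' ff S S' x = ff T T' y := by
  by_cases hx : S'.a x ∈ nw S S'
  · have hy : T'.a y ∈ nw T T' := by
      rw [← (sb_ax h).2]
      exact sb_θ h hx
    rw [ff_eq h.sub hx, ff_eq h.sub' hy, sb_fc h hx]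
  · have hy : T'.a y ∉ nw T T' := by
      rw [← (sb_ax h).2, sb_memN h (sb_ax h).1]
      exact hx
    rw [ff_empty h.sub hx, ff_empty h.sub' hy, Set.image_empty]

theorem sim_bal (h : Sim S S' x T T' y W θ) (j : ℕ) : θ '' bal S S' x j = bal T T' y j := by
  unfold bal
  rw [sb_bl h (fun d hd => hd.1) j, sb_ff h]

theorem sim_gd (h : Sim S S' x T T' y W θ) {M A : ℕ} {B : Set D} (hB : Gd S'.a S'.f (nw S S') (S'.a x) M A B) :
    Gd T'.a T'.f (nw T T') (T'.a y) M A (θ '' B) := by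
  have hfθ : ∀ d ∈ nw S S', T'.f (θ d) ∈ θ '' B ↔ d ∈ B := by
    intro d hd
    rw [← h.f d hd, sb_mem h hB.sub (sb_N (sb_f h hd)), hB.fs]
  refine ⟨?_, ?_, ?_, ?_, ?_, ?_, ?_⟩
  · rintro _ ⟨d, hd, rfl⟩
    exact sb_θ h (hB.sub hd)
  · intro e
    constructor
    · intro he
      have h1 : T'.f e ∈ nw T T' := by
        obtain ⟨d, hd, hde⟩ := he
        rw [← hde]
        exact sb_θ h (hB.sub hd)
      have h2 := ((frm_nw h.sub').fN e).1 h1
      obtain ⟨d, hd, rfl⟩ := sb_pre h h2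
      exact Set.mem_image_of_mem _ ((hfθ d hd).1 he)
    · rintro ⟨d, hd, rfl⟩
      exact (hfθ d (hB.sub hd)).2 hd
  · rw [← (sb_ax h).2]
    exact Set.mem_image_of_mem _ hB.mem
  · rintro _ ⟨d, hd, rfl⟩ hcon
    have h1 := h.a d (sb_N (hB.sub hd))
    rw [← h1.2] at hcon
    exact hB.ne d hd (h.inj h1.1 (sb_N (hB.sub hd)) hcon)
  · intro Z' hZ' hne hf' ha'
    have hZ : {d | d ∈ B ∧ θ d ∈ Z'} = B := by
      refine hB.pc _ (fun d hd => hd.1) ?_ ?_ ?_
      · obtain ⟨e, he⟩ := hne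
        obtain ⟨d, hd, rfl⟩ := hZ' he
        exact ⟨d, hd, he⟩
      · rintro d ⟨h1, h2⟩
        refine ⟨(hB.fs d).2 h1, ?_⟩
        rw [h.f d (hB.sub h1)]
        exact hf' _ h2
      · rintro d ⟨h1, h2⟩ h3
        refine ⟨h3, ?_⟩
        have h4 := (h.a d (sb_N (hB.sub h1))).2
        rw [h4]
        refine ha' _ h2 ?_
        rw [← h4]
        exact Set.mem_image_of_mem _ h3
    refine Set.Subset.antisymm hZ' ?_
    rintro _ ⟨d, hd, rfl⟩
    rw [← hZ] at hd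
    exact hd.2
  · have hsub : bd T'.a (θ '' B) ⊆ θ '' bd S'.a B := by
      rintro _ ⟨⟨d, hd, rfl⟩, h2⟩
      refine ⟨d, ⟨hd, fun h3 => h2 ?_⟩, rfl⟩
      exact (sb_a h hB.sub (sb_N (hB.sub hd))).2 h3
    exact (Set.ncard_le_ncard hsub (Set.toFinite _)).trans ((Set.ncard_image_le (Set.toFinite _)).trans hB.per)
  · exact (Set.ncard_image_le (Set.toFinite _)).trans hB.vol

private theorem sb_inr (h : Sim S S' x T T' y W θ) : θ '' inr P S S' x ⊆ inr P T T' y := by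
  have hI : Cl T'.a T'.f (nw T T') (T'.a y) P.M P.A P.q (inr P T T' y) := inn_cl
  have hsub : inr P S S' x ⊆ {d | d ∈ nw S S' ∧ θ d ∈ inr P T T' y} := by
    refine inn_sub ⟨fun hx d hd => ?_, fun B hB hG d hd => ?_⟩
    · have hF := frm_nw h.sub
      have hdN : d ∈ nw S S' := by
        rcases hd with rfl | rfl | hd
        · exact hx
        · exact sb_f h hx
        · rw [Set.mem_singleton_iff] at hd
          rw [hd]
          exact sb_f h (sb_f h hx)
      have hy : T'.a y ∈ nw T T' := by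
        rw [← (sb_ax h).2]
        exact sb_θ h hx
      refine ⟨hdN, hI.1 hy ?_⟩
      rw [← sb_fc h hx]
      exact Set.mem_image_of_mem _ hd
    · have hBN : B ⊆ nw S S' := hG.sub
      refine ⟨bl_sub hBN _ hd, ?_⟩
      refine hI.2 (θ '' B) ?_ (sim_gd h hG) ?_
      · rintro _ ⟨c, hc, rfl⟩
        exact (hB hc).2
      · rw [← sb_bl h hBN]
        exact Set.mem_image_of_mem _ hd
  rintro _ ⟨d, hd, rfl⟩
  exact (hsub hd).2

theorem sim_inr (h : Sim S S' x T T' y W θ) : θ '' inr P S S' x = inr P T T' y := by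
  refine Set.Subset.antisymm (sb_inr h) ?_
  obtain ⟨θ', h', h1, h2⟩ := sim_symm h
  intro e he
  have heN : e ∈ nw T T' := inn_N (frm_nw h.sub') he
  refine ⟨θ' e, sb_inr h' (Set.mem_image_of_mem _ he), h2 e (Or.inl heN)⟩

private theorem sb_cap (h : Sim S S' x T T' y W θ) {Z : Set D} (hZ : Z ⊆ nw S S') :
    θ '' (S'.B ∩ Z) = T'.B ∩ θ '' Z := by
  apply Set.Subset.antisymm
  · rintro _ ⟨d, hd, rfl⟩
    exact ⟨(sim_B h (sb_N (hZ hd.2))).2 hd.1, Set.mem_image_of_mem _ hd.2⟩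
  · rintro _ ⟨h1, d, hd, rfl⟩
    exact ⟨d, ⟨(sim_B h (sb_N (hZ hd))).1 h1, hd⟩, rfl⟩

theorem sim_tgt (h : Sim S S' x T T' y W θ) : θ '' tgt P S S' x = tgt P T T' y := by
  have hb : ∀ j, θ '' (S'.B ∩ bal S S' x j) = T'.B ∩ bal T T' y j := by
    intro j
    rw [sb_cap h (bal_sub j), sim_bal h]
  have hiff : ∀ j, (j ≤ P.J ∧ (S'.B ∩ bal S S' x j).Nonempty) ↔ (j ≤ P.J ∧ (T'.B ∩ bal T T' y j).Nonempty) := by
    intro j
    rw [← hb j, Set.image_nonempty]
  by_cases hex : ∃ j, j ≤ P.J ∧ (S'.B ∩ bal S S' x j).Nonempty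
  · have hex' : ∃ j, j ≤ P.J ∧ (T'.B ∩ bal T T' y j).Nonempty := by
      obtain ⟨j, hj⟩ := hex
      exact ⟨j, (hiff j).1 hj⟩
    have hfind : Nat.find hex = Nat.find hex' :=
      le_antisymm (Nat.find_min' hex ((hiff _).2 (Nat.find_spec hex')))
        (Nat.find_min' hex' ((hiff _).1 (Nat.find_spec hex)))
    have e1 : tgt P S S' x = S'.B ∩ bal S S' x (Nat.find hex) := dif_pos hex
    have e2 : tgt P T T' y = T'.B ∩ bal T T' y (Nat.find hex') := dif_pos hex'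
    rw [e1, e2, hb, hfind]
  · have hex' : ¬ ∃ j, j ≤ P.J ∧ (T'.B ∩ bal T T' y j).Nonempty := by
      rintro ⟨j, hj⟩
      exact hex ⟨j, (hiff j).2 hj⟩
    have e1 : tgt P S S' x = S'.B ∩ inr P S S' x := dif_neg hex
    have e2 : tgt P T T' y = T'.B ∩ inr P T T' y := dif_neg hex'
    have h3 : inr P S S' x ⊆ nw S S' := inn_N (frm_nw h.sub)
    rw [e1, e2, sb_cap h h3, sim_inr h]

theorem sim_done (h : Sim S S' x T T' y W θ) : Done P S S' x ↔ Done P T T' y := by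
  have h0 : S'.a x = x ↔ T'.a y = y := by
    constructor
    · intro h1
      rw [← (sb_ax h).2, h1]
      exact (sb_x h).2
    · intro h1
      rw [← (sb_ax h).2] at h1
      exact h.inj (sb_ax h).1 (sb_x h).1 (h1.trans (sb_x h).2.symm)
  have h3 : inr P S S' x ⊆ nw S S' := inn_N (frm_nw h.sub)
  unfold Done
  refine and_congr (not_congr h0) ?_
  constructor
  · intro h1 e he hei
    rw [← sim_inr h] at hei
    obtain ⟨d, hd, rfl⟩ := hei
    exact h1 d ((sim_B h (sb_N (h3 hd))).1 he) hd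
  · intro h1 d hd hdi
    refine h1 (θ d) ((sim_B h (sb_N (h3 hdi))).2 hd) ?_
    rw [← sim_inr h]
    exact Set.mem_image_of_mem _ hdi

/-- The number of exits. -/
theorem sim_exits (h : Sim S S' x T T' y W θ) : (S'.B \ S.R).ncard = (T'.B \ T.R).ncard := by
  have e1 : S'.B \ S.R = S'.B ∩ nw S S' := by
    ext d
    constructor
    · rintro ⟨h1, h2⟩
      exact ⟨h1, h1.1, h2⟩
    · rintro ⟨h1, _, h2⟩
      exact ⟨h1, h2⟩
  have e2 : T'.B \ T.R = T'.B ∩ nw T T' := by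
    ext d
    constructor
    · rintro ⟨h1, h2⟩
      exact ⟨h1, h1.1, h2⟩
    · rintro ⟨h1, _, h2⟩
      exact ⟨h1, h2⟩
  have e3 : θ '' nw S S' = nw T T' := h.new
  rw [e1, e2, ← e3, ← sb_cap h (le_refl _)]
  refine (Set.InjOn.ncard_image ?_).symm
  exact h.inj.mono fun d hd => sb_N hd.2

end SYS.BK
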