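import Pool.Agent.SYS.BK.Lay
import Pool.Agent.SYS.BK.Run

/-!
# SYSS-BLK-Top: inner faces in a triangulation (interface for PROG)
-/

namespace SYS.BK

open Classical SST SYS.Part

variable {D : Type} [Finite D] {P : Prm} {S S' : Part D} {x x' : D} {w : List Stp} {T : Tri D}

omit [Finite D] in
private theorem nw_tri (S : Part D) (T : Tri D) : nw S (ofTri T) = {d | d ∉ S.R} := by
  ext d
  exact ⟨fun h => h.2, fun h => ⟨T.fne d, h⟩⟩

/-- All inner faces are revealed completely in the region at the end of the block. -/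
theorem top_done (hx : x ∈ S.B) (hs : S.Sub S') (hL : S'.Le T) (hd : Done P S S' x) :
    inr P S (ofTri T) x = inr P S S' x ∧ ∀ d ∈ inr P S (ofTri T) x, d ∈ S'.R ∧ d ∉ S.R ∧ S'.a d = T.a d ∧ S'.f d = T.f d ∧ d ∉ S'.B := by
  have h1 : inr P S (ofTri T) x = inr P S S' x := inr_done hs ((le_iff_sub S' T).1 hL) hx hd
  refine ⟨h1, fun d hd' => ?_⟩
  rw [h1] at hd'
  have h2 : d ∈ nw S S' := (inr_sub hs).1 hd'
  have h3 : d ∉ S'.B := fun h => hd.2 d h hd'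
  have h4 : S'.a d ≠ d := fun h => h3 ⟨h2.1, h⟩
  exact ⟨h2.1, h2.2, (hL.2 d h4).symm, (hL.1 d h2.1).symm, h3⟩

theorem top_hid (h : S.Le T) : inr P S (ofTri T) x ⊆ {d | d ∉ S.R} ∧ XP.Fs T (inr P S (ofTri T) x) := by
  obtain ⟨h1, h2⟩ := inr_sub (P := P) (x := x) ((le_iff_sub S T).1 h)
  refine ⟨?_, h2⟩
  rw [← nw_tri S T]
  exact h1

theorem top_face (h : S.Le T) (hy : T.a x ∉ S.R) : fc T.f (T.a x) ⊆ inr P S (ofTri T) x :=
  (inn_cl (a := T.a) (f := T.f) (N := nw S (ofTri T)) (y := T.a x) (M := P.M) (A := P.A) (q := P.q)).1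
    ⟨T.fne _, hy⟩

theorem top_ball (h : S.Le T) {B : Set D} (hB : B ⊆ inr P S (ofTri T) x) (hfs : XP.Fs T B) (hdc : XP.DC T B) (hx : T.a x ∈ B)
    (hp : (XP.bdy T B).ncard ≤ P.M) (hv : B.ncard ≤ 3 * P.A) : bl T.a T.f {d | d ∉ S.R} B P.q ⊆ inr P S (ofTri T) x := by
  rw [← nw_tri S T]
  refine (inn_cl (a := T.a) (f := T.f) (N := nw S (ofTri T)) (y := T.a x) (M := P.M) (A := P.A) (q := P.q)).2 B hB ?_
  exact ⟨hB.trans (inr_sub ((le_iff_sub S T).1 h)).1, hfs, hx, fun d _ => T.ane d, hdc, hp, hv⟩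

/-- Inner faces are at dual distance `< R₀` from the face behind the gate. -/
theorem top_dist (h : S.Le T) : inr P S (ofTri T) x ⊆ bl T.a T.f {d | d ∉ S.R} (fc T.f (T.a x)) (P.A + P.q) := by
  rw [← nw_tri S T]
  exact inn_bl (frm_nw ((le_iff_sub S T).1 h))

/-- The first phase. -/
theorem top_first (hP : P.Ok) (h : S.Le T) (hy : T.a x ∉ S.R) :
    bl T.a T.f {d | d ∉ S.R} (fc T.f (T.a x)) (P.J + P.q) ⊆ inr P S (ofTri T) x := by
  have h1 : S.Sub (ofTri T) := (le_iff_sub S T).1 h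
  have h2 := bal_inr (x := x) hP h1 (fun d _ => T.ane d)
  have h3 : (ofTri T).a x ∈ nw S (ofTri T) := ⟨T.fne _, hy⟩
  unfold bal at h2
  rw [ff_eq h1 h3, nw_tri S T] at h2
  exact h2

end SYS.BK
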